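import Pool.Agent.Luzin.Defs

/-! # MP_a8cc1b_lc, T1: closure properties of uniformly `Δ¹₁` predicates -/

set_option autoImplicit false

namespace Pool.Agent.Luzin

open MeasureTheory Set

section Tool
variable {α β : Type} [Primcodable α] [Primcodable β]

/-- `x` is in the rational open interval with code `p` -/
def tool_In (p : ℕ × ℕ) (x : ℝ) : Prop := (rat p.1 : ℝ) < x ∧ x < (rat p.2 : ℝ)

/-- a code of the empty interval -/
def tool_e : ℕ × ℕ := (0, 0)

/-- a code of the interval `(-K, K)` -/
def tool_big (K : ℕ) : ℕ × ℕ := (Nat.pair 0 (Nat.pair K 0), Nat.pair K 0)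

lemma tool_rat_zero : rat 0 = 0 := by
  simp [rat]

lemma tool_rat_pos (K : ℕ) : rat (Nat.pair K 0) = K := by
  simp [rat]

lemma tool_rat_neg (K : ℕ) : rat (Nat.pair 0 (Nat.pair K 0)) = -K := by
  simp [rat]

lemma tool_not_In_e (x : ℝ) : ¬ tool_In tool_e x := by
  unfold tool_In tool_e
  rw [tool_rat_zero]
  rintro ⟨h1, h2⟩
  exact absurd h1 (not_lt.2 h2.le)

lemma tool_exists_big (x : ℝ) : ∃ K, tool_In (tool_big K) x := by
  obtain ⟨K, hK⟩ := exists_nat_gt |x|
  refine ⟨K, ?_, ?_⟩
  · unfold tool_big
    rw [tool_rat_neg]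
    push_cast
    have := (abs_lt.1 hK).1
    linarith
  · unfold tool_big
    rw [tool_rat_pos]
    push_cast
    exact (abs_lt.1 hK).2

lemma tool_big_computable : Computable tool_big := by
  apply Primrec.to_comp
  unfold tool_big
  exact Primrec.pair (Primrec₂.natPair.comp (Primrec.const 0)
    (Primrec₂.natPair.comp Primrec.id (Primrec.const 0)))
    (Primrec₂.natPair.comp Primrec.id (Primrec.const 0))

lemma tool_pre_length (g : ℕ → ℕ) (n : ℕ) : (pre g n).length = n := by
  simp [pre]

lemma tool_pre_succ (g : ℕ → ℕ) (n : ℕ) : pre g (n + 1) = g 0 :: pre (fun i => g (i + 1)) n := by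
  unfold pre
  rw [List.range_succ_eq_map]
  simp [Function.comp_def]

lemma tool_pre_zero (g : ℕ → ℕ) : pre g 0 = [] := by
  simp [pre]

lemma tool_pre_getD (g : ℕ → ℕ) (n i : ℕ) (h : i < n) : (pre g n).getD i 0 = g i := by
  unfold pre
  rw [List.getD_eq_getElem _ _ (by simpa using h)]
  simp

theorem S11.congr {R R' : α → Set ℝ} (h : S11 R) (he : ∀ a x, x ∈ R a ↔ x ∈ R' a) : S11 R' := by
  obtain ⟨c, hc, h⟩ := h
  exact ⟨c, hc, fun a x => (he a x).symm.trans (h a x)⟩

theorem S11.comp {R : β → Set ℝ} (h : S11 R) {φ : α → β} (hφ : Computable φ) :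
    S11 (fun a => R (φ a)) := by
  obtain ⟨c, hc, h⟩ := h
  refine ⟨fun a s => c (φ a) s, ?_, fun a x => h (φ a) x⟩
  exact hc.comp₂ (hφ.comp Computable.fst).to₂ Computable.snd.to₂

theorem S11.ex {R : α × β → Set ℝ} (h : S11 R) : S11 (fun a => {x | ∃ b, x ∈ R (a, b)}) := by
  obtain ⟨c, hc, h⟩ := h
  refine ⟨fun a s => Option.casesOn (s.head?) tool_e
    (fun v => Option.casesOn (Encodable.decode v : Option β) (tool_big s.length)
      (fun b => c (a, b) s.tail)), ?_, ?_⟩
  · have h1 : Computable (fun p : α × List ℕ => p.2.head?) :=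
      (Primrec.list_head?.comp Primrec.snd).to_comp
    have h2 : Computable (fun p : α × List ℕ => tool_e) := Computable.const _
    have h3 : Computable (fun q : (α × List ℕ) × ℕ => (Encodable.decode q.2 : Option β)) :=
      Computable.decode.comp Computable.snd
    have h4 : Computable (fun q : (α × List ℕ) × ℕ => tool_big q.1.2.length) :=
      tool_big_computable.comp
        ((Primrec.list_length.comp (Primrec.snd.comp Primrec.fst)).to_comp)
    have h5 : Computable (fun r : ((α × List ℕ) × ℕ) × β =>
        c (r.1.1.1, r.2) r.1.1.2.tail) := by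
      have ha : Computable (fun r : ((α × List ℕ) × ℕ) × β => (r.1.1.1, r.2)) :=
        Computable.pair (Computable.fst.comp (Computable.fst.comp Computable.fst)) Computable.snd
      have hb : Computable (fun r : ((α × List ℕ) × ℕ) × β => r.1.1.2.tail) :=
        (Primrec.list_tail.comp (Primrec.snd.comp (Primrec.fst.comp Primrec.fst))).to_comp
      exact hc.comp ha hb
    have h6 : Computable₂ (fun (p : α × List ℕ) (v : ℕ) =>
        (Option.casesOn (Encodable.decode v : Option β) (tool_big p.2.length)
          (fun b => c (p.1, b) p.2.tail) : ℕ × ℕ)) :=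
      Computable.option_casesOn h3 h4 h5.to₂
    exact (Computable.option_casesOn h1 h2 h6)
  · intro a x
    constructor
    · rintro ⟨b, hb⟩
      obtain ⟨g, hg⟩ := (h (a, b) x).1 hb
      refine ⟨fun n => Nat.casesOn n (Encodable.encode b) g, ?_⟩
      intro n
      rcases n with _ | n
      · rw [tool_pre_zero]
        exact tool_not_In_e x
      · have hk : pre (fun n => (Nat.casesOn n (Encodable.encode b) g : ℕ)) (n + 1) =
            Encodable.encode b :: pre g n := tool_pre_succ _ n
        rw [hk]
        simp only [List.head?_cons, List.tail_cons, Encodable.encodek]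
        exact hg n
    · rintro ⟨g, hg⟩
      rcases hd : (Encodable.decode (g 0) : Option β) with _ | b
      · exfalso
        obtain ⟨K, hK⟩ := tool_exists_big x
        rcases K with _ | K
        · refine tool_not_In_e x ?_
          obtain ⟨h1, h2⟩ := hK
          simp only [tool_big] at h1 h2
          rw [tool_rat_neg] at h1
          rw [tool_rat_pos] at h2
          simp only [Nat.cast_zero, neg_zero, Rat.cast_zero] at h1 h2
          exact absurd h1 (not_lt.2 h2.le)
        · have h1 := hg (K + 1)
          rw [tool_pre_succ] at h1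
          simp only [List.head?_cons, hd, List.length_cons, tool_pre_length] at h1
          exact h1 hK
      · refine ⟨b, (h (a, b) x).2 ⟨fun i => g (i + 1), ?_⟩⟩
        intro n
        have h1 := hg (n + 1)
        rw [tool_pre_succ] at h1
        simp only [List.head?_cons, hd, List.tail_cons] at h1
        exact h1

theorem S11.all {R : α × β → Set ℝ} (h : S11 R) : S11 (fun a => {x | ∀ b, x ∈ R (a, b)}) := by
  obtain ⟨c, hc, h⟩ := h
  refine ⟨fun a s => Option.casesOn (Encodable.decode s.length.unpair.1 : Option β) tool_e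
    (fun b => c (a, b) ((List.range s.length.unpair.2).map
      (fun i => s.getD (Nat.pair s.length.unpair.1 i) 0))), ?_, ?_⟩
  · have hlen : Primrec (fun p : α × List ℕ => p.2.length) := Primrec.list_length.comp Primrec.snd
    have hv : Primrec (fun p : α × List ℕ => p.2.length.unpair.1) :=
      Primrec.fst.comp (Primrec.unpair.comp hlen)
    have hk : Primrec (fun p : α × List ℕ => p.2.length.unpair.2) :=
      Primrec.snd.comp (Primrec.unpair.comp hlen)
    have h1 : Computable (fun p : α × List ℕ =>
        (Encodable.decode p.2.length.unpair.1 : Option β)) :=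
      Computable.decode.comp hv.to_comp
    have h2 : Computable (fun p : α × List ℕ => tool_e) := Computable.const _
    have h3 : Primrec (fun p : α × List ℕ => (List.range p.2.length.unpair.2).map
        (fun i => p.2.getD (Nat.pair p.2.length.unpair.1 i) 0)) := by
      refine Primrec.list_map (Primrec.list_range.comp hk) ?_
      exact ((Primrec.list_getD 0).comp (Primrec.snd.comp Primrec.fst)
        (Primrec₂.natPair.comp (hv.comp Primrec.fst) Primrec.snd)).to₂
    have h4 : Computable (fun q : (α × List ℕ) × β =>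
        c (q.1.1, q.2) ((List.range q.1.2.length.unpair.2).map
          (fun i => q.1.2.getD (Nat.pair q.1.2.length.unpair.1 i) 0))) := by
      have ha : Computable (fun q : (α × List ℕ) × β => (q.1.1, q.2)) :=
        Computable.pair (Computable.fst.comp Computable.fst) Computable.snd
      exact hc.comp ha (h3.to_comp.comp Computable.fst)
    exact Computable.option_casesOn h1 h2 h4.to₂
  · intro a x
    constructor
    · intro hx
      have hx' : ∀ b, ∃ g : ℕ → ℕ, ∀ n, ¬ ((rat (c (a, b) (pre g n)).1 : ℝ) < x ∧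
          x < (rat (c (a, b) (pre g n)).2 : ℝ)) := fun b => (h (a, b) x).1 (hx b)
      choose G hG using hx'
      refine ⟨fun N => Option.casesOn (Encodable.decode N.unpair.1 : Option β) 0
        (fun b => G b N.unpair.2), ?_⟩
      intro N
      simp only [tool_pre_length]
      rcases hd : (Encodable.decode N.unpair.1 : Option β) with _ | b
      · exact tool_not_In_e x
      · have h1 : (List.range N.unpair.2).map (fun i => (pre (fun N =>
            (Option.casesOn (Encodable.decode N.unpair.1 : Option β) 0
              (fun b => G b N.unpair.2) : ℕ)) N).getD (Nat.pair N.unpair.1 i) 0) =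
            pre (G b) N.unpair.2 := by
          unfold pre
          refine List.map_congr_left ?_
          intro i hi
          rw [List.mem_range] at hi
          have h2 : Nat.pair N.unpair.1 i < N := by
            conv_rhs => rw [← Nat.pair_unpair N]
            exact Nat.pair_lt_pair_right _ hi
          have h3 := tool_pre_getD (fun N =>
            (Option.casesOn (Encodable.decode N.unpair.1 : Option β) 0
              (fun b => G b N.unpair.2) : ℕ)) N _ h2
          unfold pre at h3
          rw [h3]
          simp only [Nat.unpair_pair, hd]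
        simp only
        rw [h1]
        exact hG b N.unpair.2
    · rintro ⟨g, hg⟩ b
      refine (h (a, b) x).2 ⟨fun i => g (Nat.pair (Encodable.encode b) i), ?_⟩
      intro k
      have h1 := hg (Nat.pair (Encodable.encode b) k)
      simp only [tool_pre_length, Nat.unpair_pair, Encodable.encodek] at h1
      have h2 : (List.range k).map (fun i => (pre g (Nat.pair (Encodable.encode b) k)).getD
          (Nat.pair (Encodable.encode b) i) 0) =
          pre (fun i => g (Nat.pair (Encodable.encode b) i)) k := by
        unfold pre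
        refine List.map_congr_left ?_
        intro i hi
        rw [List.mem_range] at hi
        have h3 := tool_pre_getD g _ _ (Nat.pair_lt_pair_right (Encodable.encode b) hi)
        unfold pre at h3
        rw [h3]
      rw [h2] at h1
      exact h1

theorem S11.cond {R R' : α → Set ℝ} (h : S11 R) (h' : S11 R') :
    S11 (fun ab : α × Bool => if ab.2 = true then R ab.1 else R' ab.1) := by
  obtain ⟨c, hc, h⟩ := h
  obtain ⟨c', hc', h'⟩ := h'
  refine ⟨fun ab s => _root_.cond ab.2 (c ab.1 s) (c' ab.1 s), ?_, ?_⟩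
  · have h1 : Computable (fun q : (α × Bool) × List ℕ => q.1.2) :=
      Computable.snd.comp Computable.fst
    have h2 : Computable (fun q : (α × Bool) × List ℕ => q.1.1) :=
      Computable.fst.comp Computable.fst
    exact (Computable.cond h1 (hc.comp h2 Computable.snd) (hc'.comp h2 Computable.snd))
  · rintro ⟨a, b⟩ x
    cases b
    · simpa using h' a x
    · simpa using h a x

theorem S11.and {R R' : α → Set ℝ} (h : S11 R) (h' : S11 R') : S11 (fun a => R a ∩ R' a) := by
  refine (S11.all (S11.cond h h')).congr ?_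
  intro a x
  constructor
  · intro hx
    have h1 := hx true
    have h2 := hx false
    simp only [if_true] at h1
    simp only [Bool.false_eq_true, if_false] at h2
    exact ⟨h1, h2⟩
  · rintro ⟨h1, h2⟩ b
    cases b
    · simpa using h2
    · simpa using h1

theorem S11.or {R R' : α → Set ℝ} (h : S11 R) (h' : S11 R') : S11 (fun a => R a ∪ R' a) := by
  refine (S11.ex (S11.cond h h')).congr ?_
  intro a x
  constructor
  · rintro ⟨b, hb⟩
    cases b
    · simp only [Bool.false_eq_true, if_false] at hb
      exact Or.inr hb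
    · simp only [if_true] at hb
      exact Or.inl hb
  · rintro (h1 | h1)
    · exact ⟨true, by simpa using h1⟩
    · exact ⟨false, by simpa using h1⟩

theorem S11.of_computable {p : α → Bool} (hp : Computable p) :
    S11 (fun a => {_x : ℝ | p a = true}) := by
  refine ⟨fun a s => _root_.cond (p a) tool_e (tool_big s.length), ?_, ?_⟩
  · exact Computable.cond (hp.comp Computable.fst) (Computable.const _)
      (tool_big_computable.comp ((Primrec.list_length.comp Primrec.snd).to_comp))
  · intro a x
    rcases hpa : p a with _ | _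
    · constructor
      · intro h
        have h : p a = true := h
        rw [hpa] at h
        exact absurd h (by simp)
      · rintro ⟨g, hg⟩
        exfalso
        obtain ⟨K, hK⟩ := tool_exists_big x
        have h1 := hg K
        simp only [hpa, cond_false, tool_pre_length] at h1
        exact h1 hK
    · constructor
      · intro _
        refine ⟨fun _ => 0, fun n => ?_⟩
        simp only [hpa, cond_true]
        exact tool_not_In_e x
      · intro _
        exact hpa

theorem S11.le_rat : S11 (fun n : ℕ => {x : ℝ | x ≤ (rat n : ℝ)}) := by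
  refine ⟨fun n s => (n, Nat.pair s.length 0), ?_, ?_⟩
  · exact (Primrec.pair Primrec.fst (Primrec₂.natPair.comp
      (Primrec.list_length.comp Primrec.snd) (Primrec.const 0))).to_comp
  · intro n x
    constructor
    · intro hx
      exact ⟨fun _ => 0, fun k h => absurd h.1 (not_lt.2 hx)⟩
    · rintro ⟨g, hg⟩
      by_contra hx
      have hx : (rat n : ℝ) < x := not_le.1 hx
      obtain ⟨K, hK⟩ := exists_nat_gt x
      have h1 := hg K
      simp only [tool_pre_length, tool_rat_pos] at h1
      exact h1 ⟨hx, by push_cast; exact hK⟩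

theorem S11.rat_le : S11 (fun n : ℕ => {x : ℝ | (rat n : ℝ) ≤ x}) := by
  refine ⟨fun n s => (Nat.pair 0 (Nat.pair s.length 0), n), ?_, ?_⟩
  · exact (Primrec.pair (Primrec₂.natPair.comp (Primrec.const 0) (Primrec₂.natPair.comp
      (Primrec.list_length.comp Primrec.snd) (Primrec.const 0))) Primrec.fst).to_comp
  · intro n x
    constructor
    · intro hx
      exact ⟨fun _ => 0, fun k h => absurd h.2 (not_lt.2 hx)⟩
    · rintro ⟨g, hg⟩
      by_contra hx
      have hx : x < (rat n : ℝ) := not_le.1 hx
      obtain ⟨K, hK⟩ := exists_nat_gt (-x)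
      have h1 := hg K
      simp only [tool_pre_length, tool_rat_neg] at h1
      exact h1 ⟨by push_cast; linarith, hx⟩

lemma tool_rat_lt_iff (m n : ℕ) : rat m < rat n ↔
    m.unpair.1 * (n.unpair.2.unpair.2 + 1) + n.unpair.2.unpair.1 * (m.unpair.2.unpair.2 + 1) <
      n.unpair.1 * (m.unpair.2.unpair.2 + 1) + m.unpair.2.unpair.1 * (n.unpair.2.unpair.2 + 1) := by
  unfold rat
  rw [div_lt_div_iff₀ (by positivity) (by positivity)]
  have h : (m.unpair.1 * (n.unpair.2.unpair.2 + 1) + n.unpair.2.unpair.1 * (m.unpair.2.unpair.2 + 1) <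
      n.unpair.1 * (m.unpair.2.unpair.2 + 1) + m.unpair.2.unpair.1 * (n.unpair.2.unpair.2 + 1)) ↔
      ((m.unpair.1 * (n.unpair.2.unpair.2 + 1) + n.unpair.2.unpair.1 * (m.unpair.2.unpair.2 + 1) : ℚ) <
      n.unpair.1 * (m.unpair.2.unpair.2 + 1) + m.unpair.2.unpair.1 * (n.unpair.2.unpair.2 + 1)) := by
    exact_mod_cast Iff.rfl
  rw [h]
  constructor <;> intro h <;> linarith

/-- comparison of rational codes -/
def tool_lt (m n : ℕ) : Bool := decide (rat m < rat n)

lemma tool_lt_iff (m n : ℕ) : tool_lt m n = true ↔ rat m < rat n := by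
  simp [tool_lt]

/-- comparison of rational codes is computable -/
theorem tool_rat_lt_computable : Computable (fun p : ℕ × ℕ => tool_lt p.1 p.2) := by
  have hu : Primrec (fun p : ℕ × ℕ => p.1.unpair) := Primrec.unpair.comp Primrec.fst
  have hv : Primrec (fun p : ℕ × ℕ => p.2.unpair) := Primrec.unpair.comp Primrec.snd
  have hu1 : Primrec (fun p : ℕ × ℕ => p.1.unpair.1) := Primrec.fst.comp hu
  have hv1 : Primrec (fun p : ℕ × ℕ => p.2.unpair.1) := Primrec.fst.comp hv
  have hu2 : Primrec (fun p : ℕ × ℕ => p.1.unpair.2.unpair) :=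
    Primrec.unpair.comp (Primrec.snd.comp hu)
  have hv2 : Primrec (fun p : ℕ × ℕ => p.2.unpair.2.unpair) :=
    Primrec.unpair.comp (Primrec.snd.comp hv)
  have hu21 := Primrec.fst.comp hu2
  have hv21 := Primrec.fst.comp hv2
  have hu22 := Primrec.succ.comp (Primrec.snd.comp hu2)
  have hv22 := Primrec.succ.comp (Primrec.snd.comp hv2)
  have hA := Primrec.nat_add.comp (Primrec.nat_mul.comp hu1 hv22) (Primrec.nat_mul.comp hv21 hu22)
  have hB := Primrec.nat_add.comp (Primrec.nat_mul.comp hv1 hu22) (Primrec.nat_mul.comp hu21 hv22)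
  have hC := Primrec.nat_lt.comp hA hB
  have hD : PrimrecPred (fun p : ℕ × ℕ => rat p.1 < rat p.2) := by
    refine hC.of_eq ?_
    intro p
    exact (tool_rat_lt_iff p.1 p.2).symm
  exact hD.decide.to_comp

theorem DP.congr {P P' : α → ℝ → Prop} (h : DP P) (he : ∀ a x, P a x ↔ P' a x) : DP P' := by
  refine ⟨h.1.congr he, h.2.congr ?_⟩
  intro a x
  exact not_congr (he a x)

theorem DP.comp {P : β → ℝ → Prop} (h : DP P) {φ : α → β} (hφ : Computable φ) :
    DP (fun a x => P (φ a) x) :=
  ⟨h.1.comp hφ, h.2.comp hφ⟩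

theorem DP.not {P : α → ℝ → Prop} (h : DP P) : DP (fun a x => ¬ P a x) := by
  refine ⟨h.2, h.1.congr ?_⟩
  intro a x
  exact not_not.symm

theorem DP.ex {P : α → β → ℝ → Prop} (h : DP (fun (ab : α × β) x => P ab.1 ab.2 x)) :
    DP (fun a x => ∃ b, P a b x) := by
  refine ⟨h.1.ex, h.2.all.congr ?_⟩
  intro a x
  exact not_exists.symm

theorem DP.all {P : α → β → ℝ → Prop} (h : DP (fun (ab : α × β) x => P ab.1 ab.2 x)) :
    DP (fun a x => ∀ b, P a b x) := by
  refine ⟨h.1.all, h.2.ex.congr ?_⟩
  intro a x
  exact not_forall.symm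

theorem DP.and {P Q : α → ℝ → Prop} (hP : DP P) (hQ : DP Q) :
    DP (fun a x => P a x ∧ Q a x) := by
  refine ⟨hP.1.and hQ.1, (hP.2.or hQ.2).congr ?_⟩
  intro a x
  exact not_and_or.symm

theorem DP.or {P Q : α → ℝ → Prop} (hP : DP P) (hQ : DP Q) :
    DP (fun a x => P a x ∨ Q a x) := by
  refine ⟨hP.1.or hQ.1, (hP.2.and hQ.2).congr ?_⟩
  intro a x
  exact not_or.symm

theorem DP.imp {P Q : α → ℝ → Prop} (hP : DP P) (hQ : DP Q) :
    DP (fun a x => P a x → Q a x) :=
  (hP.not.or hQ).congr (fun _ _ => imp_iff_not_or.symm)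

theorem DP.iff {P Q : α → ℝ → Prop} (hP : DP P) (hQ : DP Q) :
    DP (fun a x => (P a x ↔ Q a x)) :=
  ((hP.imp hQ).and (hQ.imp hP)).congr (fun _ _ => iff_iff_implies_and_implies.symm)

/-- computable predicates of the parameters only -/
theorem DP.of_computable {p : α → Bool} (hp : Computable p) :
    DP (fun a (_ : ℝ) => p a = true) := by
  refine ⟨S11.of_computable hp, (S11.of_computable (p := fun a => !p a)
    (Primrec.not.to_comp.comp hp)).congr ?_⟩
  intro a x
  simp

theorem tool_exists_rat (q : ℚ) : ∃ m, rat m = q := by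
  refine ⟨Nat.pair q.num.toNat (Nat.pair (-q.num).toNat (q.den - 1)), ?_⟩
  unfold rat
  simp only [Nat.unpair_pair]
  have h6 : ((q.den - 1 : ℕ) : ℚ) + 1 = q.den := by
    have := q.pos
    have h7 : q.den - 1 + 1 = q.den := by omega
    exact_mod_cast h7
  have h7 : ((q.num.toNat : ℚ) - ((-q.num).toNat : ℚ)) = (q.num : ℚ) := by
    have h8 : ((q.num.toNat : ℤ) - ((-q.num).toNat : ℤ)) = q.num := by omega
    exact_mod_cast h8
  rw [h6, h7]
  exact Rat.num_div_den q

theorem DP.lt_rat : DP (fun (n : ℕ) (x : ℝ) => x < (rat n : ℝ)) := by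
  refine ⟨?_, S11.rat_le.congr ?_⟩
  · have hsw : Computable (fun p : ℕ × ℕ => (p.2, p.1)) :=
      Computable.pair Computable.snd Computable.fst
    have h0 : Computable (fun p : ℕ × ℕ => tool_lt p.2 p.1) :=
      Computable.of_eq (tool_rat_lt_computable.comp hsw) (fun _ => rfl)
    have h1 : S11 (fun p : ℕ × ℕ => {_x : ℝ | tool_lt p.2 p.1 = true}) := S11.of_computable h0
    have h2 : S11 (fun p : ℕ × ℕ => {x : ℝ | x ≤ (rat p.2 : ℝ)}) :=
      S11.le_rat.comp Computable.snd
    refine (h1.and h2).ex.congr ?_
    intro n x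
    constructor
    · rintro ⟨m, h3, h4⟩
      have h3 : rat m < rat n := (tool_lt_iff m n).1 h3
      have h4 : x ≤ (rat m : ℝ) := h4
      exact lt_of_le_of_lt h4 (by exact_mod_cast h3)
    · intro hx
      have hx : x < (rat n : ℝ) := hx
      obtain ⟨q, hq1, hq2⟩ := exists_rat_btwn hx
      obtain ⟨m, hm⟩ := tool_exists_rat q
      refine ⟨m, (tool_lt_iff m n).2 ?_, ?_⟩
      · rw [hm]
        exact_mod_cast hq2
      · show x ≤ (rat m : ℝ)
        rw [hm]
        exact hq1.le
  · intro n x
    exact (not_lt (a := x) (b := (rat n : ℝ))).symm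

theorem DP.rat_lt : DP (fun (n : ℕ) (x : ℝ) => (rat n : ℝ) < x) := by
  refine ⟨?_, S11.le_rat.congr ?_⟩
  · have h1 : S11 (fun p : ℕ × ℕ => {_x : ℝ | decide (rat p.1 < rat p.2) = true}) :=
      S11.of_computable tool_rat_lt_computable
    have h2 : S11 (fun p : ℕ × ℕ => {x : ℝ | (rat p.2 : ℝ) ≤ x}) :=
      S11.rat_le.comp Computable.snd
    refine (h1.and h2).ex.congr ?_
    intro n x
    constructor
    · rintro ⟨m, h3, h4⟩
      have h3 : rat n < rat m := (tool_lt_iff n m).1 h3
      have h4 : (rat m : ℝ) ≤ x := h4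
      exact lt_of_lt_of_le (by exact_mod_cast h3) h4
    · intro hx
      have hx : (rat n : ℝ) < x := hx
      obtain ⟨q, hq1, hq2⟩ := exists_rat_btwn hx
      obtain ⟨m, hm⟩ := tool_exists_rat q
      refine ⟨m, (tool_lt_iff n m).2 ?_, ?_⟩
      · rw [hm]
        exact_mod_cast hq1
      · show (rat m : ℝ) ≤ x
        rw [hm]
        exact hq2.le
  · intro n x
    exact (not_lt (a := (rat n : ℝ)) (b := x)).symm

theorem DP.delta11 {P : α → ℝ → Prop} (h : DP P) (a : α) : Delta11 {x | P a x} := by
  obtain ⟨⟨c, hc, h1⟩, ⟨c', hc', h2⟩⟩ := h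
  exact ⟨⟨c a, hc.comp (Computable.const a) Computable.id, h1 a⟩,
    ⟨c' a, hc'.comp (Computable.const a) Computable.id, h2 a⟩⟩

end Tool

end Pool.Agent.Luzin
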