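import Mathlib
import Pool.Agent.Luzin.Tool

/-! # MP_a8cc1b_lc, T3: sublevel sets of computable functions -/

set_option autoImplicit false

namespace Pool.Agent.Luzin

open MeasureTheory Set Filter Topology Metric

theorem base_pow : Primrec₂ ((· ^ ·) : ℕ → ℕ → ℕ) := Primrec₂.unpaired'.1 Nat.Primrec.pow

/-- comparison of rational numbers, cross multiplied -/
def baseTest (r N n : ℕ) : Bool :=
  decide (r.unpair.1 * (n.unpair.2.unpair.2 + 1) * 2 ^ N +
      (r.unpair.2.unpair.2 + 1) * (n.unpair.2.unpair.2 + 1) +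
      n.unpair.2.unpair.1 * (r.unpair.2.unpair.2 + 1) * 2 ^ N <
    n.unpair.1 * (r.unpair.2.unpair.2 + 1) * 2 ^ N +
      r.unpair.2.unpair.1 * (n.unpair.2.unpair.2 + 1) * 2 ^ N)

theorem baseTest_iff (r N n : ℕ) :
    baseTest r N n = true ↔ (rat r : ℝ) + (1 / 2) ^ N < (rat n : ℝ) := by
  unfold baseTest rat
  rw [decide_eq_true_iff]
  generalize r.unpair.1 = a
  generalize r.unpair.2.unpair.1 = b
  generalize r.unpair.2.unpair.2 = d
  generalize n.unpair.1 = a'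
  generalize n.unpair.2.unpair.1 = b'
  generalize n.unpair.2.unpair.2 = d'
  have hD : (0 : ℝ) < (d : ℝ) + 1 := by positivity
  have hD' : (0 : ℝ) < (d' : ℝ) + 1 := by positivity
  have hX : (0 : ℝ) < (2 : ℝ) ^ N := by positivity
  push_cast
  rw [one_div, inv_pow, inv_eq_one_div, div_add_div _ _ hD.ne' hX.ne',
    div_lt_div_iff₀ (by positivity) hD']
  rw [← Nat.cast_lt (α := ℝ)]
  push_cast
  constructor
  · intro h; nlinarith
  · intro h; nlinarith

theorem baseTest_prim : Primrec (fun p : ℕ × ℕ × ℕ => baseTest p.1 p.2.1 p.2.2) := by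
  have hr : Primrec (fun p : ℕ × ℕ × ℕ => p.1) := Primrec.fst
  have hN : Primrec (fun p : ℕ × ℕ × ℕ => p.2.1) := Primrec.fst.comp Primrec.snd
  have hn : Primrec (fun p : ℕ × ℕ × ℕ => p.2.2) := Primrec.snd.comp Primrec.snd
  have f1 : ∀ g : ℕ × ℕ × ℕ → ℕ, Primrec g → Primrec (fun p => (g p).unpair.1) :=
    fun g hg => Primrec.fst.comp (Primrec.unpair.comp hg)
  have f2 : ∀ g : ℕ × ℕ × ℕ → ℕ, Primrec g → Primrec (fun p => (g p).unpair.2.unpair.1) :=
    fun g hg => Primrec.fst.comp (Primrec.unpair.comp (Primrec.snd.comp (Primrec.unpair.comp hg)))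
  have f3 : ∀ g : ℕ × ℕ × ℕ → ℕ, Primrec g → Primrec (fun p => (g p).unpair.2.unpair.2 + 1) :=
    fun g hg => Primrec.succ.comp
      (Primrec.snd.comp (Primrec.unpair.comp (Primrec.snd.comp (Primrec.unpair.comp hg))))
  have hp : Primrec (fun p : ℕ × ℕ × ℕ => 2 ^ p.2.1) := base_pow.comp (Primrec.const 2) hN
  have hadd : ∀ g g' : ℕ × ℕ × ℕ → ℕ, Primrec g → Primrec g' → Primrec (fun p => g p + g' p) :=
    fun g g' hg hg' => Primrec.nat_add.comp hg hg'
  have hmul : ∀ g g' : ℕ × ℕ × ℕ → ℕ, Primrec g → Primrec g' → Primrec (fun p => g p * g' p) :=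
    fun g g' hg hg' => Primrec.nat_mul.comp hg hg'
  have hL := hadd _ _ (hadd _ _ (hmul _ _ (hmul _ _ (f1 _ hr) (f3 _ hn)) hp)
    (hmul _ _ (f3 _ hr) (f3 _ hn))) (hmul _ _ (hmul _ _ (f2 _ hn) (f3 _ hr)) hp)
  have hR := hadd _ _ (hmul _ _ (hmul _ _ (f1 _ hn) (f3 _ hr)) hp)
    (hmul _ _ (hmul _ _ (f2 _ hr) (f3 _ hn)) hp)
  exact (Primrec.nat_lt.comp hL hR).decide

attribute [irreducible] baseTest

theorem baseTest_comp {α : Type} [Primcodable α] {r N n : α → ℕ} (hr : Computable r)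
    (hN : Computable N) (hn : Computable n) :
    Computable (fun a => baseTest (r a) (N a) (n a)) := by
  have h0 : Computable (fun p : ℕ × ℕ × ℕ => baseTest p.1 p.2.1 p.2.2) :=
    Primrec.to_comp baseTest_prim
  have h1 : Computable (fun a : α => (r a, N a, n a)) := Computable.pair hr (Computable.pair hN hn)
  exact Computable.comp h0 h1

theorem base_rat_surj (q : ℚ) : ∃ n, rat n = q := by
  refine ⟨Nat.pair q.num.toNat (Nat.pair (-q.num).toNat (q.den - 1)), ?_⟩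
  unfold rat
  simp only [Nat.unpair_pair]
  have h1 : ((q.num.toNat : ℕ) : ℚ) - (((-q.num).toNat : ℕ) : ℚ) = (q.num : ℚ) := by
    have h2 : ((q.num.toNat : ℕ) : ℤ) - (((-q.num).toNat : ℕ) : ℤ) = q.num := by omega
    exact_mod_cast h2
  have h3 : ((q.den - 1 : ℕ) : ℚ) + 1 = (q.den : ℚ) := by
    have := q.pos
    have h4 : q.den - 1 + 1 = q.den := by omega
    exact_mod_cast h4
  rw [h1, h3]
  exact Rat.num_div_den q

/-- `s` is a finite part of a strict name of `x` -/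
def closeTo (s : List ℕ) (x : ℝ) : Prop :=
  ∀ i, i < s.length → |(rat (s.getD i 0) : ℝ) - x| < (1 / 2 : ℝ) ^ i

theorem base_abs (q i : ℕ) (x : ℝ) : |(rat q : ℝ) - x| < (1 / 2 : ℝ) ^ i ↔
    ∃ cd : ℕ × ℕ, ((rat cd.1 : ℝ) < x ∧ x < (rat cd.2 : ℝ)) ∧
      (¬ baseTest cd.1 i q ∧ ¬ baseTest q i cd.2) := by
  simp only [baseTest_iff, not_lt]
  rw [abs_lt]
  constructor
  · rintro ⟨h1, h2⟩
    obtain ⟨c, hc⟩ := base_rat_surj (rat q - (1 / 2) ^ i)
    obtain ⟨d, hd⟩ := base_rat_surj (rat q + (1 / 2) ^ i)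
    have hc' : (rat c : ℝ) = (rat q : ℝ) - (1 / 2) ^ i := by rw [hc]; push_cast; ring
    have hd' : (rat d : ℝ) = (rat q : ℝ) + (1 / 2) ^ i := by rw [hd]; push_cast; ring
    refine ⟨(c, d), ⟨?_, ?_⟩, ?_, ?_⟩
    · simp only; rw [hc']; linarith
    · simp only; rw [hd']; linarith
    · simp only; rw [hc']; linarith
    · simp only; rw [hd']
  · rintro ⟨⟨c, d⟩, ⟨h1, h2⟩, h3, h4⟩
    simp only at h1 h2 h3 h4
    constructor <;> linarith

theorem base_close : DP (fun (s : List ℕ) (x : ℝ) => closeTo s x) := by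
  have key : DP (fun (s : List ℕ) (x : ℝ) => ∀ i : ℕ, i < s.length →
      ∃ cd : ℕ × ℕ, ((rat cd.1 : ℝ) < x ∧ x < (rat cd.2 : ℝ)) ∧
      (¬ baseTest cd.1 i (s.getD i 0) ∧ ¬ baseTest (s.getD i 0) i cd.2)) := by
    refine DP.all (P := fun (s : List ℕ) (i : ℕ) (x : ℝ) => i < s.length →
      ∃ cd : ℕ × ℕ, ((rat cd.1 : ℝ) < x ∧ x < (rat cd.2 : ℝ)) ∧
      (¬ baseTest cd.1 i (s.getD i 0) ∧ ¬ baseTest (s.getD i 0) i cd.2)) ?_
    refine DP.imp ?_ ?_
    · have hc : Computable (fun a : List ℕ × ℕ => decide (a.2 < a.1.length)) :=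
        (Primrec.nat_lt.comp Primrec.snd (Primrec.list_length.comp Primrec.fst)).decide.to_comp
      exact (DP.of_computable hc).congr (fun a x => by simp)
    · refine DP.ex (P := fun (a : List ℕ × ℕ) (cd : ℕ × ℕ) (x : ℝ) =>
        ((rat cd.1 : ℝ) < x ∧ x < (rat cd.2 : ℝ)) ∧
        (¬ baseTest cd.1 a.2 (a.1.getD a.2 0) ∧ ¬ baseTest (a.1.getD a.2 0) a.2 cd.2)) ?_
      refine DP.and (DP.and ?_ ?_) ?_
      · exact DP.rat_lt.comp (φ := fun ab : (List ℕ × ℕ) × (ℕ × ℕ) => ab.2.1)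
          (Computable.fst.comp Computable.snd)
      · exact DP.lt_rat.comp (φ := fun ab : (List ℕ × ℕ) × (ℕ × ℕ) => ab.2.2)
          (Computable.snd.comp Computable.snd)
      · have hq : Computable (fun ab : (List ℕ × ℕ) × (ℕ × ℕ) => ab.1.1.getD ab.1.2 0) :=
          ((Primrec.list_getD 0).comp (Primrec.fst.comp Primrec.fst)
            (Primrec.snd.comp Primrec.fst)).to_comp
        have hi : Computable (fun ab : (List ℕ × ℕ) × (ℕ × ℕ) => ab.1.2) :=
          Computable.snd.comp Computable.fst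
        have h1 := baseTest_comp
          (r := fun ab : (List ℕ × ℕ) × (ℕ × ℕ) => ab.2.1) (Computable.fst.comp Computable.snd)
          hi hq
        have h2 := baseTest_comp (n := fun ab : (List ℕ × ℕ) × (ℕ × ℕ) => ab.2.2) hq hi
          (Computable.snd.comp Computable.snd)
        exact DP.and ((DP.of_computable h1).not.congr (fun a x => by simp))
          ((DP.of_computable h2).not.congr (fun a x => by simp))
  refine key.congr ?_
  intro s x
  unfold closeTo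
  exact forall_congr' (fun i => forall_congr' (fun _ => (base_abs _ i x).symm))

theorem closeTo_pre {g : ℕ → ℕ} {x : ℝ} (hg : ∀ i, |(rat (g i) : ℝ) - x| < (1 / 2 : ℝ) ^ i)
    (k : ℕ) : closeTo (pre g k) x := by
  intro i hi
  have h1 : (pre g k).getD i 0 = g i := by
    unfold pre at hi ⊢
    rw [List.length_map, List.length_range] at hi
    simp [List.getD, hi]
  rw [h1]
  exact hg i

theorem exists_strict (x : ℝ) : ∃ g : ℕ → ℕ, ∀ i, |(rat (g i) : ℝ) - x| < (1 / 2 : ℝ) ^ i := by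
  have h : ∀ i : ℕ, ∃ n, |(rat n : ℝ) - x| < (1 / 2 : ℝ) ^ i := by
    intro i
    have hp : (0 : ℝ) < (1 / 2 : ℝ) ^ i := by positivity
    obtain ⟨q, hq1, hq2⟩ := exists_rat_btwn (show x < x + (1 / 2 : ℝ) ^ i by linarith)
    obtain ⟨n, hn⟩ := base_rat_surj q
    refine ⟨n, ?_⟩
    rw [hn, abs_lt]
    constructor <;> linarith
  choose g hg using h
  exact ⟨g, hg⟩

theorem exists_ext {s : List ℕ} {x : ℝ} (hs : closeTo s x) :
    ∃ g : ℕ → ℕ, Names g x ∧ pre g s.length = s := by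
  obtain ⟨g₀, hg₀⟩ := exists_strict x
  refine ⟨fun i => if i < s.length then s.getD i 0 else g₀ i, ?_, ?_⟩
  · intro i
    by_cases hi : i < s.length
    · simp only [hi, if_true]
      exact (hs i hi).le
    · simp only [hi, if_false]
      exact (hg₀ i).le
  · unfold pre
    apply List.ext_getElem
    · simp
    · intro i h1 h2
      simp [h2]

/-- evaluation of `f` up to `(1/2)^N` from below or from above -/
theorem base_eval {f : ℝ → ℝ} {M : List ℕ → ℕ → Option ℕ}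
    (hM : ∀ (x : ℝ) (g : ℕ → ℕ), Names g x → ∀ n, (∃ k r, M (pre g k) n = some r) ∧
        ∀ k r, M (pre g k) n = some r → |(rat r : ℝ) - f x| ≤ (1 / 2 : ℝ) ^ n) :
    (∀ (s : List ℕ) (N r : ℕ) (x : ℝ), closeTo s x → M s N = some r →
      |(rat r : ℝ) - f x| ≤ (1 / 2 : ℝ) ^ N) ∧
    (∀ (N : ℕ) (x : ℝ), ∃ (s : List ℕ) (r : ℕ), closeTo s x ∧ M s N = some r) := by
  constructor
  · intro s N r x hs hr
    obtain ⟨g, hg, hgs⟩ := exists_ext hs
    exact (hM x g hg N).2 s.length r (by rw [hgs]; exact hr)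
  · intro N x
    obtain ⟨g, hg⟩ := exists_strict x
    obtain ⟨k, r, hr⟩ := (hM x g (fun i => (hg i).le) N).1
    exact ⟨pre g k, r, closeTo_pre hg k, hr⟩

theorem base_small {t : ℝ} (ht : 0 < t) : ∃ N : ℕ, 2 * (1 / 2 : ℝ) ^ N < t := by
  obtain ⟨N, hN⟩ := exists_pow_lt_of_lt_one (show (0 : ℝ) < t / 2 by linarith)
    (show (1 / 2 : ℝ) < 1 by norm_num)
  exact ⟨N, by linarith⟩

theorem base_lt_iff {f : ℝ → ℝ} {M : List ℕ → ℕ → Option ℕ}
    (hM : ∀ (x : ℝ) (g : ℕ → ℕ), Names g x → ∀ n, (∃ k r, M (pre g k) n = some r) ∧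
        ∀ k r, M (pre g k) n = some r → |(rat r : ℝ) - f x| ≤ (1 / 2 : ℝ) ^ n) (n : ℕ) (x : ℝ) :
    f x < (rat n : ℝ) ↔ ∃ b : List ℕ × ℕ × ℕ,
      (M b.1 b.2.1 = some b.2.2 ∧ baseTest b.2.2 b.2.1 n) ∧ closeTo b.1 x := by
  obtain ⟨h1, h2⟩ := base_eval hM
  constructor
  · intro h
    obtain ⟨N, hN⟩ := base_small (show 0 < (rat n : ℝ) - f x by linarith)
    obtain ⟨s, r, hs, hr⟩ := h2 N x
    refine ⟨(s, N, r), ⟨hr, ?_⟩, hs⟩
    rw [baseTest_iff]
    have h3 := abs_le.mp (h1 s N r x hs hr)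
    linarith [h3.1, h3.2]
  · rintro ⟨⟨s, N, r⟩, ⟨hr, ht⟩, hs⟩
    rw [baseTest_iff] at ht
    have h3 := abs_le.mp (h1 s N r x hs hr)
    simp only at ht h3
    linarith [h3.1, h3.2]

theorem base_gt_iff {f : ℝ → ℝ} {M : List ℕ → ℕ → Option ℕ}
    (hM : ∀ (x : ℝ) (g : ℕ → ℕ), Names g x → ∀ n, (∃ k r, M (pre g k) n = some r) ∧
        ∀ k r, M (pre g k) n = some r → |(rat r : ℝ) - f x| ≤ (1 / 2 : ℝ) ^ n) (n : ℕ) (x : ℝ) :
    (rat n : ℝ) < f x ↔ ∃ b : List ℕ × ℕ × ℕ,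
      (M b.1 b.2.1 = some b.2.2 ∧ baseTest n b.2.1 b.2.2) ∧ closeTo b.1 x := by
  obtain ⟨h1, h2⟩ := base_eval hM
  constructor
  · intro h
    obtain ⟨N, hN⟩ := base_small (show 0 < f x - (rat n : ℝ) by linarith)
    obtain ⟨s, r, hs, hr⟩ := h2 N x
    refine ⟨(s, N, r), ⟨hr, ?_⟩, hs⟩
    rw [baseTest_iff]
    have h3 := abs_le.mp (h1 s N r x hs hr)
    linarith [h3.1, h3.2]
  · rintro ⟨⟨s, N, r⟩, ⟨hr, ht⟩, hs⟩
    rw [baseTest_iff] at ht
    have h3 := abs_le.mp (h1 s N r x hs hr)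
    simp only at ht h3
    linarith [h3.1, h3.2]

theorem base_dp {M : List ℕ → ℕ → Option ℕ} (hMc : Computable₂ M)
    {T : ℕ × (List ℕ × ℕ × ℕ) → Bool} (hT : Computable T) :
    DP (fun (n : ℕ) (x : ℝ) => ∃ b : List ℕ × ℕ × ℕ,
      (M b.1 b.2.1 = some b.2.2 ∧ T (n, b) = true) ∧ closeTo b.1 x) := by
  refine DP.ex (P := fun (n : ℕ) (b : List ℕ × ℕ × ℕ) (x : ℝ) =>
    (M b.1 b.2.1 = some b.2.2 ∧ T (n, b) = true) ∧ closeTo b.1 x) ?_
  refine DP.and (DP.and ?_ ?_) ?_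
  · have h1 : Computable (fun ab : ℕ × (List ℕ × ℕ × ℕ) => M ab.2.1 ab.2.2.1) :=
      hMc.comp (Computable.fst.comp Computable.snd)
        (Computable.fst.comp (Computable.snd.comp Computable.snd))
    have h2 : Computable (fun ab : ℕ × (List ℕ × ℕ × ℕ) => some ab.2.2.2) :=
      Computable.option_some.comp (Computable.snd.comp (Computable.snd.comp Computable.snd))
    have h3 : Computable (fun ab : ℕ × (List ℕ × ℕ × ℕ) =>
        decide (M ab.2.1 ab.2.2.1 = some ab.2.2.2)) :=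
      (PrimrecPred.decide (Primrec.eq (α := Option ℕ))).to_comp.comp (h1.pair h2)
    exact (DP.of_computable h3).congr (fun a x => by simp)
  · exact DP.of_computable hT
  · exact base_close.comp (φ := fun ab : ℕ × (List ℕ × ℕ × ℕ) => ab.2.1)
      (Computable.fst.comp Computable.snd)

theorem DP.f_lt {f : ℝ → ℝ} (hf : ComputableFun f) :
    DP (fun (n : ℕ) (x : ℝ) => f x < (rat n : ℝ)) := by
  obtain ⟨M, hMc, hM⟩ := hf
  have hT : Computable (fun ab : ℕ × (List ℕ × ℕ × ℕ) =>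
      baseTest ab.2.2.2 ab.2.2.1 ab.1) :=
    baseTest_comp (Computable.snd.comp (Computable.snd.comp Computable.snd))
      (Computable.fst.comp (Computable.snd.comp Computable.snd)) Computable.fst
  refine (base_dp hMc hT).congr (fun n x => ?_)
  rw [base_lt_iff hM]

theorem DP.lt_f {f : ℝ → ℝ} (hf : ComputableFun f) :
    DP (fun (n : ℕ) (x : ℝ) => (rat n : ℝ) < f x) := by
  obtain ⟨M, hMc, hM⟩ := hf
  have hT : Computable (fun ab : ℕ × (List ℕ × ℕ × ℕ) =>
      baseTest ab.1 ab.2.2.1 ab.2.2.2) :=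
    baseTest_comp Computable.fst (Computable.fst.comp (Computable.snd.comp Computable.snd))
      (Computable.snd.comp (Computable.snd.comp Computable.snd))
  refine (base_dp hMc hT).congr (fun n x => ?_)
  rw [base_gt_iff hM]

theorem isOpen_closeTo (s : List ℕ) : IsOpen {x : ℝ | closeTo s x} := by
  have : {x : ℝ | closeTo s x} = ⋂ i ∈ Set.Iio s.length,
      {x : ℝ | |(rat (s.getD i 0) : ℝ) - x| < (1 / 2 : ℝ) ^ i} := by
    ext x
    simp [closeTo]
  rw [this]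
  refine (Set.finite_Iio _).isOpen_biInter (fun i _ => ?_)
  exact isOpen_lt (by fun_prop) continuous_const

theorem continuous_of_computable {f : ℝ → ℝ} (hf : ComputableFun f) : Continuous f := by
  obtain ⟨M, _, hM⟩ := hf
  have hlt : ∀ n, IsOpen {x : ℝ | f x < (rat n : ℝ)} := by
    intro n
    have : {x : ℝ | f x < (rat n : ℝ)} = ⋃ b : List ℕ × ℕ × ℕ,
        ⋃ _ : M b.1 b.2.1 = some b.2.2 ∧ baseTest b.2.2 b.2.1 n, {x : ℝ | closeTo b.1 x} := by
      ext x
      simp only [mem_ofPred_eq, mem_iUnion, base_lt_iff hM, exists_prop]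
    rw [this]
    exact isOpen_iUnion (fun b => isOpen_iUnion (fun _ => isOpen_closeTo b.1))
  have hgt : ∀ n, IsOpen {x : ℝ | (rat n : ℝ) < f x} := by
    intro n
    have : {x : ℝ | (rat n : ℝ) < f x} = ⋃ b : List ℕ × ℕ × ℕ,
        ⋃ _ : M b.1 b.2.1 = some b.2.2 ∧ baseTest n b.2.1 b.2.2, {x : ℝ | closeTo b.1 x} := by
      ext x
      simp only [mem_ofPred_eq, mem_iUnion, base_gt_iff hM, exists_prop]
    rw [this]
    exact isOpen_iUnion (fun b => isOpen_iUnion (fun _ => isOpen_closeTo b.1))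
  rw [continuous_iff_continuousAt]
  intro x
  rw [ContinuousAt, tendsto_order]
  constructor
  · intro a ha
    obtain ⟨q, hq1, hq2⟩ := exists_rat_btwn ha
    obtain ⟨n, hn⟩ := base_rat_surj q
    rw [← hn] at hq1 hq2
    filter_upwards [(hgt n).mem_nhds hq2] with y hy
    exact hq1.trans hy
  · intro a ha
    obtain ⟨q, hq1, hq2⟩ := exists_rat_btwn ha
    obtain ⟨n, hn⟩ := base_rat_surj q
    rw [← hn] at hq1 hq2
    filter_upwards [(hlt n).mem_nhds hq1] with y hy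
    exact lt_trans hy hq2

end Pool.Agent.Luzin
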