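import Mathlib

/-! # MP_a8cc1b_lc: computable functions reflecting Δ¹₁-randomness have Luzin's property (N).
Shared definitions. DO NOT CHANGE. -/

set_option autoImplicit false

namespace Pool.Agent.Luzin

open MeasureTheory Set

/-- An effective enumeration of the rational numbers. -/
def rat (n : ℕ) : ℚ :=
  ((n.unpair.1 : ℚ) - (n.unpair.2.unpair.1 : ℚ)) / ((n.unpair.2.unpair.2 : ℚ) + 1)

/-- The initial segment of length `n` of an infinite sequence. -/
def pre (g : ℕ → ℕ) (n : ℕ) : List ℕ := (List.range n).map g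

/-- `g` codes a fast converging sequence of rationals with limit `x`. -/
def Names (g : ℕ → ℕ) (x : ℝ) : Prop := ∀ i, |(rat (g i) : ℝ) - x| ≤ (1 / 2 : ℝ) ^ i

/-- `f : ℝ → ℝ` is computable in the sense of computable analysis. `M s n` is the result of running
the oracle machine on input `n` for `s.length` steps with the part `s` of the oracle. -/
def ComputableFun (f : ℝ → ℝ) : Prop :=
  ∃ M : List ℕ → ℕ → Option ℕ, Computable₂ M ∧
    ∀ (x : ℝ) (g : ℕ → ℕ), Names g x → ∀ n,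
      (∃ k r, M (pre g k) n = some r) ∧
        ∀ k r, M (pre g k) n = some r → |(rat r : ℝ) - f x| ≤ (1 / 2 : ℝ) ^ n

/-- (Lightface) `Σ¹₁` sets of reals: projections of effectively closed subsets of `ℝ × ℕ^ℕ`. The
closed set is given by a computable `c`, which assigns to every finite sequence `s` a rational
open interval removed from all fibres over sequences `g` extending `s`. -/
def Sigma11 (A : Set ℝ) : Prop :=
  ∃ c : List ℕ → ℕ × ℕ, Computable c ∧ ∀ x : ℝ, x ∈ A ↔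
    ∃ g : ℕ → ℕ, ∀ n, ¬ ((rat (c (pre g n)).1 : ℝ) < x ∧ x < (rat (c (pre g n)).2 : ℝ))

/-- (Lightface) `Δ¹₁` sets of reals. -/
def Delta11 (A : Set ℝ) : Prop := Sigma11 A ∧ Sigma11 Aᶜ

/-- `Δ¹₁`-random reals. -/
def Random (x : ℝ) : Prop := ∀ A : Set ℝ, Delta11 A → volume A = 0 → x ∉ A

/-- `f` reflects `Δ¹₁`-randomness. -/
def Reflects (f : ℝ → ℝ) : Prop := ∀ x, Random (f x) → Random x

/-- Luzin's property (N). -/
def LuzinN (f : ℝ → ℝ) : Prop := ∀ S : Set ℝ, volume S = 0 → volume (f '' S) = 0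

/-! ### uniform versions, tools of the proof -/

/-- uniformly `Σ¹₁` families of sets -/
def S11 {α : Type} [Primcodable α] (R : α → Set ℝ) : Prop :=
  ∃ c : α → List ℕ → ℕ × ℕ, Computable₂ c ∧ ∀ (a : α) (x : ℝ), x ∈ R a ↔
    ∃ g : ℕ → ℕ, ∀ n, ¬ ((rat (c a (pre g n)).1 : ℝ) < x ∧ x < (rat (c a (pre g n)).2 : ℝ))

/-- uniformly `Δ¹₁` families of sets -/
def D11 {α : Type} [Primcodable α] (R : α → Set ℝ) : Prop := S11 R ∧ S11 (fun a => (R a)ᶜ)

/-- uniformly `Δ¹₁` predicates -/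
def DP {α : Type} [Primcodable α] (P : α → ℝ → Prop) : Prop := D11 (fun a => {x : ℝ | P a x})

/-! ### the test sets. `m` is a fixed natural number, only reals `≥ -m` are considered -/

/-- dyadic rational points -/
noncomputable def qd (m l p : ℕ) : ℝ := -(m : ℝ) + p / 2 ^ l

/-- index of the dyadic interval `[-m + i/2^k, -m + (i+1)/2^k)` containing `x` -/
noncomputable def idx (m k : ℕ) (x : ℝ) : ℕ := ⌊(x + m) * 2 ^ k⌋₊

/-- union of the dyadic intervals of level `k` with indices in the list `u` -/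
def W (m k : ℕ) (u : List ℕ) : Set ℝ := {z | -(m : ℝ) ≤ z ∧ idx m k z ∈ u}

/-- one instance of smallness: up to a set of measure `< (a/2^b) (1/2)^j` covered by dyadic
intervals, `|f z - y| ≥ (1/2)^j` on `W m k u` -/
def Small1 (f : ℝ → ℝ) (m k : ℕ) (u : List ℕ) (a b j : ℕ) (y : ℝ) : Prop :=
  ∃ n, ∃ s : List ℕ, s.length * 2 ^ (b + j) < a * 2 ^ n ∧
    ∀ l p : ℕ, p * 2 ^ k / 2 ^ l ∈ u → p * 2 ^ n / 2 ^ l ∉ s → (1 / 2 : ℝ) ^ j ≤ |f (qd m l p) - y|

/-- the level measure of `W m k u` at `y` is (about) at most `a / 2^b` -/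
def Small (f : ℝ → ℝ) (m k : ℕ) (u : List ℕ) (a b : ℕ) (y : ℝ) : Prop :=
  ∀ J, ∃ j, J ≤ j ∧ Small1 f m k u a b j y

/-- the level measure at `y` has a non-zero continuous part on the dyadic interval `(k, i)` -/
def QQ (f : ℝ → ℝ) (m k i : ℕ) (y : ℝ) : Prop :=
  ∃ e, ∀ n, ∃ h, ∃ u : List ℕ, (∀ i' ∈ u, i' / 2 ^ h = i) ∧
    (∀ i' ∈ u, Small f m (k + h) [i'] 1 n y) ∧ ¬ Small f m (k + h) u 1 e y

/-- the left child of `(k, i)` is chosen -/
def ChL (f : ℝ → ℝ) (m k i : ℕ) (y : ℝ) : Prop :=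
  QQ f m (k + 1) (2 * i) y ∧ (QQ f m (k + 1) (2 * i + 1) y →
    ∃ a b, Small f m (k + 1) [2 * i] a b y ∧ ¬ Small f m (k + 1) [2 * i + 1] a b y)

/-- the main test set: points that are not atoms of the level measure -/
def N1 (f : ℝ → ℝ) (m : ℕ) : Set ℝ :=
  {x | -(m : ℝ) ≤ x ∧ ∀ n, ∃ k, Small f m k [idx m k x] 1 n (f x)}

/-- the second test set: one canonical point of every level set with a continuous part -/
def N2 (f : ℝ → ℝ) (m i₀ : ℕ) : Set ℝ :=
  {x | x ∈ N1 f m ∧ idx m 0 x = i₀ ∧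
    ∀ k, (idx m (k + 1) x = 2 * idx m k x ↔ ChL f m k (idx m k x) (f x))}

/-! ### good levels -/

/-- `L k i` is the level measure at `y` of the dyadic interval `(k, i)` -/
structure GoodAt (f : ℝ → ℝ) (m : ℕ) (y : ℝ) (L : ℕ → ℕ → ℝ) : Prop where
  nonneg : ∀ k i, 0 ≤ L k i
  add : ∀ k i, L k i = L (k + 1) (2 * i) + L (k + 1) (2 * i + 1)
  small : ∀ (k : ℕ) (u : List ℕ) (a b : ℕ),
    (∑ i ∈ u.toFinset, L k i) < (a : ℝ) / 2 ^ b → Small f m k u a b y
  small' : ∀ (k : ℕ) (u : List ℕ) (a b : ℕ),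
    Small f m k u a b y → (∑ i ∈ u.toFinset, L k i) ≤ 2 * ((a : ℝ) / 2 ^ b)
  pos : ∀ k i, 0 < L k i → ∀ ε : ℝ, 0 < ε → ∃ z, -(m : ℝ) ≤ z ∧ idx m k z = i ∧ |f z - y| ≤ ε

/-- image under `f` of Lebesgue measure on `W m k u` -/
noncomputable def mu (f : ℝ → ℝ) (m k : ℕ) (u : List ℕ) : Measure ℝ :=
  (volume.restrict (W m k u)).map f

/-- the level measure -/
noncomputable def LL (f : ℝ → ℝ) (m k i : ℕ) (y : ℝ) : ℝ :=
  (2 * (mu f m k [i]).rnDeriv volume y).toReal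

end Pool.Agent.Luzin
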