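import Mathlib
import Pool.Agent.Luzin.Defs

/-! # MP_a8cc1b_lc, T12: combinatorics of an additive function on the dyadic tree -/

set_option autoImplicit false

namespace Pool.Agent.Luzin

open MeasureTheory Set Filter Topology Metric

/-- real version of `QQ` -/
def QR (L : ℕ → ℕ → ℝ) (k i : ℕ) : Prop :=
  ∃ η : ℝ, 0 < η ∧ ∀ θ : ℝ, 0 < θ → ∃ h, ∃ u : List ℕ, (∀ i' ∈ u, i' / 2 ^ h = i) ∧
    (∀ i' ∈ u, L (k + h) i' ≤ θ) ∧ η ≤ ∑ i' ∈ u.toFinset, L (k + h) i'

/-- for some threshold `θ` all admissible sums are `< ε` -/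
def PathT (L : ℕ → ℕ → ℝ) (k i : ℕ) (ε : ℝ) : Prop :=
  ∃ θ : ℝ, 0 < θ ∧ ∀ h, ∀ u : List ℕ, (∀ i' ∈ u, i' / 2 ^ h = i) →
    (∀ i' ∈ u, L (k + h) i' ≤ θ) → ∑ i' ∈ u.toFinset, L (k + h) i' < ε

theorem path_not_QR {L : ℕ → ℕ → ℝ} {k i : ℕ} :
    ¬ QR L k i ↔ ∀ ε : ℝ, 0 < ε → PathT L k i ε := by
  unfold QR PathT
  constructor
  · intro h ε hε
    by_contra hcon
    apply h
    refine ⟨ε, hε, fun θ hθ => ?_⟩
    by_contra hcon2
    apply hcon
    refine ⟨θ, hθ, fun h' u h1 h2 => ?_⟩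
    by_contra hcon3
    exact hcon2 ⟨h', u, h1, h2, not_lt.1 hcon3⟩
  · rintro h ⟨η, hη, h1⟩
    obtain ⟨θ, hθ, h2⟩ := h η hη
    obtain ⟨h', u, a, b, c⟩ := h1 θ hθ
    exact absurd (h2 h' u a b) (not_lt.2 c)

theorem PathT.mono {L : ℕ → ℕ → ℝ} {k i : ℕ} {ε ε' : ℝ} (h : PathT L k i ε) (hε : ε ≤ ε') :
    PathT L k i ε' := by
  obtain ⟨θ, hθ, h1⟩ := h
  exact ⟨θ, hθ, fun h' u a b => (h1 h' u a b).trans_le hε⟩

theorem path_parent {L : ℕ → ℕ → ℝ} (h0 : ∀ k i, 0 ≤ L k i) {k i : ℕ} {ε₁ ε₂ : ℝ}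
    (hε₁ : 0 < ε₁) (hε₂ : 0 < ε₂) (h1 : PathT L (k + 1) (2 * i) ε₁)
    (h2 : PathT L (k + 1) (2 * i + 1) ε₂) : PathT L k i (ε₁ + ε₂) := by
  obtain ⟨θ₁, hθ₁, h1⟩ := h1
  obtain ⟨θ₂, hθ₂, h2⟩ := h2
  refine ⟨min (min θ₁ θ₂) ε₁, lt_min (lt_min hθ₁ hθ₂) hε₁, ?_⟩
  intro h u hu hL
  rcases Nat.eq_zero_or_pos h with hh | hh
  · subst hh
    have hsub : u.toFinset ⊆ {i} := by
      intro i' hi'
      rw [List.mem_toFinset] at hi'
      have := hu i' hi'
      rw [pow_zero, Nat.div_one] at this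
      rw [this]
      exact Finset.mem_singleton_self _
    have hle : ∑ i' ∈ u.toFinset, L (k + 0) i' ≤ ε₁ := by
      rcases Finset.eq_empty_or_nonempty u.toFinset with he | ⟨i', hi'⟩
      · rw [he, Finset.sum_empty]
        exact hε₁.le
      · have hii : i' = i := Finset.mem_singleton.1 (hsub hi')
        rw [hii] at hi'
        calc ∑ i' ∈ u.toFinset, L (k + 0) i' ≤ ∑ i' ∈ {i}, L (k + 0) i' :=
              Finset.sum_le_sum_of_subset_of_nonneg hsub (fun _ _ _ => h0 _ _)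
          _ = L (k + 0) i := Finset.sum_singleton _ _
          _ ≤ ε₁ := (hL i (List.mem_toFinset.1 hi')).trans (min_le_right _ _)
    linarith
  · obtain ⟨g, rfl⟩ : ∃ g, h = g + 1 := ⟨h - 1, by omega⟩
    have hk : k + (g + 1) = (k + 1) + g := by omega
    rw [hk] at hL ⊢
    have hdiv : ∀ i' ∈ u, i' / 2 ^ g = 2 * i ∨ i' / 2 ^ g = 2 * i + 1 := by
      intro i' hi'
      have := hu i' hi'
      rw [pow_succ, ← Nat.div_div_eq_div_mul] at this
      omega
    have hunion : u.toFinset = (u.filter (fun i' => i' / 2 ^ g = 2 * i)).toFinset ∪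
        (u.filter (fun i' => i' / 2 ^ g = 2 * i + 1)).toFinset := by
      ext i'
      simp only [List.mem_toFinset, Finset.mem_union, List.mem_filter, decide_eq_true_eq]
      constructor
      · intro hi'
        rcases hdiv i' hi' with h | h
        · exact Or.inl ⟨hi', h⟩
        · exact Or.inr ⟨hi', h⟩
      · rintro (h | h)
        · exact h.1
        · exact h.1
    have hs1 := h1 g (u.filter (fun i' => i' / 2 ^ g = 2 * i)) (by
      intro i' hi'
      rw [List.mem_filter, decide_eq_true_eq] at hi'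
      exact hi'.2) (by
      intro i' hi'
      rw [List.mem_filter] at hi'
      exact (hL i' hi'.1).trans ((min_le_left _ _).trans (min_le_left _ _)))
    have hs2 := h2 g (u.filter (fun i' => i' / 2 ^ g = 2 * i + 1)) (by
      intro i' hi'
      rw [List.mem_filter, decide_eq_true_eq] at hi'
      exact hi'.2) (by
      intro i' hi'
      rw [List.mem_filter] at hi'
      exact (hL i' hi'.1).trans ((min_le_left _ _).trans (min_le_right _ _)))
    have hle : ∑ i' ∈ u.toFinset, L (k + 1 + g) i' ≤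
        ∑ i' ∈ (u.filter (fun i' => i' / 2 ^ g = 2 * i)).toFinset, L (k + 1 + g) i' +
        ∑ i' ∈ (u.filter (fun i' => i' / 2 ^ g = 2 * i + 1)).toFinset, L (k + 1 + g) i' := by
      rw [hunion, ← Finset.sum_union_inter]
      have : 0 ≤ ∑ i' ∈ (u.filter (fun i' => i' / 2 ^ g = 2 * i)).toFinset ∩
          (u.filter (fun i' => i' / 2 ^ g = 2 * i + 1)).toFinset, L (k + 1 + g) i' :=
        Finset.sum_nonneg (fun _ _ => h0 _ _)
      linarith
    linarith

theorem QR_child {L : ℕ → ℕ → ℝ} (h0 : ∀ k i, 0 ≤ L k i)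
    (hadd : ∀ k i, L k i = L (k + 1) (2 * i) + L (k + 1) (2 * i + 1)) {k i : ℕ} (h : QR L k i) :
    QR L (k + 1) (2 * i) ∨ QR L (k + 1) (2 * i + 1) := by
  by_contra hcon
  rw [not_or, path_not_QR, path_not_QR] at hcon
  have : ¬ QR L k i := by
    rw [path_not_QR]
    intro ε hε
    have h1 := hcon.1 (ε / 2) (by linarith)
    have h2 := hcon.2 (ε / 2) (by linarith)
    have h3 := path_parent h0 (by linarith) (by linarith) h1 h2
    exact h3.mono (by linarith)
  exact this h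

theorem path_div {i h j : ℕ} : j / 2 ^ h = i ↔ i * 2 ^ h ≤ j ∧ j < (i + 1) * 2 ^ h := by
  have hp : 0 < 2 ^ h := by positivity
  rw [← Nat.le_div_iff_mul_le hp, ← Nat.div_lt_iff_lt_mul hp]
  omega

/-- the mass of a node is the mass of its descendants -/
theorem path_mass {L : ℕ → ℕ → ℝ}
    (hadd : ∀ k i, L k i = L (k + 1) (2 * i) + L (k + 1) (2 * i + 1)) (h : ℕ) :
    ∀ k i, ∑ j ∈ Finset.Ico (i * 2 ^ h) ((i + 1) * 2 ^ h), L (k + h) j = L k i := by
  induction h with
  | zero =>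
    intro k i
    simp
  | succ h ih =>
    intro k i
    have h1 := ih (k + 1) (2 * i)
    have h2 := ih (k + 1) (2 * i + 1)
    rw [hadd k i, ← h1, ← h2]
    have e1 : (2 * i) * 2 ^ h = i * 2 ^ (h + 1) := by ring
    have e2 : (2 * i + 1 + 1) * 2 ^ h = (i + 1) * 2 ^ (h + 1) := by ring
    have e3 : k + 1 + h = k + (h + 1) := by omega
    rw [Finset.sum_Ico_consecutive _ (Nat.mul_le_mul_right _ (by omega))
      (Nat.mul_le_mul_right _ (by omega)), e1, e2, e3]

theorem path_tendsto {L : ℕ → ℕ → ℝ} (h0 : ∀ k i, 0 ≤ L k i)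
    (hadd : ∀ k i, L k i = L (k + 1) (2 * i) + L (k + 1) (2 * i + 1)) (i : ℕ → ℕ)
    (hi : ∀ k, i (k + 1) = 2 * i k ∨ i (k + 1) = 2 * i k + 1) (hQ : ∀ k, QR L k (i k))
    (hrule : ∀ k, QR L (k + 1) (2 * i k) → QR L (k + 1) (2 * i k + 1) →
      L (k + 1) (i (k + 1)) ≤ 2 / 3 * L k (i k)) :
    Tendsto (fun k => L k (i k)) atTop (𝓝 0) := by
  have hdec : ∀ k, L (k + 1) (i (k + 1)) ≤ L k (i k) := by
    intro k
    rw [hadd k (i k)]
    rcases hi k with h | h
    · rw [h]; linarith [h0 (k + 1) (2 * i k + 1)]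
    · rw [h]; linarith [h0 (k + 1) (2 * i k)]
  have hanti : Antitone (fun k => L k (i k)) := antitone_nat_of_succ_le hdec
  have hbdd : BddBelow (Set.range (fun k => L k (i k))) := ⟨0, by
    rintro _ ⟨k, rfl⟩
    exact h0 _ _⟩
  have hlim := tendsto_atTop_ciInf hanti hbdd
  obtain ⟨w, hw⟩ : ∃ w, w = ⨅ k, L k (i k) := ⟨_, rfl⟩
  rw [← hw] at hlim
  have hwle : ∀ k, w ≤ L k (i k) := by
    intro k
    rw [hw]
    exact ciInf_le hbdd k
  have hw0 : 0 ≤ w := by
    rw [hw]
    exact le_ciInf (fun k => h0 _ _)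
  rcases hw0.eq_or_lt with hw0 | hw0
  · rw [hw0]; exact hlim
  exfalso
  -- far out only one child is `QR`
  obtain ⟨K, hK⟩ : ∃ K, ∀ k ≥ K, L k (i k) < 3 / 2 * w :=
    eventually_atTop.1 (hlim.eventually_lt_const (by linarith))
  have hsib : ∀ k ≥ K, ∀ ε δ : ℝ, 0 < ε → 0 < δ → PathT L (k + 1) (i (k + 1)) ε →
      PathT L k (i k) (ε + δ) := by
    intro k hk ε δ hε hδ hT
    have hnot : ¬ (QR L (k + 1) (2 * i k) ∧ QR L (k + 1) (2 * i k + 1)) := by
      rintro ⟨a, b⟩
      have := hrule k a b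
      have := hwle (k + 1)
      have := hK k hk
      linarith
    have hq := hQ (k + 1)
    rcases hi k with h | h
    · rw [h] at hT hq
      have hno : ¬ QR L (k + 1) (2 * i k + 1) := fun hb => hnot ⟨hq, hb⟩
      exact path_parent h0 hε hδ hT (path_not_QR.1 hno δ hδ)
    · rw [h] at hT hq
      have hno : ¬ QR L (k + 1) (2 * i k) := fun ha => hnot ⟨ha, hq⟩
      have := path_parent h0 hδ hε (path_not_QR.1 hno δ hδ) hT
      rwa [add_comm] at this
  have hpath : ∀ d k, K ≤ k → ∀ ε δ : ℝ, 0 < ε → 0 < δ → PathT L (k + d) (i (k + d)) ε →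
      PathT L k (i k) (ε + δ) := by
    intro d
    induction d with
    | zero =>
      intro k _ ε δ _ hδ hT
      exact PathT.mono hT (by linarith)
    | succ d ih =>
      intro k hk ε δ hε hδ hT
      have h1 : PathT L (k + d) (i (k + d)) (ε + δ / 2) :=
        hsib (k + d) (by omega) ε (δ / 2) hε (by linarith) hT
      have h2 := ih k hk (ε + δ / 2) (δ / 2) (by linarith) (by linarith) h1
      exact h2.mono (by linarith)
  -- descendants of the path
  have hdesc : ∀ h k, i (k + h) / 2 ^ h = i k := by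
    intro h
    induction h with
    | zero => intro k; simp
    | succ h ih =>
      intro k
      have h1 := ih (k + 1)
      have h2 : k + (h + 1) = k + 1 + h := by omega
      rw [pow_succ, ← Nat.div_div_eq_div_mul, h2, h1]
      rcases hi k with h | h <;> omega
  have hbase : ∀ k ε, L k (i k) - w < ε → PathT L k (i k) ε := by
    intro k ε hε
    refine ⟨w / 2, by linarith, ?_⟩
    intro h u hu hL
    have hnot : i (k + h) ∉ u.toFinset := by
      intro hmem
      rw [List.mem_toFinset] at hmem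
      have := hL _ hmem
      have := hwle (k + h)
      linarith
    have hsub : insert (i (k + h)) u.toFinset ⊆
        Finset.Ico (i k * 2 ^ h) ((i k + 1) * 2 ^ h) := by
      intro j hj
      rw [Finset.mem_insert] at hj
      rw [Finset.mem_Ico, ← path_div]
      rcases hj with rfl | hj
      · exact hdesc h k
      · exact hu j (List.mem_toFinset.1 hj)
    have h1 : ∑ j ∈ insert (i (k + h)) u.toFinset, L (k + h) j ≤ L k (i k) := by
      rw [← path_mass hadd h k (i k)]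
      exact Finset.sum_le_sum_of_subset_of_nonneg hsub (fun _ _ _ => h0 _ _)
    rw [Finset.sum_insert hnot] at h1
    have := hwle (k + h)
    linarith
  have hnQ : ¬ QR L K (i K) := by
    rw [path_not_QR]
    intro ε hε
    obtain ⟨K', hK'⟩ : ∃ K', ∀ k ≥ K', L k (i k) < w + ε / 2 :=
      eventually_atTop.1 (hlim.eventually_lt_const (by linarith))
    have h1 := hK' (K + K') (by omega)
    have h2 : PathT L (K + K') (i (K + K')) (ε / 2) := hbase _ _ (by linarith)
    have h3 := hpath K' K le_rfl (ε / 2) (ε / 2) (by linarith) (by linarith) h2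
    exact h3.mono (by linarith)
  exact hnQ (hQ K)

theorem QQ_iff {f : ℝ → ℝ} {m : ℕ} {y : ℝ} {L : ℕ → ℕ → ℝ} (hg : GoodAt f m y L) (k i : ℕ) :
    QQ f m k i y ↔ QR L k i := by
  have hsmall : ∀ θ : ℝ, 0 < θ → ∃ n : ℕ, 2 * ((1 : ℝ) / 2 ^ n) < θ := by
    intro θ hθ
    obtain ⟨n, hn⟩ := exists_pow_lt_of_lt_one (show 0 < θ / 2 by linarith)
      (show (1 / 2 : ℝ) < 1 by norm_num)
    refine ⟨n, ?_⟩
    rw [one_div_pow] at hn
    linarith
  constructor
  · rintro ⟨e, he⟩
    refine ⟨1 / 2 ^ e, by positivity, fun θ hθ => ?_⟩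
    obtain ⟨n, hn⟩ := hsmall θ hθ
    obtain ⟨h, u, h1, h2, h3⟩ := he n
    refine ⟨h, u, h1, ?_, ?_⟩
    · intro i' hi'
      have h4 := hg.small' (k + h) [i'] 1 n (h2 i' hi')
      simp only [List.toFinset_cons, List.toFinset_nil, insert_empty_eq, Finset.sum_singleton,
        Nat.cast_one] at h4
      linarith
    · by_contra hcon
      push Not at hcon
      apply h3
      apply hg.small
      simpa using hcon
  · rintro ⟨η, hη, h⟩
    obtain ⟨e, he⟩ := hsmall η hη
    refine ⟨e, fun n => ?_⟩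
    obtain ⟨h', u, h1, h2, h3⟩ := h ((1 : ℝ) / 2 ^ n / 2) (by positivity)
    refine ⟨h', u, h1, ?_, ?_⟩
    · intro i' hi'
      apply hg.small
      simp only [List.toFinset_cons, List.toFinset_nil, insert_empty_eq, Finset.sum_singleton,
        Nat.cast_one]
      have h4 := h2 i' hi'
      have h5 : (0 : ℝ) < 1 / 2 ^ n := by positivity
      linarith
    · intro hs
      have h4 := hg.small' _ _ _ _ hs
      simp only [Nat.cast_one] at h4
      linarith

end Pool.Agent.Luzin
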