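import Pool.Agent.Luzin.Good
import Pool.Agent.Luzin.Path

set_option autoImplicit false

namespace Pool.Agent.Luzin

open MeasureTheory Set Filter Topology Metric

lemma caseA_idx_div (m K : ℕ) (x : ℝ) : idx m K x / 2 ^ K = idx m 0 x := by
  unfold idx
  have h := Nat.floor_div_natCast ((x + m) * 2 ^ K) (2 ^ K)
  rw [← h]
  congr 1
  push_cast
  field_simp

lemma caseA_idx_succ (m K : ℕ) (x : ℝ) : idx m (K + 1) x / 2 = idx m K x := by
  unfold idx
  have h := Nat.floor_div_natCast ((x + m) * 2 ^ (K + 1)) 2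
  rw [← h]
  congr 1
  push_cast
  rw [pow_succ]
  ring

lemma caseA_LL_nonneg (f : ℝ → ℝ) (m k i : ℕ) (y : ℝ) : 0 ≤ LL f m k i y :=
  ENNReal.toReal_nonneg

/-- the level measure of the dyadic interval containing `x` decreases -/
lemma caseA_mono {f : ℝ → ℝ} {m : ℕ} {y : ℝ} (hg : GoodAt f m y (fun k i => LL f m k i y))
    (K : ℕ) (x : ℝ) : LL f m (K + 1) (idx m (K + 1) x) y ≤ LL f m K (idx m K x) y := by
  have h1 := caseA_idx_succ m K x
  have h2 : LL f m K (idx m K x) y = LL f m (K + 1) (2 * idx m K x) y +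
      LL f m (K + 1) (2 * idx m K x + 1) y := hg.add K (idx m K x)
  have h3 := caseA_LL_nonneg f m (K + 1) (2 * idx m K x) y
  have h4 := caseA_LL_nonneg f m (K + 1) (2 * idx m K x + 1) y
  have h5 : idx m (K + 1) x = 2 * idx m K x ∨ idx m (K + 1) x = 2 * idx m K x + 1 := by omega
  rcases h5 with h5 | h5
  · rw [h5]
    linarith
  · rw [h5]
    linarith

/-- the good levels: small intervals carry at most mass `η` -/
def YYa (f : ℝ → ℝ) (m i₀ : ℕ) (η : ℝ) (n : ℕ) : Set ℝ :=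
  {y | ∀ (K : ℕ) (u : Finset ℕ), (∀ i ∈ u, i / 2 ^ K = i₀) →
    (∀ i ∈ u, LL f m K i y ≤ (1 / 2 : ℝ) ^ n) → ∑ i ∈ u, LL f m K i y ≤ η}

lemma measurableSet_YYa (f : ℝ → ℝ) (m i₀ : ℕ) (η : ℝ) (n : ℕ) :
    MeasurableSet (YYa f m i₀ η n) := by
  have e : YYa f m i₀ η n = ⋂ (K : ℕ) (u : Finset ℕ), {y | (∀ i ∈ u, i / 2 ^ K = i₀) →
      (∀ i ∈ u, LL f m K i y ≤ (1 / 2 : ℝ) ^ n) → ∑ i ∈ u, LL f m K i y ≤ η} := by
    ext y
    simp only [YYa, mem_ofPred_eq, mem_iInter]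
  rw [e]
  refine MeasurableSet.iInter fun K => MeasurableSet.iInter fun u => ?_
  by_cases h : ∀ i ∈ u, i / 2 ^ K = i₀
  · have e2 : {y | (∀ i ∈ u, i / 2 ^ K = i₀) →
        (∀ i ∈ u, LL f m K i y ≤ (1 / 2 : ℝ) ^ n) → ∑ i ∈ u, LL f m K i y ≤ η} =
        {y | ∀ i ∈ u, LL f m K i y ≤ (1 / 2 : ℝ) ^ n}ᶜ ∪ {y | ∑ i ∈ u, LL f m K i y ≤ η} := by
      ext y
      simp only [mem_ofPred_eq, mem_union, mem_compl_iff]
      tauto
    rw [e2]
    refine MeasurableSet.union (MeasurableSet.compl ?_) ?_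
    · have e3 : {y | ∀ i ∈ u, LL f m K i y ≤ (1 / 2 : ℝ) ^ n} =
          ⋂ i ∈ u, {y | LL f m K i y ≤ (1 / 2 : ℝ) ^ n} := by
        ext y
        simp only [mem_ofPred_eq, mem_iInter]
      rw [e3]
      exact Finset.measurableSet_biInter u fun i _ =>
        measurableSet_le (measurable_LL f m K i) measurable_const
    · exact measurableSet_le (Finset.measurable_sum u fun i _ => measurable_LL f m K i)
        measurable_const
  · have e2 : {y | (∀ i ∈ u, i / 2 ^ K = i₀) →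
        (∀ i ∈ u, LL f m K i y ≤ (1 / 2 : ℝ) ^ n) → ∑ i ∈ u, LL f m K i y ≤ η} = univ := by
      ext y
      simp only [mem_ofPred_eq, mem_univ, iff_true]
      intro h'
      exact absurd h' h
    rw [e2]
    exact MeasurableSet.univ

lemma exists_YYa {f : ℝ → ℝ} {m : ℕ} {y : ℝ} (hg : GoodAt f m y (fun k i => LL f m k i y))
    {i₀ : ℕ} (hQ : ¬ QQ f m 0 i₀ y) {η : ℝ} (hη : 0 < η) : ∃ n, y ∈ YYa f m i₀ η n := by
  rw [QQ_iff hg] at hQ
  unfold QR at hQ
  push Not at hQ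
  obtain ⟨θ, hθ, h⟩ := hQ η hη
  obtain ⟨n, hn⟩ := exists_pow_lt_of_lt_one hθ (by norm_num : (1 / 2 : ℝ) < 1)
  refine ⟨n, ?_⟩
  intro K u h1 h2
  have h3 := h K u.toList (fun i hi => h1 i (Finset.mem_toList.1 hi)) (fun i hi => by
    rw [zero_add]
    exact (h2 i (Finset.mem_toList.1 hi)).trans hn.le)
  rw [Finset.toList_toFinset, zero_add] at h3
  exact h3.le

/-- the main estimate at a fixed dyadic level -/
lemma caseA_level {f : ℝ → ℝ} (hf : Continuous f) (m i₀ : ℕ) (η : ℝ) (n K : ℕ)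
    {M Z : Set ℝ} (hMm : MeasurableSet M) (hZ : MeasurableSet Z)
    (hM : ∀ (k i : ℕ) (A : Set ℝ), MeasurableSet A →
      mu f m k [i] (A \ M) ≤ ∫⁻ y in A, ENNReal.ofReal (LL f m k i y)) :
    volume {x | x ∈ W m 0 [i₀] ∧ f x ∈ (YYa f m i₀ η n ∩ Z) \ M ∧
      LL f m K (idx m K x) (f x) ≤ (1 / 2 : ℝ) ^ n} ≤ ENNReal.ofReal η * volume Z := by
  classical
  set I : Finset ℕ := Finset.Ico (i₀ * 2 ^ K) ((i₀ + 1) * 2 ^ K) with hI
  have hIm : ∀ i, i ∈ I ↔ i / 2 ^ K = i₀ := by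
    intro i
    rw [hI, Finset.mem_Ico, Nat.div_eq_iff (by positivity)]
    constructor
    · rintro ⟨h1, h2⟩
      refine ⟨h1, ?_⟩
      have h3 : (i₀ + 1) * 2 ^ K = i₀ * 2 ^ K + 2 ^ K := by ring
      have h4 : 0 < 2 ^ K := by positivity
      omega
    · rintro ⟨h1, h2⟩
      refine ⟨h1, ?_⟩
      have h3 : (i₀ + 1) * 2 ^ K = i₀ * 2 ^ K + 2 ^ K := by ring
      have h4 : 0 < 2 ^ K := by positivity
      omega
  set A : ℕ → Set ℝ := fun i => (YYa f m i₀ η n ∩ Z) ∩ {y | LL f m K i y ≤ (1 / 2 : ℝ) ^ n} with hA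
  have hAm : ∀ i, MeasurableSet (A i) := fun i =>
    ((measurableSet_YYa f m i₀ η n).inter hZ).inter
      (measurableSet_le (measurable_LL f m K i) measurable_const)
  have hsub : {x | x ∈ W m 0 [i₀] ∧ f x ∈ (YYa f m i₀ η n ∩ Z) \ M ∧
      LL f m K (idx m K x) (f x) ≤ (1 / 2 : ℝ) ^ n} ⊆
      ⋃ i ∈ I, (f ⁻¹' (A i \ M) ∩ W m K [i]) := by
    rintro x ⟨h1, h2, h3⟩
    rw [mem_iUnion₂]
    have h4 : idx m 0 x = i₀ := List.mem_singleton.1 h1.2
    refine ⟨idx m K x, (hIm _).2 (by rw [caseA_idx_div, h4]), ⟨⟨h2.1, h3⟩, h2.2⟩, h1.1,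
      List.mem_singleton.2 rfl⟩
  calc volume {x | x ∈ W m 0 [i₀] ∧ f x ∈ (YYa f m i₀ η n ∩ Z) \ M ∧
      LL f m K (idx m K x) (f x) ≤ (1 / 2 : ℝ) ^ n}
      ≤ volume (⋃ i ∈ I, (f ⁻¹' (A i \ M) ∩ W m K [i])) := measure_mono hsub
    _ ≤ ∑ i ∈ I, volume (f ⁻¹' (A i \ M) ∩ W m K [i]) := measure_biUnion_finset_le _ _
    _ = ∑ i ∈ I, mu f m K [i] (A i \ M) := by
        refine Finset.sum_congr rfl fun i _ => ?_
        unfold mu
        rw [Measure.map_apply hf.measurable ((hAm i).diff hMm),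
          Measure.restrict_apply (hf.measurable ((hAm i).diff hMm))]
    _ ≤ ∑ i ∈ I, ∫⁻ y in A i, ENNReal.ofReal (LL f m K i y) :=
        Finset.sum_le_sum fun i _ => hM K i (A i) (hAm i)
    _ = ∑ i ∈ I, ∫⁻ y in Z, (A i).indicator (fun y => ENNReal.ofReal (LL f m K i y)) y := by
        refine Finset.sum_congr rfl fun i _ => ?_
        rw [lintegral_indicator (hAm i), Measure.restrict_restrict (hAm i)]
        congr 2
        exact (inter_eq_left.2 fun y hy => hy.1.2).symm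
    _ = ∫⁻ y in Z, ∑ i ∈ I, (A i).indicator (fun y => ENNReal.ofReal (LL f m K i y)) y := by
        rw [lintegral_finsetSum]
        intro i _
        exact ((measurable_LL f m K i).ennreal_ofReal).indicator (hAm i)
    _ ≤ ∫⁻ y in Z, ENNReal.ofReal η := by
        refine lintegral_mono fun y => ?_
        by_cases hy : y ∈ YYa f m i₀ η n
        · set u : Finset ℕ := I.filter (fun i => LL f m K i y ≤ (1 / 2 : ℝ) ^ n) with hu
          have h1 : ∑ i ∈ I, (A i).indicator (fun y => ENNReal.ofReal (LL f m K i y)) y ≤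
              ∑ i ∈ u, ENNReal.ofReal (LL f m K i y) := by
            rw [hu, Finset.sum_filter]
            refine Finset.sum_le_sum fun i _ => ?_
            by_cases h2 : y ∈ A i
            · rw [indicator_of_mem h2, if_pos (show LL f m K i y ≤ (1 / 2 : ℝ) ^ n from h2.2)]
            · rw [indicator_of_notMem h2]
              exact zero_le
          refine h1.trans ?_
          rw [← ENNReal.ofReal_sum_of_nonneg (fun i _ => caseA_LL_nonneg f m K i y)]
          refine ENNReal.ofReal_le_ofReal (hy K u ?_ ?_)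
          · intro i hi
            exact (hIm i).1 (Finset.mem_filter.1 hi).1
          · intro i hi
            exact (Finset.mem_filter.1 hi).2
        · have h1 : ∑ i ∈ I, (A i).indicator (fun y => ENNReal.ofReal (LL f m K i y)) y = 0 := by
            refine Finset.sum_eq_zero fun i _ => ?_
            exact indicator_of_notMem (fun h2 => hy h2.1.1) _
          rw [h1]
          exact zero_le
    _ = ENNReal.ofReal η * volume Z := by
        rw [lintegral_const, Measure.restrict_apply MeasurableSet.univ, univ_inter]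

lemma caseA_part {f : ℝ → ℝ} (hf : Continuous f) (m i₀ : ℕ)
    (h : ∀ᵐ y ∂(volume : Measure ℝ), ∀ i₀, ¬ QQ f m 0 i₀ y) :
    volume (N1 f m ∩ W m 0 [i₀]) = 0 := by
  obtain ⟨M₀, hM₀m, hM₀, hM₀'⟩ := exists_null_all hf m
  -- the exceptional levels
  set G : Set ℝ := {y | GoodAt f m y (fun k i => LL f m k i y) ∧ ∀ i₀, ¬ QQ f m 0 i₀ y} with hG
  have hGae : ∀ᵐ y ∂(volume : Measure ℝ), y ∈ G := by
    filter_upwards [ae_goodAt hf m, h] with y h1 h2
    exact ⟨h1, h2⟩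
  set M : Set ℝ := M₀ ∪ toMeasurable volume Gᶜ with hMdef
  have hMm : MeasurableSet M := hM₀m.union (measurableSet_toMeasurable _ _)
  have hM0 : volume M = 0 := by
    refine measure_union_null hM₀ ?_
    rw [measure_toMeasurable]
    exact hGae
  have hMG : ∀ y, y ∉ M → y ∈ G := by
    intro y hy
    by_contra h1
    exact hy (Or.inr (subset_toMeasurable volume Gᶜ h1))
  have hM : ∀ (k i : ℕ) (A : Set ℝ), MeasurableSet A →
      mu f m k [i] (A \ M) ≤ ∫⁻ y in A, ENNReal.ofReal (LL f m k i y) := by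
    intro k i A hA
    refine (measure_mono ?_).trans (hM₀' k i A hA)
    exact sdiff_subset_sdiff_right subset_union_left
  obtain ⟨R, hR⟩ := W_sub m 0 [i₀]
  set Z : Set ℝ := f '' Icc (-(m : ℝ)) R with hZdef
  have hZc : IsCompact Z := isCompact_Icc.image hf
  have hZm : MeasurableSet Z := hZc.measurableSet
  have hZf : volume Z ≠ ⊤ := hZc.measure_lt_top.ne
  have key : ∀ η : ℝ, 0 < η → volume (N1 f m ∩ W m 0 [i₀]) ≤ ENNReal.ofReal η * volume Z := by
    intro η hη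
    set E : ℕ → ℕ → Set ℝ := fun n K => {x | x ∈ N1 f m ∧ x ∈ W m 0 [i₀] ∧
      f x ∈ (YYa f m i₀ η n ∩ Z) \ M ∧ LL f m K (idx m K x) (f x) ≤ (1 / 2 : ℝ) ^ n} with hE
    have hEle : ∀ n K, volume (E n K) ≤ ENNReal.ofReal η * volume Z := by
      intro n K
      refine (measure_mono ?_).trans (caseA_level hf m i₀ η n K hMm hZm hM)
      rintro x ⟨-, h1, h2, h3⟩
      exact ⟨h1, h2, h3⟩
    have hEmono : ∀ n, Monotone (E n) := by
      intro n
      refine monotone_nat_of_le_succ ?_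
      rintro K x ⟨h1, h2, h3, h4⟩
      exact ⟨h1, h2, h3, (caseA_mono (hMG _ h3.2).1 K x).trans h4⟩
    have hEn : ∀ n, volume (⋃ K, E n K) ≤ ENNReal.ofReal η * volume Z := by
      intro n
      rw [(hEmono n).measure_iUnion]
      exact iSup_le (hEle n)
    have hex : ∀ x ∈ N1 f m, f x ∉ M → ∀ n, ∃ K, LL f m K (idx m K x) (f x) ≤ (1 / 2 : ℝ) ^ n := by
      intro x hx hxM n
      obtain ⟨k, hk⟩ := hx.2 (n + 1)
      refine ⟨k, ?_⟩
      have h1 := (hMG _ hxM).1.small' k [idx m k x] 1 (n + 1) hk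
      rw [List.toFinset_cons, List.toFinset_nil, insert_empty_eq, Finset.sum_singleton] at h1
      refine h1.trans (le_of_eq ?_)
      rw [pow_succ, Nat.cast_one, one_div, one_div, inv_pow]
      field_simp
    have hFmono : Monotone (fun n => ⋃ K, E n K) := by
      refine monotone_nat_of_le_succ ?_
      intro n x hx
      rw [mem_iUnion] at hx ⊢
      obtain ⟨K, h1, h2, h3, h4⟩ := hx
      obtain ⟨K', hK'⟩ := hex x h1 h3.2 (n + 1)
      refine ⟨K', h1, h2, ⟨⟨?_, h3.1.2⟩, h3.2⟩, hK'⟩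
      intro K'' u hu1 hu2
      refine h3.1.1 K'' u hu1 fun i hi => (hu2 i hi).trans ?_
      rw [pow_succ]
      have : (0 : ℝ) < (1 / 2) ^ n := by positivity
      linarith
    have hall : volume (⋃ n, ⋃ K, E n K) ≤ ENNReal.ofReal η * volume Z := by
      rw [hFmono.measure_iUnion]
      exact iSup_le hEn
    have hcov : N1 f m ∩ W m 0 [i₀] ⊆ (N1 f m ∩ f ⁻¹' M) ∪ ⋃ n, ⋃ K, E n K := by
      rintro x ⟨h1, h2⟩
      by_cases hxM : f x ∈ M
      · exact Or.inl ⟨h1, hxM⟩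
      · right
        obtain ⟨n, hn⟩ := exists_YYa (hMG _ hxM).1 ((hMG _ hxM).2 i₀) hη
        obtain ⟨K, hK⟩ := hex x h1 hxM n
        rw [mem_iUnion]
        refine ⟨n, ?_⟩
        rw [mem_iUnion]
        exact ⟨K, h1, h2, ⟨⟨hn, mem_image_of_mem f (hR h2)⟩, hxM⟩, hK⟩
    calc volume (N1 f m ∩ W m 0 [i₀])
        ≤ volume ((N1 f m ∩ f ⁻¹' M) ∪ ⋃ n, ⋃ K, E n K) := measure_mono hcov
      _ ≤ volume (N1 f m ∩ f ⁻¹' M) + volume (⋃ n, ⋃ K, E n K) := measure_union_le _ _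
      _ ≤ 0 + ENNReal.ofReal η * volume Z := by
          refine add_le_add ?_ hall
          rw [N1_null_part hf m hM0]
      _ = ENNReal.ofReal η * volume Z := zero_add _
  have hlim : Tendsto (fun n : ℕ => ENNReal.ofReal (1 / ((n : ℝ) + 1)) * volume Z) atTop
      (𝓝 0) := by
    have h1 : Tendsto (fun n : ℕ => ENNReal.ofReal (1 / ((n : ℝ) + 1))) atTop (𝓝 0) := by
      rw [← ENNReal.ofReal_zero]
      exact ENNReal.tendsto_ofReal tendsto_one_div_add_atTop_nhds_zero_nat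
    have h2 := ENNReal.Tendsto.mul_const h1 (Or.inr hZf)
    rwa [zero_mul] at h2
  refine le_antisymm (ge_of_tendsto' hlim fun n => key _ (by positivity)) zero_le

theorem N1_null {f : ℝ → ℝ} (hf : Continuous f) (m : ℕ) (hmeas : MeasurableSet (N1 f m))
    (h : ∀ᵐ y ∂(volume : Measure ℝ), ∀ i₀, ¬ QQ f m 0 i₀ y) : volume (N1 f m) = 0 := by
  have _ := hmeas
  have e : N1 f m ⊆ ⋃ i₀ : ℕ, (N1 f m ∩ W m 0 [i₀]) := by
    intro x hx
    rw [mem_iUnion]
    exact ⟨idx m 0 x, hx, hx.1, List.mem_singleton.2 rfl⟩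
  refine measure_mono_null e ?_
  rw [measure_iUnion_null_iff]
  exact fun i₀ => caseA_part hf m i₀ h

end Pool.Agent.Luzin
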