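import Mathlib
import Pool.Agent.Luzin.Defs
import Pool.Agent.Luzin.Path

/-! # MP_a8cc1b_lc, T13: selection of a point in every level with a continuous part -/

set_option autoImplicit false

namespace Pool.Agent.Luzin

open MeasureTheory Set Filter Topology Metric

theorem caseB_idx_iff {m k i : ℕ} {x : ℝ} (hx : -(m : ℝ) ≤ x) :
    idx m k x = i ↔ -(m : ℝ) + i / 2 ^ k ≤ x ∧ x < -(m : ℝ) + (i + 1) / 2 ^ k := by
  have hp : (0 : ℝ) < 2 ^ k := by positivity
  have h0 : 0 ≤ (x + m) * 2 ^ k := mul_nonneg (by linarith) hp.le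
  unfold idx
  rw [Nat.floor_eq_iff h0]
  constructor
  · rintro ⟨h1, h2⟩
    rw [← div_le_iff₀ hp] at h1
    rw [← lt_div_iff₀ hp] at h2
    exact ⟨by linarith, by linarith⟩
  · rintro ⟨h1, h2⟩
    rw [← div_le_iff₀ hp, ← lt_div_iff₀ hp]
    exact ⟨by linarith, by linarith⟩

theorem caseB_idx_succ {m k : ℕ} {x : ℝ} (hx : -(m : ℝ) ≤ x) :
    idx m (k + 1) x = 2 * idx m k x ∨ idx m (k + 1) x = 2 * idx m k x + 1 := by
  have hp : (0 : ℝ) < 2 ^ k := by positivity
  have h0 : 0 ≤ (x + m) * 2 ^ k := mul_nonneg (by linarith) hp.le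
  have h0' : 0 ≤ (x + m) * 2 ^ (k + 1) := mul_nonneg (by linarith) (by positivity)
  have e : (x + m) * 2 ^ (k + 1) = 2 * ((x + m) * 2 ^ k) := by ring
  unfold idx
  have h1 := Nat.floor_le h0
  have h2 := Nat.lt_floor_add_one ((x + m) * 2 ^ k)
  have h3 := Nat.floor_le h0'
  have h4 := Nat.lt_floor_add_one ((x + m) * 2 ^ (k + 1))
  generalize ⌊(x + m) * 2 ^ k⌋₊ = a at h1 h2 ⊢
  generalize ⌊(x + m) * 2 ^ (k + 1)⌋₊ = b at h3 h4 ⊢
  rw [e] at h3 h4
  have h5 : (b : ℝ) < 2 * a + 2 := by linarith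
  have h6 : (2 : ℝ) * a < b + 1 := by linarith
  have h5' : b < 2 * a + 2 := by exact_mod_cast h5
  have h6' : 2 * a < b + 1 := by exact_mod_cast h6
  omega

open Classical in
/-- the selected path -/
noncomputable def caseB_path (f : ℝ → ℝ) (m i₀ : ℕ) (y : ℝ) : ℕ → ℕ
  | 0 => i₀
  | k + 1 => if ChL f m k (caseB_path f m i₀ y k) y then 2 * caseB_path f m i₀ y k
      else 2 * caseB_path f m i₀ y k + 1

theorem caseB_exists_dyadic {r ε : ℝ} (hr : 0 ≤ r) (hε : 0 < ε) :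
    ∃ a b : ℕ, r < (a : ℝ) / 2 ^ b ∧ (a : ℝ) / 2 ^ b < r + ε := by
  obtain ⟨b, hb⟩ := exists_pow_lt_of_lt_one hε (show (1 / 2 : ℝ) < 1 by norm_num)
  have hp : (0 : ℝ) < 2 ^ b := by positivity
  refine ⟨⌊r * 2 ^ b⌋₊ + 1, b, ?_, ?_⟩
  · rw [lt_div_iff₀ hp]
    push_cast
    exact Nat.lt_floor_add_one _
  · have h1 := Nat.floor_le (mul_nonneg hr hp.le)
    rw [one_div_pow] at hb
    push_cast
    rw [add_div]
    have h2 : (⌊r * 2 ^ b⌋₊ : ℝ) / 2 ^ b ≤ r := by
      rw [div_le_iff₀ hp]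
      exact h1
    linarith

theorem caseB_small_single {f : ℝ → ℝ} {m : ℕ} {y : ℝ} {L : ℕ → ℕ → ℝ} (hg : GoodAt f m y L)
    {k i a b : ℕ} (h : L k i < (a : ℝ) / 2 ^ b) : Small f m k [i] a b y := by
  apply hg.small
  simpa using h

theorem caseB_small_single' {f : ℝ → ℝ} {m : ℕ} {y : ℝ} {L : ℕ → ℕ → ℝ} (hg : GoodAt f m y L)
    {k i a b : ℕ} (h : Small f m k [i] a b y) : L k i ≤ 2 * ((a : ℝ) / 2 ^ b) := by
  have := hg.small' _ _ _ _ h
  simpa using this

theorem caseB_QR_pos {L : ℕ → ℕ → ℝ} (h0 : ∀ k i, 0 ≤ L k i)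
    (hadd : ∀ k i, L k i = L (k + 1) (2 * i) + L (k + 1) (2 * i + 1)) {k i : ℕ}
    (h : QR L k i) : 0 < L k i := by
  obtain ⟨η, hη, h1⟩ := h
  obtain ⟨h, u, hu, -, hs⟩ := h1 1 one_pos
  have hsub : u.toFinset ⊆ Finset.Ico (i * 2 ^ h) ((i + 1) * 2 ^ h) := by
    intro j hj
    rw [Finset.mem_Ico, ← path_div]
    exact hu j (List.mem_toFinset.1 hj)
  have h2 : ∑ j ∈ u.toFinset, L (k + h) j ≤ L k i := by
    rw [← path_mass hadd h k i]
    exact Finset.sum_le_sum_of_subset_of_nonneg hsub (fun _ _ _ => h0 _ _)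
  linarith

theorem exists_mem_N2 {f : ℝ → ℝ} (hf : Continuous f) {m : ℕ} {y : ℝ} {L : ℕ → ℕ → ℝ}
    (hg : GoodAt f m y L) {i₀ : ℕ} (hQ : QQ f m 0 i₀ y) (hy : ∀ l p, f (qd m l p) ≠ y) :
    ∃ x ∈ N2 f m i₀, f x = y := by
  classical
  obtain ⟨i, hidef⟩ : ∃ i, i = caseB_path f m i₀ y := ⟨_, rfl⟩
  have hi0 : i 0 = i₀ := by rw [hidef]; rfl
  have his : ∀ k, i (k + 1) = if ChL f m k (i k) y then 2 * i k else 2 * i k + 1 := by
    intro k
    rw [hidef]
    rfl
  have hi : ∀ k, i (k + 1) = 2 * i k ∨ i (k + 1) = 2 * i k + 1 := by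
    intro k
    rw [his k]
    split_ifs
    · exact Or.inl rfl
    · exact Or.inr rfl
  have hchild : ∀ k j, QQ f m k j y → QQ f m (k + 1) (2 * j) y ∨ QQ f m (k + 1) (2 * j + 1) y := by
    intro k j h
    rw [QQ_iff hg] at h
    rw [QQ_iff hg, QQ_iff hg]
    exact QR_child hg.nonneg hg.add h
  have hQQ : ∀ k, QQ f m k (i k) y := by
    intro k
    induction k with
    | zero => rw [hi0]; exact hQ
    | succ k ih =>
      rw [his k]
      split_ifs with hc
      · exact hc.1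
      · rcases hchild k _ ih with h | h
        · by_contra hno
          exact hc ⟨h, fun h' => absurd h' hno⟩
        · exact h
  have hQR : ∀ k, QR L k (i k) := fun k => (QQ_iff hg k (i k)).1 (hQQ k)
  have hrule : ∀ k, QR L (k + 1) (2 * i k) → QR L (k + 1) (2 * i k + 1) →
      L (k + 1) (i (k + 1)) ≤ 2 / 3 * L k (i k) := by
    intro k h1 h2
    rw [← QQ_iff hg] at h1 h2
    rw [his k, hg.add k (i k)]
    split_ifs with hc
    · obtain ⟨a, b, hs, hns⟩ := hc.2 h2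
      have h3 := caseB_small_single' hg hs
      have h4 : (a : ℝ) / 2 ^ b ≤ L (k + 1) (2 * i k + 1) := by
        by_contra hcon
        exact hns (caseB_small_single hg (not_le.1 hcon))
      linarith
    · have hall : ∀ a b, Small f m (k + 1) [2 * i k] a b y →
          Small f m (k + 1) [2 * i k + 1] a b y := by
        intro a b hs
        by_contra hns
        exact hc ⟨h1, fun _ => ⟨a, b, hs, hns⟩⟩
      have h3 : L (k + 1) (2 * i k + 1) ≤ 2 * L (k + 1) (2 * i k) := by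
        apply le_of_forall_pos_le_add
        intro ε hε
        obtain ⟨a, b, hab1, hab2⟩ := caseB_exists_dyadic (hg.nonneg (k + 1) (2 * i k))
          (show 0 < ε / 2 by linarith)
        have h4 := caseB_small_single' hg (hall a b (caseB_small_single hg hab1))
        linarith
      linarith
  have htend := path_tendsto hg.nonneg hg.add i hi hQR hrule
  have hpos : ∀ k, 0 < L k (i k) := fun k => caseB_QR_pos hg.nonneg hg.add (hQR k)
  -- the limit point
  obtain ⟨lo, hlo⟩ : ∃ lo : ℕ → ℝ, ∀ k, lo k = -(m : ℝ) + i k / 2 ^ k := ⟨_, fun _ => rfl⟩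
  obtain ⟨hi', hhi⟩ : ∃ hi' : ℕ → ℝ, ∀ k, hi' k = -(m : ℝ) + (i k + 1) / 2 ^ k :=
    ⟨_, fun _ => rfl⟩
  have hcast : ∀ k, 2 * (i k : ℝ) ≤ i (k + 1) ∧ (i (k + 1) : ℝ) ≤ 2 * i k + 1 := by
    intro k
    rcases hi k with h | h <;> rw [h] <;> push_cast <;> constructor <;> linarith
  have hmono : Monotone lo := by
    apply monotone_nat_of_le_succ
    intro k
    rw [hlo, hlo]
    have hp : (0 : ℝ) < 2 ^ (k + 1) := by positivity
    have h1 : (i k : ℝ) / 2 ^ k = (2 * i k) / 2 ^ (k + 1) := by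
      rw [pow_succ]
      field_simp
    rw [h1]
    have := (hcast k).1
    gcongr
  have hanti : Antitone hi' := by
    apply antitone_nat_of_succ_le
    intro k
    rw [hhi, hhi]
    have h1 : ((i k : ℝ) + 1) / 2 ^ k = (2 * i k + 2) / 2 ^ (k + 1) := by
      rw [pow_succ]
      field_simp
    rw [h1]
    have := (hcast k).2
    have h3 : (i (k + 1) : ℝ) + 1 ≤ 2 * i k + 2 := by linarith
    gcongr
  have hlohi : ∀ k l, lo k ≤ hi' l := by
    intro k l
    calc lo k ≤ lo (max k l) := hmono (le_max_left _ _)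
      _ ≤ hi' (max k l) := by
          rw [hlo, hhi]
          have : (i (max k l) : ℝ) / 2 ^ (max k l) ≤ (i (max k l) + 1) / 2 ^ (max k l) := by
            gcongr
            linarith
          linarith
      _ ≤ hi' l := hanti (le_max_right _ _)
  have hbdd : BddAbove (Set.range lo) := ⟨hi' 0, by
    rintro _ ⟨k, rfl⟩
    exact hlohi k 0⟩
  obtain ⟨x, hx⟩ : ∃ x, x = ⨆ k, lo k := ⟨_, rfl⟩
  have hx1 : ∀ k, lo k ≤ x := by
    intro k
    rw [hx]
    exact le_ciSup hbdd k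
  have hx2 : ∀ k, x ≤ hi' k := by
    intro k
    rw [hx]
    exact ciSup_le (fun l => hlohi l k)
  have hxm : -(m : ℝ) ≤ x := by
    have h1 := hx1 0
    rw [hlo] at h1
    have : (0 : ℝ) ≤ (i 0 : ℝ) / 2 ^ 0 := by positivity
    linarith
  -- `f x = y`
  have hz : ∀ k, ∃ z, |z - x| ≤ (1 / 2 : ℝ) ^ k ∧ |f z - y| ≤ (1 / 2 : ℝ) ^ k := by
    intro k
    obtain ⟨z, hz1, hz2, hz3⟩ := hg.pos k (i k) (hpos k) ((1 / 2 : ℝ) ^ k) (by positivity)
    refine ⟨z, ?_, hz3⟩
    rw [caseB_idx_iff hz1] at hz2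
    have h1 := hx1 k
    have h2 := hx2 k
    rw [hlo] at h1
    rw [hhi] at h2
    rw [one_div_pow, abs_le]
    have h3 : ((i k : ℝ) + 1) / 2 ^ k = (i k : ℝ) / 2 ^ k + 1 / 2 ^ k := by ring
    rw [h3] at h2 hz2
    constructor
    · linarith [hz2.1]
    · linarith [hz2.2]
  choose z hz1 hz2 using hz
  have hpow : Tendsto (fun k : ℕ => (1 / 2 : ℝ) ^ k) atTop (𝓝 0) :=
    tendsto_pow_atTop_nhds_zero_of_lt_one (by norm_num) (by norm_num)
  have hzx : Tendsto z atTop (𝓝 x) := by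
    rw [tendsto_iff_dist_tendsto_zero]
    exact squeeze_zero (fun _ => dist_nonneg) (fun k => by rw [Real.dist_eq]; exact hz1 k) hpow
  have hfz : Tendsto (fun k => f (z k)) atTop (𝓝 y) := by
    rw [tendsto_iff_dist_tendsto_zero]
    exact squeeze_zero (fun _ => dist_nonneg) (fun k => by rw [Real.dist_eq]; exact hz2 k) hpow
  have hfx : f x = y := tendsto_nhds_unique ((hf.tendsto x).comp hzx) hfz
  -- indices of `x`
  have hidx : ∀ k, idx m k x = i k := by
    intro k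
    rw [caseB_idx_iff hxm]
    have h1 := hx1 k
    have h2 := hx2 k
    rw [hlo] at h1
    rw [hhi] at h2
    refine ⟨h1, lt_of_le_of_ne h2 ?_⟩
    intro heq
    apply hy k (i k + 1)
    have : qd m k (i k + 1) = x := by
      unfold qd
      rw [heq]
      push_cast
      rfl
    rw [this, hfx]
  refine ⟨x, ⟨⟨hxm, fun n => ?_⟩, ?_, fun k => ?_⟩, hfx⟩
  · obtain ⟨k, hk⟩ := (htend.eventually_lt_const (show (0 : ℝ) < 1 / 2 ^ n by positivity)).exists
    refine ⟨k, ?_⟩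
    rw [hidx, hfx]
    apply caseB_small_single hg
    simpa using hk
  · rw [hidx, hi0]
  · rw [hidx, hidx, hfx, his k]
    constructor
    · intro h
      by_contra hc
      rw [if_neg hc] at h
      omega
    · intro hc
      rw [if_pos hc]

theorem injOn_N2 (f : ℝ → ℝ) (m i₀ : ℕ) : InjOn f (N2 f m i₀) := by
  intro x hx x' hx' hff
  obtain ⟨⟨hxm, -⟩, hx0, hxs⟩ := hx
  obtain ⟨⟨hxm', -⟩, hx0', hxs'⟩ := hx'
  have hidx : ∀ k, idx m k x = idx m k x' := by
    intro k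
    induction k with
    | zero => rw [hx0, hx0']
    | succ k ih =>
      have h1 := hxs k
      have h2 := hxs' k
      rw [ih, hff] at h1
      have h3 := caseB_idx_succ (m := m) (k := k) hxm
      have h4 := caseB_idx_succ (m := m) (k := k) hxm'
      rw [ih] at h3
      by_cases hc : ChL f m k (idx m k x') (f x')
      · rw [h1.2 hc, h2.2 hc]
      · have h5 := mt h1.1 hc
        have h6 := mt h2.1 hc
        rw [h3.resolve_left h5, h4.resolve_left h6]
  have hclose : ∀ k : ℕ, |x - x'| ≤ (1 / 2 : ℝ) ^ k := by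
    intro k
    have h1 := (caseB_idx_iff hxm).1 (hidx k)
    have h2 := (caseB_idx_iff hxm').1 (rfl : idx m k x' = idx m k x')
    have h3 : ((idx m k x' : ℝ) + 1) / 2 ^ k = (idx m k x' : ℝ) / 2 ^ k + 1 / 2 ^ k := by ring
    rw [h3] at h1 h2
    rw [one_div_pow, abs_le]
    constructor
    · linarith [h1.1, h2.2]
    · linarith [h1.2, h2.1]
  have hpow : Tendsto (fun k : ℕ => (1 / 2 : ℝ) ^ k) atTop (𝓝 0) :=
    tendsto_pow_atTop_nhds_zero_of_lt_one (by norm_num) (by norm_num)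
  have h0 : |x - x'| ≤ 0 := ge_of_tendsto' hpow hclose
  have := abs_nonpos_iff.1 h0
  linarith

end Pool.Agent.Luzin
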