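import Pool.Agent.Luzin.Defs

/-! # MP_a8cc1b_lc, T7: differentiation of finite measures on `ℝ` along the radii `2⁻ʲ`. -/

set_option autoImplicit false

namespace Pool.Agent.Luzin

open MeasureTheory Set Filter Topology Metric

theorem vol_ball (y : ℝ) (j : ℕ) :
    volume (closedBall y ((1 / 2 : ℝ) ^ j)) = 2 * ENNReal.ofReal ((1 / 2 : ℝ) ^ j) := by
  rw [Real.volume_closedBall, ENNReal.ofReal_mul (by norm_num)]
  norm_num

theorem ofReal_half_pos (j : ℕ) : ENNReal.ofReal ((1 / 2 : ℝ) ^ j) ≠ 0 := by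
  rw [Ne, ENNReal.ofReal_eq_zero, not_le]
  positivity

theorem vol_ball_ne_zero (y : ℝ) (j : ℕ) : volume (closedBall y ((1 / 2 : ℝ) ^ j)) ≠ 0 := by
  rw [vol_ball]
  exact mul_ne_zero (by norm_num) (ofReal_half_pos j)

theorem vol_ball_ne_top (y : ℝ) (j : ℕ) : volume (closedBall y ((1 / 2 : ℝ) ^ j)) ≠ ⊤ := by
  rw [vol_ball]
  exact ENNReal.mul_ne_top (by norm_num) ENNReal.ofReal_ne_top

theorem div_ball (ρ : Measure ℝ) (y : ℝ) (j : ℕ) :
    ρ (closedBall y ((1 / 2 : ℝ) ^ j)) / ENNReal.ofReal ((1 / 2) ^ j) =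
      2 * (ρ (closedBall y ((1 / 2 : ℝ) ^ j)) / volume (closedBall y ((1 / 2 : ℝ) ^ j))) := by
  rw [vol_ball, ENNReal.div_eq_inv_mul, ENNReal.div_eq_inv_mul,
    ENNReal.mul_inv (Or.inl (by norm_num)) (Or.inl (by norm_num)), ← mul_assoc, ← mul_assoc,
    ENNReal.mul_inv_cancel (by norm_num) (by norm_num), one_mul]

theorem tendsto_half : Tendsto (fun j : ℕ => (1 / 2 : ℝ) ^ j) atTop (𝓝[>] 0) := by
  refine tendsto_nhdsWithin_iff.2 ⟨?_, Eventually.of_forall fun j => ?_⟩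
  · exact tendsto_pow_atTop_nhds_zero_of_lt_one (by norm_num) (by norm_num)
  · show (0 : ℝ) < (1 / 2) ^ j
    positivity

theorem tendsto_rnDeriv (ρ : Measure ℝ) [IsFiniteMeasure ρ] :
    ∀ᵐ y ∂(volume : Measure ℝ), Tendsto
      (fun j : ℕ => ρ (closedBall y ((1 / 2 : ℝ) ^ j)) / ENNReal.ofReal ((1 / 2) ^ j)) atTop
      (𝓝 (2 * ρ.rnDeriv volume y)) := by
  filter_upwards [Besicovitch.ae_tendsto_rnDeriv ρ volume] with y hy
  have h1 := hy.comp tendsto_half
  have h2 := ENNReal.Tendsto.const_mul (a := 2) h1 (Or.inr (by norm_num))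
  refine h2.congr fun j => ?_
  rw [div_ball]
  rfl

theorem tendsto_top (ρ : Measure ℝ) [IsFiniteMeasure ρ] {M : Set ℝ} (hM : volume M = 0) :
    ∀ᵐ y ∂(ρ.restrict M), Tendsto
      (fun j : ℕ => ρ (closedBall y ((1 / 2 : ℝ) ^ j)) / ENNReal.ofReal ((1 / 2) ^ j)) atTop
      (𝓝 ⊤) := by
  set M' := toMeasurable volume M with hM'
  have hsub : M ⊆ M' := subset_toMeasurable _ _
  have hmeas : MeasurableSet M' := measurableSet_toMeasurable _ _
  have h0 : volume M' = 0 := by rw [hM', measure_toMeasurable, hM]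
  refine ae_mono (Measure.restrict_mono hsub le_rfl) ?_
  have hz : ∀ᵐ y ∂(ρ.restrict M'), (volume : Measure ℝ).rnDeriv ρ y = 0 := by
    have h1 : ∫⁻ y in M', (volume : Measure ℝ).rnDeriv ρ y ∂ρ = 0 := by
      refine le_antisymm ?_ zero_le
      rw [← h0]
      exact Measure.setLIntegral_rnDeriv_le M'
    exact (lintegral_eq_zero_iff (Measure.measurable_rnDeriv _ _)).1 h1
  have hb : ∀ᵐ y ∂(ρ.restrict M'), Tendsto
      (fun r => (volume : Measure ℝ) (closedBall y r) / ρ (closedBall y r)) (𝓝[>] 0)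
      (𝓝 ((volume : Measure ℝ).rnDeriv ρ y)) :=
    ae_restrict_of_ae (Besicovitch.ae_tendsto_rnDeriv volume ρ)
  filter_upwards [hz, hb] with y hy0 hy
  rw [hy0] at hy
  have h1 := (hy.comp tendsto_half).inv
  rw [ENNReal.inv_zero] at h1
  have h2 := ENNReal.Tendsto.const_mul (a := 2) h1 (Or.inr (by norm_num))
  rw [ENNReal.mul_top (by norm_num)] at h2
  refine h2.congr fun j => ?_
  rw [div_ball]
  congr 1
  simp only [Function.comp]
  rw [ENNReal.inv_div (Or.inr (vol_ball_ne_top y j)) (Or.inr (vol_ball_ne_zero y j))]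

/-- a null set carrying the singular part -/
theorem exists_null (ρ : Measure ℝ) [IsFiniteMeasure ρ] :
    ∃ M : Set ℝ, MeasurableSet M ∧ volume M = 0 ∧ ∀ A : Set ℝ, MeasurableSet A →
      ρ (A \ M) ≤ ∫⁻ y in A, ρ.rnDeriv volume y := by
  obtain ⟨S, hS, hs, hv⟩ := Measure.mutuallySingular_singularPart ρ (volume : Measure ℝ)
  refine ⟨Sᶜ, hS.compl, hv, fun A hA => ?_⟩
  have h1 : A \ Sᶜ = A ∩ S := by rw [sdiff_compl]
  rw [h1]
  conv_lhs => rw [← Measure.singularPart_add_rnDeriv ρ (volume : Measure ℝ)]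
  rw [Measure.add_apply]
  have h2 : ρ.singularPart volume (A ∩ S) = 0 := measure_mono_null inter_subset_right hs
  rw [h2, zero_add, withDensity_apply _ (hA.inter hS)]
  exact lintegral_mono_set inter_subset_left

end Pool.Agent.Luzin
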