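import Pool.Agent.Luzin.Small
import Pool.Agent.Luzin.Diff

/-! # MP_a8cc1b_lc, T9: if the image of `N1` is null then null sets have null images. -/

set_option autoImplicit false

namespace Pool.Agent.Luzin

open MeasureTheory Set Filter Topology Metric

/-- points of the same dyadic interval are close -/
theorem abs_sub_lt_of_idx {m k : ℕ} {z w : ℝ} (hz : -(m : ℝ) ≤ z) (hw : -(m : ℝ) ≤ w)
    (h : idx m k w = idx m k z) : |w - z| < (1 / 2 : ℝ) ^ k := by
  unfold idx at h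
  have hp : (0 : ℝ) < 2 ^ k := by positivity
  have hz0 : 0 ≤ (z + m) * 2 ^ k := mul_nonneg (by linarith) hp.le
  have hw0 : 0 ≤ (w + m) * 2 ^ k := mul_nonneg (by linarith) hp.le
  have h1 := Nat.floor_le hz0
  have h2 := Nat.lt_floor_add_one ((z + m) * 2 ^ k)
  have h3 := Nat.floor_le hw0
  have h4 := Nat.lt_floor_add_one ((w + m) * 2 ^ k)
  rw [h] at h3 h4
  have h5 : |w - z| * 2 ^ k < 1 := by
    rw [← abs_of_pos hp, ← abs_mul, abs_lt]
    constructor <;> nlinarith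
  rw [one_div_pow, lt_div_iff₀ hp]
  exact h5

/-- a small dyadic interval around a point of an open set is contained in it -/
theorem exists_W_sub (m : ℕ) {z : ℝ} (hz : -(m : ℝ) ≤ z) {G : Set ℝ} (hG : IsOpen G)
    (hzG : z ∈ G) : ∃ k, W m k [idx m k z] ⊆ G := by
  obtain ⟨ε, hε, hball⟩ := Metric.isOpen_iff.1 hG z hzG
  obtain ⟨k, hk⟩ := exists_pow_lt_of_lt_one hε (by norm_num : (1 / 2 : ℝ) < 1)
  refine ⟨k, fun w hw => hball ?_⟩
  obtain ⟨hw1, hw2⟩ := hw
  rw [List.mem_singleton] at hw2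
  rw [mem_ball, Real.dist_eq]
  exact (abs_sub_lt_of_idx hz hw1 hw2).trans hk

/-- points all of whose levels are charged at `z` -/
def YY (f : ℝ → ℝ) (m : ℕ) (Z : Set ℝ) (n : ℕ) : Set ℝ :=
  {y | ∃ z ∈ Z, f z = y ∧ ∀ k, ¬ Small f m k [idx m k z] 1 n y}

theorem rnDeriv_ge {f : ℝ → ℝ} (hf : Continuous f) (m : ℕ) {Z : Set ℝ}
    (hZm : ∀ z ∈ Z, -(m : ℝ) ≤ z) (n : ℕ) {G : Set ℝ} (hG : IsOpen G) (hZG : Z ⊆ G)
    {y : ℝ} (hy : y ∈ YY f m Z n)
    (ht : Tendsto
      (fun j : ℕ => ((volume.restrict G).map f) (closedBall y ((1 / 2 : ℝ) ^ j)) /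
        ENNReal.ofReal ((1 / 2) ^ j)) atTop
      (𝓝 (2 * ((volume.restrict G).map f).rnDeriv volume y))) :
    ENNReal.ofReal ((1 / 2 : ℝ) ^ n) ≤ 2 * ((volume.restrict G).map f).rnDeriv volume y := by
  obtain ⟨z, hz, hfz, hns⟩ := hy
  obtain ⟨k, hk⟩ := exists_W_sub m (hZm z hz) hG (hZG hz)
  have h1 := hns k
  unfold Small at h1
  push Not at h1
  obtain ⟨J, hJ⟩ := h1
  refine ge_of_tendsto ht ?_
  filter_upwards [eventually_ge_atTop J] with j hj
  have h2 : ENNReal.ofReal (((1 : ℕ) : ℝ) / 2 ^ n * (1 / 2) ^ j) ≤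
      mu f m k [idx m k z] (closedBall y ((1 / 2 : ℝ) ^ j)) := by
    by_contra hc
    exact hJ j hj (small1_of_mu hf m k _ 1 n j y (not_le.1 hc))
  have h3 : mu f m k [idx m k z] (closedBall y ((1 / 2 : ℝ) ^ j)) ≤
      ((volume.restrict G).map f) (closedBall y ((1 / 2 : ℝ) ^ j)) :=
    Measure.map_mono (Measure.restrict_mono hk le_rfl) hf.measurable _
  have h4 := h2.trans h3
  rw [ENNReal.le_div_iff_mul_le (Or.inl (ofReal_half_pos j)) (Or.inl ENNReal.ofReal_ne_top),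
    ← ENNReal.ofReal_mul (by positivity)]
  refine le_trans (le_of_eq ?_) h4
  congr 1
  rw [Nat.cast_one, one_div_pow (2 : ℝ) n]

theorem volume_YY {f : ℝ → ℝ} (hf : Continuous f) (m : ℕ) {Z : Set ℝ} (hZ : volume Z = 0)
    (hZm : ∀ z ∈ Z, -(m : ℝ) ≤ z) (n : ℕ) : volume (YY f m Z n) = 0 := by
  set c := ENNReal.ofReal ((1 / 2 : ℝ) ^ n) with hc
  have hc0 : c ≠ 0 := ofReal_half_pos n
  have hct : c ≠ ⊤ := ENNReal.ofReal_ne_top
  have key : ∀ ε : ENNReal, 0 < ε → ε ≠ ⊤ → c * volume (YY f m Z n) ≤ 2 * ε := by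
    intro ε hε hεt
    obtain ⟨G, hZG, hG, hGε⟩ := Set.exists_isOpen_lt_of_lt Z ε (by rw [hZ]; exact hε)
    have hfin : IsFiniteMeasure (volume.restrict G) := by
      constructor
      rw [Measure.restrict_apply_univ]
      exact hGε.trans_le le_top
    set ρ := (volume.restrict G).map f with hρ
    have hρu : ρ univ ≤ ε := by
      rw [hρ, Measure.map_apply hf.measurable MeasurableSet.univ, preimage_univ,
        Measure.restrict_apply_univ]
      exact hGε.le
    have hfin2 : IsFiniteMeasure ρ := by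
      constructor
      exact lt_of_le_of_lt hρu (lt_top_iff_ne_top.2 hεt)
    have hsub : ∀ᵐ y ∂(volume : Measure ℝ), y ∈ YY f m Z n → c ≤ 2 * ρ.rnDeriv volume y := by
      filter_upwards [tendsto_rnDeriv ρ] with y hy hyY
      exact rnDeriv_ge hf m hZm n hG hZG hyY hy
    have h1 : volume (YY f m Z n) ≤ volume {y | c ≤ 2 * ρ.rnDeriv volume y} := by
      refine measure_mono_ae ?_
      filter_upwards [hsub] with y hy hyY
      exact hy hyY
    have hmeas : Measurable (fun y => 2 * ρ.rnDeriv volume y) :=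
      (Measure.measurable_rnDeriv _ _).const_mul _
    calc c * volume (YY f m Z n) ≤ c * volume {y | c ≤ 2 * ρ.rnDeriv volume y} := by gcongr
      _ ≤ ∫⁻ y, 2 * ρ.rnDeriv volume y := mul_meas_ge_le_lintegral hmeas c
      _ = 2 * ∫⁻ y, ρ.rnDeriv volume y := lintegral_const_mul _ (Measure.measurable_rnDeriv _ _)
      _ ≤ 2 * ρ univ := by
        gcongr
        exact Measure.lintegral_rnDeriv_le
      _ ≤ 2 * ε := by gcongr
  have h0 : c * volume (YY f m Z n) = 0 := by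
    refine le_antisymm ?_ zero_le
    refine ENNReal.le_of_forall_pos_le_add ?_
    intro ε hε _
    have h2 := key (ε / 2 : NNReal) (by
      rw [ENNReal.coe_pos]; positivity) ENNReal.coe_ne_top
    rw [zero_add]
    refine h2.trans (le_of_eq ?_)
    rw [show (2 : ENNReal) = ((2 : NNReal) : ENNReal) by norm_num, ← ENNReal.coe_mul]
    congr 1
    field_simp
  rcases mul_eq_zero.1 h0 with h | h
  · exact (hc0 h).elim
  · exact h

theorem claim1 {f : ℝ → ℝ} (hf : Continuous f) (m : ℕ) (h : volume (f '' N1 f m) = 0)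
    {Z : Set ℝ} (hZ : volume Z = 0) (hZm : ∀ z ∈ Z, -(m : ℝ) ≤ z) : volume (f '' Z) = 0 := by
  have hsub : f '' Z ⊆ f '' N1 f m ∪ ⋃ n, YY f m Z n := by
    rintro y ⟨z, hz, rfl⟩
    by_cases hN : z ∈ N1 f m
    · exact Or.inl ⟨z, hN, rfl⟩
    · right
      unfold N1 at hN
      rw [Set.mem_ofPred_eq] at hN
      push Not at hN
      obtain ⟨n, hn⟩ := hN (hZm z hz)
      exact mem_iUnion.2 ⟨n, z, hz, rfl, hn⟩
  refine measure_mono_null hsub (measure_union_null h ?_)
  exact measure_iUnion_null fun n => volume_YY hf m hZ hZm n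

end Pool.Agent.Luzin
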