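import Pool.Agent.Luzin.Base

/-! # MP_a8cc1b_lc, T4: `(1/2)^j ≤ |f q - f x|` and `idx = i` are uniformly `Δ¹₁`. -/

set_option autoImplicit false

namespace Pool.Agent.Luzin

open MeasureTheory Set Filter Topology Metric

namespace CloseAux

theorem primrec_pow2 : Primrec (fun n : ℕ => 2 ^ n) :=
  (Primrec₂.unpaired'.1 Nat.Primrec.pow).comp (Primrec.const 2) Primrec.id

/-- `rat u + 2⁻ⁿ < rat v`, decided by natural numbers -/
def ltb (n u v : ℕ) : Bool :=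
  decide (u.unpair.1 * (v.unpair.2.unpair.2 + 1) * 2 ^ n +
      (u.unpair.2.unpair.2 + 1) * (v.unpair.2.unpair.2 + 1) +
      v.unpair.2.unpair.1 * (u.unpair.2.unpair.2 + 1) * 2 ^ n <
    v.unpair.1 * (u.unpair.2.unpair.2 + 1) * 2 ^ n +
      u.unpair.2.unpair.1 * (v.unpair.2.unpair.2 + 1) * 2 ^ n)

theorem ltb_iff (n u v : ℕ) :
    ltb n u v = true ↔ (rat u : ℝ) + (1 / 2 : ℝ) ^ n < (rat v : ℝ) := by
  unfold ltb rat
  rw [decide_eq_true_iff]
  generalize u.unpair.1 = A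
  generalize u.unpair.2.unpair.1 = B
  generalize u.unpair.2.unpair.2 = C
  generalize v.unpair.1 = A'
  generalize v.unpair.2.unpair.1 = B'
  generalize v.unpair.2.unpair.2 = C'
  push_cast
  have hC : (0 : ℝ) < C + 1 := by positivity
  have hC' : (0 : ℝ) < C' + 1 := by positivity
  have hp : (0 : ℝ) < 2 ^ n := by positivity
  rw [one_div_pow, div_add_div _ _ hC.ne' hp.ne', div_lt_div_iff₀ (by positivity) hC']
  rw [← Nat.cast_lt (α := ℝ)]
  push_cast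
  have key : ((A - B : ℝ) * 2 ^ n + (C + 1) * 1) * (C' + 1) - (A' - B') * ((C + 1) * 2 ^ n) =
      ((A : ℝ) * (C' + 1) * 2 ^ n + (C + 1) * (C' + 1) + B' * (C + 1) * 2 ^ n) -
      (A' * (C + 1) * 2 ^ n + B * (C' + 1) * 2 ^ n) := by ring
  constructor
  · intro h; linarith
  · intro h; linarith

theorem primrec_A : Primrec (fun u : ℕ => u.unpair.1) := Primrec.fst.comp Primrec.unpair
theorem primrec_B : Primrec (fun u : ℕ => u.unpair.2.unpair.1) :=
  Primrec.fst.comp (Primrec.unpair.comp (Primrec.snd.comp Primrec.unpair))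
theorem primrec_C : Primrec (fun u : ℕ => u.unpair.2.unpair.2 + 1) :=
  Primrec.succ.comp (Primrec.snd.comp (Primrec.unpair.comp (Primrec.snd.comp Primrec.unpair)))

theorem primrec_ltb {α : Type} [Primcodable α] {n u v : α → ℕ} (hn : Primrec n) (hu : Primrec u)
    (hv : Primrec v) : Primrec (fun a => ltb (n a) (u a) (v a)) := by
  unfold ltb
  have h2 : Primrec (fun a => 2 ^ n a) := primrec_pow2.comp hn
  have hA := primrec_A.comp hu
  have hB := primrec_B.comp hu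
  have hC := primrec_C.comp hu
  have hA' := primrec_A.comp hv
  have hB' := primrec_B.comp hv
  have hC' := primrec_C.comp hv
  refine PrimrecPred.decide (Primrec.nat_lt.comp ?_ ?_)
  · exact Primrec.nat_add.comp (Primrec.nat_add.comp
      (Primrec.nat_mul.comp (Primrec.nat_mul.comp hA hC') h2) (Primrec.nat_mul.comp hC hC'))
      (Primrec.nat_mul.comp (Primrec.nat_mul.comp hB' hC) h2)
  · exact Primrec.nat_add.comp
      (Primrec.nat_mul.comp (Primrec.nat_mul.comp hA' hC) h2)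
      (Primrec.nat_mul.comp (Primrec.nat_mul.comp hB hC') h2)

theorem rat_surj (q : ℚ) : ∃ n, rat n = q := by
  refine ⟨Nat.pair q.num.toNat (Nat.pair (-q.num).toNat (q.den - 1)), ?_⟩
  unfold rat
  simp only [Nat.unpair_pair]
  have hden : ((q.den - 1 : ℕ) : ℚ) + 1 = q.den := by
    have := q.den_pos
    rw [Nat.cast_sub (by omega)]; push_cast; ring
  have hnum : ((q.num.toNat : ℕ) : ℚ) - ((-q.num).toNat : ℕ) = q.num := by
    have h : ((q.num.toNat : ℤ)) - ((-q.num).toNat : ℤ) = q.num := Int.toNat_sub_toNat_neg q.num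
    exact_mod_cast congrArg (fun z : ℤ => (z : ℚ)) h
  rw [hden, hnum, Rat.num_div_den]

/-- a code of `-m + p / 2 ^ l` -/
def qc (m l p : ℕ) : ℕ := Nat.pair p (Nat.pair (m * 2 ^ l) (2 ^ l - 1))

theorem rat_qc (m l p : ℕ) : (rat (qc m l p) : ℝ) = -(m : ℝ) + p / 2 ^ l := by
  unfold rat qc
  simp only [Nat.unpair_pair]
  have h1 : ((2 ^ l - 1 : ℕ) : ℚ) + 1 = 2 ^ l := by
    have : 1 ≤ 2 ^ l := Nat.one_le_two_pow
    rw [Nat.cast_sub this]; push_cast; ring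
  rw [h1]
  push_cast
  have : (2 : ℝ) ^ l ≠ 0 := by positivity
  field_simp
  ring

theorem primrec_qc {α : Type} [Primcodable α] (m : ℕ) {l p : α → ℕ} (hl : Primrec l)
    (hp : Primrec p) : Primrec (fun a => qc m (l a) (p a)) := by
  unfold qc
  exact Primrec₂.natPair.comp hp (Primrec₂.natPair.comp
    (Primrec.nat_mul.comp (Primrec.const m) (primrec_pow2.comp hl))
    (Primrec.nat_sub.comp (primrec_pow2.comp hl) (Primrec.const 1)))

/-- parameters `(l, p, s)`, auxiliary numbers `(n, K, r)`: the machine run on the constant name of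
the point `qd m l p` outputs `r` at precision `n` -/
def runs (M : List ℕ → ℕ → Option ℕ) (m : ℕ) (z : (ℕ × ℕ × ℕ) × (ℕ × ℕ × ℕ)) : Bool :=
  decide (M (pre (fun _ => qc m z.1.1 z.1.2.1) z.2.2.1) z.2.1 = some z.2.2.2)

theorem computable_runs {M : List ℕ → ℕ → Option ℕ} (hM : Computable₂ M) (m : ℕ) :
    Computable (runs M m) := by
  unfold runs
  have h1 : Primrec (fun z : (ℕ × ℕ × ℕ) × (ℕ × ℕ × ℕ) => qc m z.1.1 z.1.2.1) :=
    primrec_qc m (Primrec.fst.comp Primrec.fst) (Primrec.fst.comp (Primrec.snd.comp Primrec.fst))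
  have h2 : Primrec (fun z : (ℕ × ℕ × ℕ) × (ℕ × ℕ × ℕ) =>
      pre (fun _ => qc m z.1.1 z.1.2.1) z.2.2.1) := by
    unfold pre
    exact Primrec.list_map
      (Primrec.list_range.comp (Primrec.fst.comp (Primrec.snd.comp Primrec.snd)))
      (h1.comp Primrec.fst)
  have h3 : Computable (fun z : (ℕ × ℕ × ℕ) × (ℕ × ℕ × ℕ) =>
      M (pre (fun _ => qc m z.1.1 z.1.2.1) z.2.2.1) z.2.1) :=
    hM.comp h2.to_comp (Primrec.fst.comp Primrec.snd).to_comp
  have h4 : Computable (fun z : (ℕ × ℕ × ℕ) × (ℕ × ℕ × ℕ) => some z.2.2.2) :=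
    (Primrec.option_some.comp (Primrec.snd.comp (Primrec.snd.comp Primrec.snd))).to_comp
  have h5 : Computable₂ (fun a b : Option ℕ => decide (a = b)) :=
    (Primrec.eq (α := Option ℕ)).decide.to_comp
  exact h5.comp h3 h4

theorem names_const (m l p : ℕ) : Names (fun _ => qc m l p) (qd m l p) := by
  intro i
  simp only []
  rw [rat_qc]
  unfold qd
  rw [sub_self, abs_zero]
  positivity

theorem dp_f_qd_lt {f : ℝ → ℝ} (hf : ComputableFun f) (m : ℕ) :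
    DP (fun (a : ℕ × ℕ × ℕ) (_ : ℝ) => f (qd m a.1 a.2.1) < (rat a.2.2 : ℝ)) := by
  obtain ⟨M, hM, hf⟩ := hf
  have h1 : Computable (fun z : (ℕ × ℕ × ℕ) × (ℕ × ℕ × ℕ) =>
      runs M m z && ltb z.2.1 z.2.2.2 z.1.2.2) :=
    Primrec.and.to_comp.comp (computable_runs hM m)
      (primrec_ltb (Primrec.fst.comp Primrec.snd)
        (Primrec.snd.comp (Primrec.snd.comp Primrec.snd))
        (Primrec.snd.comp (Primrec.snd.comp Primrec.fst))).to_comp
  refine DP.congr (DP.ex (P := fun (a : ℕ × ℕ × ℕ) (b : ℕ × ℕ × ℕ) (_ : ℝ) =>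
    (runs M m (a, b) && ltb (a, b).2.1 (a, b).2.2.2 (a, b).1.2.2) = true) ?_) ?_
  · exact DP.of_computable (p := fun z : (ℕ × ℕ × ℕ) × (ℕ × ℕ × ℕ) =>
      runs M m z && ltb z.2.1 z.2.2.2 z.1.2.2) h1
  · rintro ⟨l, p, s⟩ x
    simp only [Bool.and_eq_true, ltb_iff, runs, decide_eq_true_eq]
    obtain hn := hf (qd m l p) _ (names_const m l p)
    constructor
    · rintro ⟨⟨n, K, r⟩, h1, h2⟩
      simp only at h1 h2
      have h3 := abs_le.1 ((hn n).2 K r h1)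
      linarith [h3.1]
    · intro h
      obtain ⟨n, hn1⟩ := exists_pow_lt_of_lt_one
        (show 0 < ((rat s : ℝ) - f (qd m l p)) / 2 by linarith) (by norm_num : (1 / 2 : ℝ) < 1)
      obtain ⟨K, r, hr⟩ := (hn n).1
      refine ⟨(n, K, r), hr, ?_⟩
      have h3 := abs_le.1 ((hn n).2 K r hr)
      simp only
      linarith [h3.2]

theorem dp_lt_f_qd {f : ℝ → ℝ} (hf : ComputableFun f) (m : ℕ) :
    DP (fun (a : ℕ × ℕ × ℕ) (_ : ℝ) => (rat a.2.2 : ℝ) < f (qd m a.1 a.2.1)) := by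
  obtain ⟨M, hM, hf⟩ := hf
  have h1 : Computable (fun z : (ℕ × ℕ × ℕ) × (ℕ × ℕ × ℕ) =>
      runs M m z && ltb z.2.1 z.1.2.2 z.2.2.2) :=
    Primrec.and.to_comp.comp (computable_runs hM m)
      (primrec_ltb (Primrec.fst.comp Primrec.snd)
        (Primrec.snd.comp (Primrec.snd.comp Primrec.fst))
        (Primrec.snd.comp (Primrec.snd.comp Primrec.snd))).to_comp
  refine DP.congr (DP.ex (P := fun (a : ℕ × ℕ × ℕ) (b : ℕ × ℕ × ℕ) (_ : ℝ) =>
    (runs M m (a, b) && ltb (a, b).2.1 (a, b).1.2.2 (a, b).2.2.2) = true) ?_) ?_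
  · exact DP.of_computable (p := fun z : (ℕ × ℕ × ℕ) × (ℕ × ℕ × ℕ) =>
      runs M m z && ltb z.2.1 z.1.2.2 z.2.2.2) h1
  · rintro ⟨l, p, s⟩ x
    simp only [Bool.and_eq_true, ltb_iff, runs, decide_eq_true_eq]
    obtain hn := hf (qd m l p) _ (names_const m l p)
    constructor
    · rintro ⟨⟨n, K, r⟩, h1, h2⟩
      simp only at h1 h2
      have h3 := abs_le.1 ((hn n).2 K r h1)
      linarith [h3.2]
    · intro h
      obtain ⟨n, hn1⟩ := exists_pow_lt_of_lt_one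
        (show 0 < (f (qd m l p) - (rat s : ℝ)) / 2 by linarith) (by norm_num : (1 / 2 : ℝ) < 1)
      obtain ⟨K, r, hr⟩ := (hn n).1
      refine ⟨(n, K, r), hr, ?_⟩
      have h3 := abs_le.1 ((hn n).2 K r hr)
      simp only
      linarith [h3.1]

theorem sub_lt_iff (c y : ℝ) (j : ℕ) :
    (∃ b : ℕ × ℕ, ((rat b.1 : ℝ) < y ∧ c < (rat b.2 : ℝ)) ∧ ¬ (ltb j b.1 b.2 = true)) ↔
      c - y < (1 / 2 : ℝ) ^ j := by
  constructor
  · rintro ⟨b, ⟨h1, h2⟩, h3⟩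
    rw [ltb_iff, not_lt] at h3
    linarith
  · intro h
    obtain ⟨q, hq1, hq2⟩ := exists_rat_btwn (show c < y + (1 / 2 : ℝ) ^ j by linarith)
    obtain ⟨u, hu⟩ := rat_surj (q - (1 / 2) ^ j)
    obtain ⟨v, hv⟩ := rat_surj q
    refine ⟨(u, v), ⟨?_, ?_⟩, ?_⟩
    · simp only
      rw [hu]; push_cast; linarith
    · simp only
      rw [hv]; exact hq1
    · rw [ltb_iff, hu, hv]; push_cast; linarith

theorem sub_lt_iff' (c y : ℝ) (j : ℕ) :
    (∃ b : ℕ × ℕ, (y < (rat b.1 : ℝ) ∧ (rat b.2 : ℝ) < c) ∧ ¬ (ltb j b.2 b.1 = true)) ↔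
      y - c < (1 / 2 : ℝ) ^ j := by
  constructor
  · rintro ⟨b, ⟨h1, h2⟩, h3⟩
    rw [ltb_iff, not_lt] at h3
    linarith
  · intro h
    obtain ⟨q, hq1, hq2⟩ := exists_rat_btwn (show y < c + (1 / 2 : ℝ) ^ j by linarith)
    obtain ⟨u, hu⟩ := rat_surj q
    obtain ⟨v, hv⟩ := rat_surj (q - (1 / 2) ^ j)
    refine ⟨(u, v), ⟨?_, ?_⟩, ?_⟩
    · simp only
      rw [hu]; exact hq1
    · simp only
      rw [hv]; push_cast; linarith
    · rw [ltb_iff, hu, hv]; push_cast; linarith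

end CloseAux

open CloseAux

theorem DP.close {f : ℝ → ℝ} (hf : ComputableFun f) (m : ℕ) :
    DP (fun (a : ℕ × ℕ × ℕ) (x : ℝ) => (1 / 2 : ℝ) ^ a.1 ≤ |f (qd m a.2.1 a.2.2) - f x|) := by
  -- projections
  have pj : Primrec (fun z : (ℕ × ℕ × ℕ) × (ℕ × ℕ) => z.1.1) := Primrec.fst.comp Primrec.fst
  have pl : Primrec (fun z : (ℕ × ℕ × ℕ) × (ℕ × ℕ) => z.1.2.1) :=
    Primrec.fst.comp (Primrec.snd.comp Primrec.fst)
  have pp : Primrec (fun z : (ℕ × ℕ × ℕ) × (ℕ × ℕ) => z.1.2.2) :=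
    Primrec.snd.comp (Primrec.snd.comp Primrec.fst)
  have p1 : Primrec (fun z : (ℕ × ℕ × ℕ) × (ℕ × ℕ) => z.2.1) := Primrec.fst.comp Primrec.snd
  have p2 : Primrec (fun z : (ℕ × ℕ × ℕ) × (ℕ × ℕ) => z.2.2) := Primrec.snd.comp Primrec.snd
  have hD1 : DP (fun (a : ℕ × ℕ × ℕ) (x : ℝ) => f (qd m a.2.1 a.2.2) - f x < (1 / 2 : ℝ) ^ a.1) := by
    refine DP.congr (DP.ex (P := fun (a : ℕ × ℕ × ℕ) (b : ℕ × ℕ) (x : ℝ) =>
      ((rat b.1 : ℝ) < f x ∧ f (qd m a.2.1 a.2.2) < (rat b.2 : ℝ)) ∧ ¬ (ltb a.1 b.1 b.2 = true)) ?_)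
      (fun a x => sub_lt_iff _ _ _)
    refine DP.and (DP.and ?_ ?_) (DP.not ?_)
    · exact (DP.lt_f hf).comp p1.to_comp
    · exact (dp_f_qd_lt hf m).comp (φ := fun z : (ℕ × ℕ × ℕ) × (ℕ × ℕ) =>
        (z.1.2.1, z.1.2.2, z.2.2)) (pl.pair (pp.pair p2)).to_comp
    · exact DP.of_computable (primrec_ltb pj p1 p2).to_comp
  have hD2 : DP (fun (a : ℕ × ℕ × ℕ) (x : ℝ) => f x - f (qd m a.2.1 a.2.2) < (1 / 2 : ℝ) ^ a.1) := by
    refine DP.congr (DP.ex (P := fun (a : ℕ × ℕ × ℕ) (b : ℕ × ℕ) (x : ℝ) =>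
      (f x < (rat b.1 : ℝ) ∧ (rat b.2 : ℝ) < f (qd m a.2.1 a.2.2)) ∧ ¬ (ltb a.1 b.2 b.1 = true)) ?_)
      (fun a x => sub_lt_iff' _ _ _)
    refine DP.and (DP.and ?_ ?_) (DP.not ?_)
    · exact (DP.f_lt hf).comp p1.to_comp
    · exact (dp_lt_f_qd hf m).comp (φ := fun z : (ℕ × ℕ × ℕ) × (ℕ × ℕ) =>
        (z.1.2.1, z.1.2.2, z.2.2)) (pl.pair (pp.pair p2)).to_comp
    · exact DP.of_computable (primrec_ltb pj p2 p1).to_comp
  refine DP.congr (DP.not (DP.and hD1 hD2)) ?_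
  intro a x
  rw [← not_lt, abs_lt, not_iff_not]
  constructor
  · rintro ⟨h1, h2⟩
    exact ⟨by linarith, h1⟩
  · rintro ⟨h1, h2⟩
    exact ⟨h2, by linarith⟩

theorem DP.idx_eq (m : ℕ) :
    DP (fun (a : ℕ × ℕ) (x : ℝ) => -(m : ℝ) ≤ x ∧ idx m a.1 x = a.2) := by
  have h1 : Primrec (fun a : ℕ × ℕ => qc m a.1 a.2) := primrec_qc m Primrec.fst Primrec.snd
  have h2 : Primrec (fun a : ℕ × ℕ => qc m a.1 (a.2 + 1)) :=
    primrec_qc m Primrec.fst (Primrec.succ.comp Primrec.snd)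
  refine DP.congr (DP.and (DP.not (DP.lt_rat.comp h1.to_comp)) (DP.lt_rat.comp h2.to_comp)) ?_
  rintro ⟨k, i⟩ x
  simp only
  rw [rat_qc, rat_qc, not_lt]
  unfold idx
  have hp : (0 : ℝ) < 2 ^ k := by positivity
  constructor
  · rintro ⟨h1, h2⟩
    have h3 : (i : ℝ) / 2 ^ k ≤ x + m := by linarith
    have h4 : x + m < ((i + 1 : ℕ) : ℝ) / 2 ^ k := by linarith
    rw [div_le_iff₀ hp] at h3
    rw [lt_div_iff₀ hp] at h4
    push_cast at h4
    have h5 : 0 ≤ (i : ℝ) / 2 ^ k := by positivity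
    refine ⟨by linarith, ?_⟩
    rw [Nat.floor_eq_iff (le_trans (by positivity) h3)]
    exact ⟨h3, h4⟩
  · rintro ⟨h1, h2⟩
    have h0 : 0 ≤ (x + m) * 2 ^ k := mul_nonneg (by linarith) hp.le
    rw [Nat.floor_eq_iff h0] at h2
    obtain ⟨h3, h4⟩ := h2
    rw [← div_le_iff₀ hp] at h3
    rw [← lt_div_iff₀ hp] at h4
    push_cast
    constructor <;> linarith

end Pool.Agent.Luzin
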