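import Pool.Agent.Luzin.Tool
import Pool.Agent.Luzin.Close

set_option autoImplicit false

namespace Pool.Agent.Luzin

open MeasureTheory Set Filter Topology Metric

/- ===== T5 Form.lean (uses T1, T4) ===== -/

section Form

variable {α : Type} [Primcodable α]

theorem form_prim {p : α → Prop} (hp : PrimrecPred p) : DP (fun (a : α) (_ : ℝ) => p a) := by
  obtain ⟨_, h⟩ := hp
  exact (DP.of_computable h.to_comp).congr (fun a x => by simp)

theorem form_pow : Primrec₂ ((· ^ ·) : ℕ → ℕ → ℕ) := Primrec₂.unpaired'.1 Nat.Primrec.pow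

theorem form_mem : PrimrecRel (fun (u : List ℕ) (v : ℕ) => v ∈ u) :=
  (PrimrecRel.exists_mem_list (R := fun (a b : ℕ) => a = b) Primrec.eq).of_eq (by simp)

theorem form_close {f : ℝ → ℝ} (hf : ComputableFun f) (m : ℕ) {j l p : α → ℕ}
    (hj : Primrec j) (hl : Primrec l) (hp : Primrec p) :
    DP (fun (t : α) (x : ℝ) => (1 / 2 : ℝ) ^ (j t) ≤ |f (qd m (l t) (p t)) - f x|) :=
  (DP.close hf m).comp (hj.pair (hl.pair hp)).to_comp

theorem form_idx (m : ℕ) {k i : α → ℕ} (hk : Primrec k) (hi : Primrec i) :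
    DP (fun (t : α) (x : ℝ) => -(m : ℝ) ≤ x ∧ idx m (k t) x = i t) :=
  (DP.idx_eq m).comp (hk.pair hi).to_comp

theorem form_small1 {f : ℝ → ℝ} (hf : ComputableFun f) (m : ℕ) {k a b j : α → ℕ}
    {u : α → List ℕ} (hk : Primrec k) (hu : Primrec u) (ha : Primrec a) (hb : Primrec b)
    (hj : Primrec j) :
    DP (fun (t : α) (x : ℝ) => Small1 f m (k t) (u t) (a t) (b t) (j t) (f x)) := by
  unfold Small1
  refine DP.ex (β := ℕ) (DP.ex (β := List ℕ) (DP.and (form_prim ?_)
    (DP.all (β := ℕ) (DP.all (β := ℕ) (DP.imp (form_prim ?_) (DP.imp (form_prim ?_)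
      (form_close hf m ?_ ?_ ?_)))))))
  · exact Primrec.nat_lt.comp
      (Primrec.nat_mul.comp (Primrec.list_length.comp Primrec.snd)
        (form_pow.comp (Primrec.const 2)
          (Primrec.nat_add.comp (hb.comp (Primrec.fst.comp Primrec.fst))
            (hj.comp (Primrec.fst.comp Primrec.fst)))))
      (Primrec.nat_mul.comp (ha.comp (Primrec.fst.comp Primrec.fst))
        (form_pow.comp (Primrec.const 2) (Primrec.snd.comp Primrec.fst)))
  · exact form_mem.comp
      (hu.comp (Primrec.fst.comp (Primrec.fst.comp (Primrec.fst.comp Primrec.fst))))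
      (Primrec.nat_div.comp
        (Primrec.nat_mul.comp Primrec.snd
          (form_pow.comp (Primrec.const 2)
            (hk.comp (Primrec.fst.comp (Primrec.fst.comp (Primrec.fst.comp Primrec.fst))))))
        (form_pow.comp (Primrec.const 2) (Primrec.snd.comp Primrec.fst)))
  · exact (form_mem.comp
      (Primrec.snd.comp (Primrec.fst.comp Primrec.fst))
      (Primrec.nat_div.comp
        (Primrec.nat_mul.comp Primrec.snd
          (form_pow.comp (Primrec.const 2)
            (Primrec.snd.comp (Primrec.fst.comp (Primrec.fst.comp Primrec.fst)))))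
        (form_pow.comp (Primrec.const 2) (Primrec.snd.comp Primrec.fst)))).not
  · exact hj.comp (Primrec.fst.comp (Primrec.fst.comp (Primrec.fst.comp Primrec.fst)))
  · exact Primrec.snd.comp Primrec.fst
  · exact Primrec.snd

theorem form_small {f : ℝ → ℝ} (hf : ComputableFun f) (m : ℕ) {k a b : α → ℕ}
    {u : α → List ℕ} (hk : Primrec k) (hu : Primrec u) (ha : Primrec a) (hb : Primrec b) :
    DP (fun (t : α) (x : ℝ) => Small f m (k t) (u t) (a t) (b t) (f x)) := by
  unfold Small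
  refine DP.all (β := ℕ) (DP.ex (β := ℕ) (DP.and (form_prim ?_) (form_small1 hf m
    (hk.comp (Primrec.fst.comp Primrec.fst)) (hu.comp (Primrec.fst.comp Primrec.fst))
    (ha.comp (Primrec.fst.comp Primrec.fst)) (hb.comp (Primrec.fst.comp Primrec.fst))
    Primrec.snd)))
  exact Primrec.nat_le.comp (Primrec.snd.comp Primrec.fst) Primrec.snd

theorem form_QQ {f : ℝ → ℝ} (hf : ComputableFun f) (m : ℕ) {k i : α → ℕ}
    (hk : Primrec k) (hi : Primrec i) :
    DP (fun (t : α) (x : ℝ) => QQ f m (k t) (i t) (f x)) := by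
  unfold QQ
  -- variables `e, n, h, u`
  refine DP.ex (β := ℕ) (DP.all (β := ℕ) (DP.ex (β := ℕ) (DP.ex (β := List ℕ)
    (DP.and (DP.all (β := ℕ) (DP.imp (form_prim ?_) (form_prim ?_)))
      (DP.and (DP.all (β := ℕ) (DP.imp (form_prim ?_) (form_small hf m ?_ ?_ ?_ ?_)))
        (DP.not (form_small hf m ?_ ?_ ?_ ?_)))))))
  · exact form_mem.comp (Primrec.snd.comp Primrec.fst) Primrec.snd
  · exact Primrec.eq.comp
      (Primrec.nat_div.comp Primrec.snd
        (form_pow.comp (Primrec.const 2) (Primrec.snd.comp (Primrec.fst.comp Primrec.fst))))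
      (hi.comp (Primrec.fst.comp (Primrec.fst.comp (Primrec.fst.comp (Primrec.fst.comp
        Primrec.fst)))))
  · exact form_mem.comp (Primrec.snd.comp Primrec.fst) Primrec.snd
  · exact Primrec.nat_add.comp
      (hk.comp (Primrec.fst.comp (Primrec.fst.comp (Primrec.fst.comp (Primrec.fst.comp
        Primrec.fst)))))
      (Primrec.snd.comp (Primrec.fst.comp Primrec.fst))
  · exact Primrec.list_cons.comp Primrec.snd (Primrec.const [])
  · exact Primrec.const 1
  · exact Primrec.snd.comp (Primrec.fst.comp (Primrec.fst.comp Primrec.fst))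
  · exact Primrec.nat_add.comp
      (hk.comp (Primrec.fst.comp (Primrec.fst.comp (Primrec.fst.comp Primrec.fst))))
      (Primrec.snd.comp Primrec.fst)
  · exact Primrec.snd
  · exact Primrec.const 1
  · exact Primrec.snd.comp (Primrec.fst.comp (Primrec.fst.comp Primrec.fst))

theorem form_ChL {f : ℝ → ℝ} (hf : ComputableFun f) (m : ℕ) {k i : α → ℕ}
    (hk : Primrec k) (hi : Primrec i) :
    DP (fun (t : α) (x : ℝ) => ChL f m (k t) (i t) (f x)) := by
  unfold ChL
  have hk1 : Primrec (fun t => k t + 1) := Primrec.nat_add.comp hk (Primrec.const 1)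
  have hi1 : Primrec (fun t => 2 * i t) := Primrec.nat_mul.comp (Primrec.const 2) hi
  have hi2 : Primrec (fun t => 2 * i t + 1) := Primrec.nat_add.comp hi1 (Primrec.const 1)
  refine DP.and (form_QQ hf m hk1 hi1) (DP.imp (form_QQ hf m hk1 hi2)
    (DP.ex (β := ℕ) (DP.ex (β := ℕ) (DP.and (form_small hf m ?_ ?_ ?_ ?_)
      (DP.not (form_small hf m ?_ ?_ ?_ ?_))))))
  · exact hk1.comp (Primrec.fst.comp Primrec.fst)
  · exact Primrec.list_cons.comp (hi1.comp (Primrec.fst.comp Primrec.fst)) (Primrec.const [])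
  · exact Primrec.snd.comp Primrec.fst
  · exact Primrec.snd
  · exact hk1.comp (Primrec.fst.comp Primrec.fst)
  · exact Primrec.list_cons.comp (hi2.comp (Primrec.fst.comp Primrec.fst)) (Primrec.const [])
  · exact Primrec.snd.comp Primrec.fst
  · exact Primrec.snd

theorem form_N1 {f : ℝ → ℝ} (hf : ComputableFun f) (m : ℕ) :
    DP (fun (_ : ℕ) (x : ℝ) => x ∈ N1 f m) := by
  have h : DP (fun (_ : ℕ) (x : ℝ) => (∃ i : ℕ, (-(m : ℝ) ≤ x ∧ idx m 0 x = i)) ∧
      ∀ n : ℕ, ∃ k : ℕ, ∃ i : ℕ, (-(m : ℝ) ≤ x ∧ idx m k x = i) ∧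
        Small f m k [i] 1 n (f x)) := by
    refine DP.and (DP.ex (β := ℕ) (form_idx m (Primrec.const 0) Primrec.snd))
      (DP.all (β := ℕ) (DP.ex (β := ℕ) (DP.ex (β := ℕ)
        (DP.and (form_idx m (Primrec.snd.comp Primrec.fst) Primrec.snd)
          (form_small hf m (Primrec.snd.comp Primrec.fst)
            (Primrec.list_cons.comp Primrec.snd (Primrec.const [])) (Primrec.const 1)
            (Primrec.snd.comp (Primrec.fst.comp Primrec.fst)))))))
  refine h.congr (fun _ x => ?_)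
  constructor
  · rintro ⟨⟨i, hm, _⟩, h2⟩
    refine ⟨hm, fun n => ?_⟩
    obtain ⟨k, i, ⟨_, hi⟩, h3⟩ := h2 n
    exact ⟨k, by rw [hi]; exact h3⟩
  · rintro ⟨hm, h2⟩
    refine ⟨⟨_, hm, rfl⟩, fun n => ?_⟩
    obtain ⟨k, h3⟩ := h2 n
    exact ⟨k, _, ⟨hm, rfl⟩, h3⟩

theorem form_N2 {f : ℝ → ℝ} (hf : ComputableFun f) (m i₀ : ℕ) :
    DP (fun (_ : ℕ) (x : ℝ) => x ∈ N2 f m i₀) := by
  have h : DP (fun (_ : ℕ) (x : ℝ) => x ∈ N1 f m ∧ (-(m : ℝ) ≤ x ∧ idx m 0 x = i₀) ∧
      ∀ k : ℕ, ∀ i : ℕ, (-(m : ℝ) ≤ x ∧ idx m k x = i) →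
        ((-(m : ℝ) ≤ x ∧ idx m (k + 1) x = 2 * i) ↔ ChL f m k i (f x))) := by
    refine DP.and (form_N1 hf m) (DP.and (form_idx m (Primrec.const 0) (Primrec.const i₀))
      (DP.all (β := ℕ) (DP.all (β := ℕ)
        (DP.imp (form_idx m (Primrec.snd.comp Primrec.fst) Primrec.snd)
          (DP.iff
            (form_idx m (Primrec.nat_add.comp (Primrec.snd.comp Primrec.fst) (Primrec.const 1))
              (Primrec.nat_mul.comp (Primrec.const 2) Primrec.snd))
            (form_ChL hf m (Primrec.snd.comp Primrec.fst) Primrec.snd))))))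
  refine h.congr (fun _ x => ?_)
  constructor
  · rintro ⟨h1, ⟨hm, h0⟩, h2⟩
    refine ⟨h1, h0, fun k => ?_⟩
    rw [← h2 k _ ⟨hm, rfl⟩]
    exact ⟨fun h => ⟨hm, h⟩, fun h => h.2⟩
  · rintro ⟨h1, h0, h2⟩
    have hm : -(m : ℝ) ≤ x := h1.1
    refine ⟨h1, ⟨hm, h0⟩, ?_⟩
    rintro k i ⟨_, rfl⟩
    rw [← h2 k]
    exact ⟨fun h => h.2, fun h => ⟨hm, h⟩⟩

end Form

theorem N1_delta11 {f : ℝ → ℝ} (hf : ComputableFun f) (m : ℕ) : Delta11 (N1 f m) :=
  (form_N1 hf m).delta11 0

theorem N2_delta11 {f : ℝ → ℝ} (hf : ComputableFun f) (m i₀ : ℕ) : Delta11 (N2 f m i₀) :=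
  (form_N2 hf m i₀).delta11 0

end Pool.Agent.Luzin
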