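import Pool.Agent.Luzin.Small
import Pool.Agent.Luzin.Diff

set_option autoImplicit false

namespace Pool.Agent.Luzin

open MeasureTheory Set Filter Topology Metric

theorem W_sub (m k : ℕ) (u : List ℕ) : ∃ R : ℝ, W m k u ⊆ Icc (-(m : ℝ)) R := by
  refine ⟨(u.sum : ℝ) + 1, fun z hz => ⟨hz.1, ?_⟩⟩
  have h1 : idx m k z ≤ u.sum := List.single_le_sum (fun _ _ => Nat.zero_le _) _ hz.2
  have h2 : (z + m) * 2 ^ k < (idx m k z : ℝ) + 1 := Nat.lt_floor_add_one _
  have h3 : (idx m k z : ℝ) ≤ (u.sum : ℝ) := by exact_mod_cast h1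
  have h4 : 0 ≤ z + m := by have := hz.1; linarith
  have h5 : (1 : ℝ) ≤ 2 ^ k := one_le_pow₀ (by norm_num)
  have h6 : z + m ≤ (z + m) * 2 ^ k := by nlinarith
  have h7 : (0 : ℝ) ≤ m := Nat.cast_nonneg m
  linarith

theorem measurable_idx (m k : ℕ) : Measurable (idx m k) := by
  unfold idx
  exact Nat.measurable_floor.comp (by fun_prop)

theorem measurableSet_W (m k : ℕ) (u : List ℕ) : MeasurableSet (W m k u) := by
  unfold W
  refine MeasurableSet.inter (measurableSet_le measurable_const measurable_id) ?_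
  exact measurable_idx m k (MeasurableSet.of_discrete (s := {i | i ∈ u}))

theorem volume_W_lt_top (m k : ℕ) (u : List ℕ) : volume (W m k u) < ⊤ := by
  obtain ⟨R, hR⟩ := W_sub m k u
  exact lt_of_le_of_lt (measure_mono hR) measure_Icc_lt_top

instance isFiniteMeasure_mu (f : ℝ → ℝ) (m k : ℕ) (u : List ℕ) : IsFiniteMeasure (mu f m k u) := by
  unfold mu
  have : IsFiniteMeasure (volume.restrict (W m k u)) :=
    ⟨by rw [Measure.restrict_apply_univ]; exact volume_W_lt_top m k u⟩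
  infer_instance

theorem measurable_LL (f : ℝ → ℝ) (m k i : ℕ) : Measurable (LL f m k i) := by
  unfold LL
  exact ((Measure.measurable_rnDeriv _ _).const_mul _).ennreal_toReal

theorem mu_apply {f : ℝ → ℝ} (hf : Continuous f) (m k : ℕ) (u : List ℕ) {A : Set ℝ}
    (hA : MeasurableSet A) : mu f m k u A = volume (f ⁻¹' A ∩ W m k u) := by
  unfold mu
  rw [Measure.map_apply hf.measurable hA, Measure.restrict_apply (hf.measurable hA)]

theorem mu_sum {f : ℝ → ℝ} (hf : Continuous f) (m k : ℕ) (u : List ℕ) {A : Set ℝ}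
    (hA : MeasurableSet A) : mu f m k u A = ∑ i ∈ u.toFinset, mu f m k [i] A := by
  rw [mu_apply hf m k u hA]
  have h : f ⁻¹' A ∩ W m k u = ⋃ i ∈ u.toFinset, (f ⁻¹' A ∩ W m k [i]) := by
    ext z
    simp only [W, mem_inter_iff, mem_preimage, mem_ofPred_eq, mem_iUnion, List.mem_toFinset,
      List.mem_singleton, exists_prop]
    constructor
    · rintro ⟨h1, h2, h3⟩
      exact ⟨_, h3, h1, h2, rfl⟩
    · rintro ⟨i, hi, h1, h2, h3⟩
      exact ⟨h1, h2, h3 ▸ hi⟩
  rw [h, measure_biUnion_finset]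
  · exact Finset.sum_congr rfl fun i _ => (mu_apply hf m k [i] hA).symm
  · intro i _ j _ hij
    refine Set.disjoint_left.2 ?_
    rintro z ⟨_, _, h1⟩ ⟨_, _, h2⟩
    simp only [List.mem_singleton] at h1 h2
    exact hij (h1.symm.trans h2)
  · intro i _
    exact (hf.measurable hA).inter (measurableSet_W m k [i])

theorem idx_succ (m k : ℕ) (z : ℝ) : idx m (k + 1) z / 2 = idx m k z := by
  unfold idx
  rw [← Nat.floor_div_natCast]
  congr 1
  push_cast
  ring

theorem mu_add {f : ℝ → ℝ} (hf : Continuous f) (m k i : ℕ) {A : Set ℝ}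
    (hA : MeasurableSet A) :
    mu f m k [i] A = mu f m (k + 1) [2 * i] A + mu f m (k + 1) [2 * i + 1] A := by
  rw [mu_apply hf m k _ hA, mu_apply hf m _ _ hA, mu_apply hf m _ _ hA, ← measure_union]
  · congr 1
    ext z
    simp only [W, mem_inter_iff, mem_preimage, mem_ofPred_eq, mem_union, List.mem_singleton]
    have := idx_succ m k z
    constructor
    · rintro ⟨h1, h2, h3⟩
      have : idx m (k + 1) z = 2 * i ∨ idx m (k + 1) z = 2 * i + 1 := by omega
      rcases this with h | h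
      · exact Or.inl ⟨h1, h2, h⟩
      · exact Or.inr ⟨h1, h2, h⟩
    · rintro (⟨h1, h2, h3⟩ | ⟨h1, h2, h3⟩)
      · exact ⟨h1, h2, by omega⟩
      · exact ⟨h1, h2, by omega⟩
  · refine Set.disjoint_left.2 ?_
    rintro z ⟨_, _, h1⟩ ⟨_, _, h2⟩
    simp only [List.mem_singleton] at h1 h2
    omega
  · exact (hf.measurable hA).inter (measurableSet_W m _ _)

/-- the good event: all limits exist and all densities are finite -/
theorem ae_lim (f : ℝ → ℝ) (m : ℕ) :
    ∀ᵐ y ∂(volume : Measure ℝ), ∀ (k : ℕ) (u : List ℕ), Tendsto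
      (fun j : ℕ => mu f m k u (closedBall y ((1 / 2 : ℝ) ^ j)) / ENNReal.ofReal ((1 / 2) ^ j)) atTop
      (𝓝 (2 * (mu f m k u).rnDeriv volume y)) ∧ (mu f m k u).rnDeriv volume y < ⊤ := by
  rw [ae_all_iff]
  intro k
  rw [ae_all_iff]
  intro u
  filter_upwards [tendsto_rnDeriv (mu f m k u), Measure.rnDeriv_lt_top (mu f m k u) volume] with y h1 h2
  exact ⟨h1, h2⟩

theorem pj_pos (j : ℕ) : 0 < ENNReal.ofReal ((1 / 2 : ℝ) ^ j) := by
  rw [ENNReal.ofReal_pos]; positivity

theorem ratio_lt {μ : ENNReal} {t : ℝ} (ht : 0 < t) {A : ℝ} (hA : 0 ≤ A)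
    (h : μ / ENNReal.ofReal t < ENNReal.ofReal A) : μ < ENNReal.ofReal (A * t) := by
  rw [ENNReal.ofReal_mul hA]
  rwa [ENNReal.div_lt_iff (Or.inl (by simpa using ht)) (Or.inl ENNReal.ofReal_ne_top)] at h

theorem ae_goodAt {f : ℝ → ℝ} (hf : Continuous f) (m : ℕ) :
    ∀ᵐ y ∂(volume : Measure ℝ), GoodAt f m y (fun k i => LL f m k i y) := by
  filter_upwards [ae_lim f m] with y hy
  have hfin : ∀ k u, 2 * (mu f m k u).rnDeriv volume y ≠ ⊤ := fun k u =>
    ENNReal.mul_ne_top (by norm_num) (hy k u).2.ne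
  -- the limit of a finite union
  have hsum : ∀ k u, 2 * (mu f m k u).rnDeriv volume y =
      ∑ i ∈ u.toFinset, 2 * (mu f m k [i]).rnDeriv volume y := by
    intro k u
    refine tendsto_nhds_unique (hy k u).1 ?_
    have : (fun j : ℕ => mu f m k u (closedBall y ((1 / 2 : ℝ) ^ j)) / ENNReal.ofReal ((1 / 2) ^ j)) =
        fun j : ℕ => ∑ i ∈ u.toFinset,
          (mu f m k [i] (closedBall y ((1 / 2 : ℝ) ^ j)) / ENNReal.ofReal ((1 / 2) ^ j)) := by
      funext j
      rw [mu_sum hf m k u measurableSet_closedBall]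
      simp only [ENNReal.div_eq_inv_mul, Finset.mul_sum]
    rw [this]
    exact tendsto_finsetSum _ fun i _ => (hy k [i]).1
  have hsumR : ∀ k u, (2 * (mu f m k u).rnDeriv volume y).toReal =
      ∑ i ∈ u.toFinset, LL f m k i y := by
    intro k u
    rw [hsum k u, ENNReal.toReal_sum fun i _ => hfin k [i]]
    rfl
  refine ⟨fun k i => ENNReal.toReal_nonneg, ?_, ?_, ?_, ?_⟩
  · intro k i
    have h1 : 2 * (mu f m k [i]).rnDeriv volume y =
        2 * (mu f m (k + 1) [2 * i]).rnDeriv volume y +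
          2 * (mu f m (k + 1) [2 * i + 1]).rnDeriv volume y := by
      refine tendsto_nhds_unique (hy k [i]).1 ?_
      have : (fun j : ℕ => mu f m k [i] (closedBall y ((1 / 2 : ℝ) ^ j)) /
          ENNReal.ofReal ((1 / 2) ^ j)) = fun j : ℕ =>
          (mu f m (k + 1) [2 * i] (closedBall y ((1 / 2 : ℝ) ^ j)) / ENNReal.ofReal ((1 / 2) ^ j)) +
          (mu f m (k + 1) [2 * i + 1] (closedBall y ((1 / 2 : ℝ) ^ j)) /
            ENNReal.ofReal ((1 / 2) ^ j)) := by
        funext j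
        rw [mu_add hf m k i measurableSet_closedBall, ENNReal.add_div]
      rw [this]
      exact (hy _ _).1.add (hy _ _).1
    show LL f m k i y = LL f m (k + 1) (2 * i) y + LL f m (k + 1) (2 * i + 1) y
    unfold LL
    rw [h1, ENNReal.toReal_add (hfin _ _) (hfin _ _)]
  · intro k u a b hlt J
    have h1 : 2 * (mu f m k u).rnDeriv volume y < ENNReal.ofReal ((a : ℝ) / 2 ^ b) := by
      rw [ENNReal.lt_ofReal_iff_toReal_lt (hfin k u), hsumR k u]
      exact hlt
    have h2 := ((hy k u).1.eventually (gt_mem_nhds h1)).and (eventually_ge_atTop J)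
    obtain ⟨j, hj, hJ⟩ := h2.exists
    refine ⟨j, hJ, small1_of_mu hf m k u a b j y ?_⟩
    exact ratio_lt (by positivity) (by positivity) hj
  · intro k u a b hS
    show (∑ i ∈ u.toFinset, LL f m k i y) ≤ _
    rw [← hsumR k u]
    refine ENNReal.toReal_le_of_le_ofReal (by positivity) ?_
    refine le_of_tendsto_of_frequently (hy k u).1 ?_
    rw [frequently_atTop]
    intro J
    obtain ⟨j, hj, h1⟩ := hS J
    refine ⟨j + 1, by omega, ?_⟩
    have h2 := (mu_of_small1 hf m k u a b j y h1).le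
    rw [ENNReal.div_le_iff (pj_pos _).ne' ENNReal.ofReal_ne_top, ← ENNReal.ofReal_mul (by positivity)]
    refine h2.trans (le_of_eq ?_)
    congr 1
    rw [pow_succ]
    ring
  · intro k i hpos ε hε
    have hpos' : 0 < LL f m k i y := hpos
    have h1 : 0 < 2 * (mu f m k [i]).rnDeriv volume y := by
      rw [pos_iff_ne_zero]
      intro h0
      unfold LL at hpos'
      rw [h0] at hpos'
      simp at hpos'
    have h2 := (hy k [i]).1.eventually (lt_mem_nhds h1)
    have h3 : ∀ᶠ j : ℕ in atTop, (1 / 2 : ℝ) ^ j < ε :=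
      (tendsto_pow_atTop_nhds_zero_of_lt_one (by norm_num) (by norm_num)).eventually
        (gt_mem_nhds hε)
    obtain ⟨j, hj, hj2⟩ := (h2.and h3).exists
    have h4 : mu f m k [i] (closedBall y ((1 / 2 : ℝ) ^ j)) ≠ 0 := by
      intro h0
      rw [h0] at hj
      simp at hj
    rw [mu_apply hf m k _ measurableSet_closedBall] at h4
    obtain ⟨z, hz1, hz2, hz3⟩ := nonempty_of_measure_ne_zero h4
    refine ⟨z, hz2, by simpa using hz3, ?_⟩
    have : dist (f z) y ≤ (1 / 2 : ℝ) ^ j := hz1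
    rw [Real.dist_eq] at this
    exact this.trans hj2.le

/-- a common null set for all dyadic intervals -/
theorem exists_null_all {f : ℝ → ℝ} (hf : Continuous f) (m : ℕ) :
    ∃ M : Set ℝ, MeasurableSet M ∧ volume M = 0 ∧ ∀ (k i : ℕ) (A : Set ℝ), MeasurableSet A →
      mu f m k [i] (A \ M) ≤ ∫⁻ y in A, ENNReal.ofReal (LL f m k i y) := by
  choose M hM1 hM2 hM3 using fun (p : ℕ × ℕ) => exists_null (mu f m p.1 [p.2])
  refine ⟨⋃ p, M p, MeasurableSet.iUnion hM1, measure_iUnion_null hM2, ?_⟩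
  intro k i A hA
  calc mu f m k [i] (A \ ⋃ p, M p) ≤ mu f m k [i] (A \ M (k, i)) :=
        measure_mono (sdiff_subset_sdiff_right (subset_iUnion M (k, i)))
    _ ≤ ∫⁻ y in A, (mu f m k [i]).rnDeriv volume y := hM3 (k, i) A hA
    _ ≤ ∫⁻ y in A, ENNReal.ofReal (LL f m k i y) := by
        refine lintegral_mono_ae (ae_restrict_of_ae ?_)
        filter_upwards [Measure.rnDeriv_lt_top (mu f m k [i]) volume] with y hy
        unfold LL
        rw [ENNReal.ofReal_toReal (ENNReal.mul_ne_top (by norm_num) hy.ne)]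
        exact le_mul_of_one_le_left zero_le (by norm_num)

theorem N1_null_part {f : ℝ → ℝ} (hf : Continuous f) (m : ℕ) {M : Set ℝ} (hM : volume M = 0) :
    volume (N1 f m ∩ f ⁻¹' M) = 0 := by
  set M' := toMeasurable volume M with hM'
  have hM'0 : volume M' = 0 := by rw [hM', measure_toMeasurable, hM]
  have hM'm : MeasurableSet M' := measurableSet_toMeasurable _ _
  have hMM' : M ⊆ M' := subset_toMeasurable _ _
  have key : ∀ k i : ℕ, ∀ᵐ x ∂(volume : Measure ℝ), x ∈ W m k [i] → f x ∈ M' →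
      ¬ Small f m k [i] 1 0 (f x) := by
    intro k i
    have h1 := tendsto_top (mu f m k [i]) hM'0
    rw [ae_restrict_iff' hM'm] at h1
    unfold mu at h1
    have h2 := ae_of_ae_map hf.measurable.aemeasurable h1
    rw [ae_restrict_iff' (measurableSet_W m k [i])] at h2
    filter_upwards [h2] with x hx hxW hxM hS
    have h3 := hx hxW hxM
    have h4 : ∀ᶠ j : ℕ in atTop, ENNReal.ofReal 2 < mu f m k [i] (closedBall (f x) ((1 / 2 : ℝ) ^ j)) /
        ENNReal.ofReal ((1 / 2) ^ j) := h3.eventually (lt_mem_nhds ENNReal.ofReal_lt_top)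
    obtain ⟨J, hJ⟩ := eventually_atTop.1 h4
    obtain ⟨j, hj, hj1⟩ := hS J
    have h5 := hJ (j + 1) (by omega)
    have h6 := (mu_of_small1 hf m k [i] 1 0 j (f x) hj1).le
    refine absurd h5 (not_lt.2 ?_)
    rw [ENNReal.div_le_iff (pj_pos _).ne' ENNReal.ofReal_ne_top, ← ENNReal.ofReal_mul (by positivity)]
    refine h6.trans (le_of_eq ?_)
    congr 1
    rw [pow_succ]
    norm_num
    ring
  have h : ∀ᵐ x ∂(volume : Measure ℝ), x ∉ N1 f m ∩ f ⁻¹' M := by
    have hall : ∀ᵐ x ∂(volume : Measure ℝ), ∀ k i : ℕ, x ∈ W m k [i] → f x ∈ M' →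
        ¬ Small f m k [i] 1 0 (f x) := by
      rw [ae_all_iff]
      intro k
      rw [ae_all_iff]
      exact key k
    filter_upwards [hall] with x hx hxN
    obtain ⟨⟨h1, h2⟩, h3⟩ := hxN
    obtain ⟨k, hk⟩ := h2 0
    exact hx k (idx m k x) ⟨h1, by simp⟩ (hMM' h3) hk
  have h' := measure_eq_zero_iff_ae_notMem.2 h
  exact h'

end Pool.Agent.Luzin
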