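import Pool.Agent.Luzin.Good

/-! # MP_a8cc1b_lc, T10: f is not injective on subsets of N1 of positive measure -/

set_option autoImplicit false

namespace Pool.Agent.Luzin

open MeasureTheory Set Filter Topology Metric

namespace InjAux

theorem mu_apply {f : ℝ → ℝ} (hf : Continuous f) (m k : ℕ) (u : List ℕ) {A : Set ℝ}
    (hA : MeasurableSet A) : mu f m k u A = volume (f ⁻¹' A ∩ W m k u) := by
  unfold mu
  rw [Measure.map_apply hf.measurable hA, Measure.restrict_apply (hf.measurable hA)]

/-- the bounded part, outside an exceptional set -/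
theorem bounded_part {f : ℝ → ℝ} (hf : Continuous f) (m : ℕ) {E M : Set ℝ}
    (hE : MeasurableSet E) (hinj : InjOn f E) (hEN : E ⊆ N1 f m)
    (hM : ∀ (k i : ℕ) (A : Set ℝ), MeasurableSet A →
      mu f m k [i] (A \ M) ≤ ∫⁻ y in A, ENNReal.ofReal (LL f m k i y))
    (hEM : ∀ x ∈ E, f x ∉ M) (hgood : ∀ x ∈ E, GoodAt f m (f x) (fun k i => LL f m k i (f x)))
    (hV : volume (f '' E) ≠ ⊤) : volume E = 0 := by
  have key : ∀ n : ℕ, volume E ≤ ENNReal.ofReal (2 * (1 / 2) ^ n) * volume (f '' E) := by
    intro n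
    set B : ℕ → Set ℝ := fun t => E ∩ (W m t.unpair.1 [t.unpair.2] ∩
      f ⁻¹' {y | LL f m t.unpair.1 t.unpair.2 y ≤ 2 * (1 / 2) ^ n}) with hB
    have hBm : ∀ t, MeasurableSet (B t) := by
      intro t
      exact hE.inter ((measurableSet_W _ _ _).inter
        (hf.measurable (measurableSet_le (measurable_LL _ _ _ _) measurable_const)))
    have hcov : E ⊆ ⋃ t, B t := by
      intro x hx
      obtain ⟨hxm, hsm⟩ := hEN hx
      obtain ⟨k, hk⟩ := hsm n
      have h1 := (hgood x hx).small' k [idx m k x] 1 n hk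
      rw [mem_iUnion]
      refine ⟨Nat.pair k (idx m k x), hx, ?_, ?_⟩
      · rw [Nat.unpair_pair]
        exact ⟨hxm, List.mem_singleton.2 rfl⟩
      · rw [Nat.unpair_pair, mem_preimage]
        show LL f m k (idx m k x) (f x) ≤ 2 * (1 / 2) ^ n
        simp only [List.toFinset_cons, List.toFinset_nil, insert_empty_eq,
          Finset.sum_singleton, Nat.cast_one] at h1
        rwa [one_div_pow]
    have hCm : ∀ t, MeasurableSet (disjointed B t) := MeasurableSet.disjointed hBm
    have hCB : ∀ t, disjointed B t ⊆ B t := fun t => disjointed_subset B t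
    have hCE : ∀ t, disjointed B t ⊆ E := fun t => (hCB t).trans inter_subset_left
    have hfCm : ∀ t, MeasurableSet (f '' disjointed B t) := fun t =>
      (hCm t).image_of_continuousOn_injOn hf.continuousOn (hinj.mono (hCE t))
    have hfCd : Pairwise (Function.onFun Disjoint (fun t => f '' disjointed B t)) := by
      intro s t hst
      rw [Function.onFun, Set.disjoint_left]
      rintro y ⟨x, hx, rfl⟩ ⟨x', hx', hxx⟩
      have : x' = x := hinj (hCE t hx') (hCE s hx) hxx
      subst this
      exact (Set.disjoint_left.1 (disjoint_disjointed B hst) hx) hx'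
    have hone : ∀ t, volume (disjointed B t) ≤
        ENNReal.ofReal (2 * (1 / 2) ^ n) * volume (f '' disjointed B t) := by
      intro t
      have h1 : volume (disjointed B t) ≤ mu f m t.unpair.1 [t.unpair.2] (f '' disjointed B t) := by
        rw [mu_apply hf _ _ _ (hfCm t)]
        apply measure_mono
        intro x hx
        exact ⟨mem_image_of_mem f hx, (hCB t hx).2.1⟩
      have h2 : f '' disjointed B t \ M = f '' disjointed B t := by
        ext y
        simp only [Set.mem_sdiff, and_iff_left_iff_imp]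
        rintro ⟨x, hx, rfl⟩
        exact hEM x (hCE t hx)
      have h3 := hM t.unpair.1 t.unpair.2 _ (hfCm t)
      rw [h2] at h3
      refine h1.trans (h3.trans ?_)
      calc ∫⁻ y in f '' disjointed B t, ENNReal.ofReal (LL f m t.unpair.1 t.unpair.2 y)
          ≤ ∫⁻ _ in f '' disjointed B t, ENNReal.ofReal (2 * (1 / 2) ^ n) := by
            apply setLIntegral_mono' (hfCm t)
            rintro y ⟨x, hx, rfl⟩
            apply ENNReal.ofReal_le_ofReal
            exact (hCB t hx).2.2
        _ = _ := by rw [setLIntegral_const]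
    calc volume E ≤ volume (⋃ t, disjointed B t) := by
          apply measure_mono
          rw [iUnion_disjointed]
          exact hcov
      _ ≤ ∑' t, volume (disjointed B t) := measure_iUnion_le _
      _ ≤ ∑' t, ENNReal.ofReal (2 * (1 / 2) ^ n) * volume (f '' disjointed B t) :=
          ENNReal.tsum_le_tsum hone
      _ = ENNReal.ofReal (2 * (1 / 2) ^ n) * volume (⋃ t, f '' disjointed B t) := by
          rw [ENNReal.tsum_mul_left, measure_iUnion hfCd hfCm]
      _ ≤ ENNReal.ofReal (2 * (1 / 2) ^ n) * volume (f '' E) := by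
          gcongr
          exact iUnion_subset (fun t => image_mono (hCE t))
  have hlim : Tendsto (fun n : ℕ => ENNReal.ofReal (2 * (1 / 2) ^ n) * volume (f '' E)) atTop
      (𝓝 0) := by
    have h1 : Tendsto (fun n : ℕ => (2 : ℝ) * (1 / 2) ^ n) atTop (𝓝 0) := by
      have := (tendsto_pow_atTop_nhds_zero_of_lt_one (by norm_num : (0 : ℝ) ≤ 1 / 2)
        (by norm_num : (1 / 2 : ℝ) < 1)).const_mul 2
      simpa using this
    have h2 : Tendsto (fun n : ℕ => ENNReal.ofReal (2 * (1 / 2) ^ n)) atTop (𝓝 0) := by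
      have := ENNReal.tendsto_ofReal h1
      simpa using this
    have h3 := ENNReal.Tendsto.mul_const h2 (Or.inr hV)
    simpa using h3
  exact le_antisymm (ge_of_tendsto' hlim key) zero_le

end InjAux

open InjAux

theorem null_of_injOn {f : ℝ → ℝ} (hf : Continuous f) (m : ℕ) {E : Set ℝ} (hE : MeasurableSet E)
    (hEN : E ⊆ N1 f m) (hinj : InjOn f E) : volume E = 0 := by
  obtain ⟨M, -, hM0, hM⟩ := exists_null_all hf m
  have hgood := ae_goodAt hf m
  set Bad : Set ℝ := {y | ¬ GoodAt f m y (fun k i => LL f m k i y)} with hBad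
  have hBad0 : volume Bad = 0 := hgood
  set M2 : Set ℝ := toMeasurable volume (M ∪ Bad) with hM2
  have hM20 : volume M2 = 0 := by
    rw [hM2, measure_toMeasurable]
    exact measure_union_null hM0 hBad0
  have hM2m : MeasurableSet M2 := measurableSet_toMeasurable _ _
  have hMM2 : M ∪ Bad ⊆ M2 := subset_toMeasurable _ _
  have hpart := N1_null_part hf m hM20
  set E0 : Set ℝ := E \ f ⁻¹' M2 with hE0
  have hE0m : MeasurableSet E0 := hE.diff (hf.measurable hM2m)
  have hbd : ∀ R : ℕ, volume (E0 ∩ Icc (-(R : ℝ)) R) = 0 := by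
    intro R
    have hsub : E0 ∩ Icc (-(R : ℝ)) R ⊆ E := fun x hx => hx.1.1
    apply bounded_part (M := M) hf m (hE0m.inter measurableSet_Icc) (hinj.mono hsub)
      (hsub.trans hEN) hM
    · intro x hx hxM
      exact hx.1.2 (hMM2 (Or.inl hxM))
    · intro x hx
      by_contra hno
      exact hx.1.2 (hMM2 (Or.inr hno))
    · have h1 : volume (f '' Icc (-(R : ℝ)) R) < ⊤ :=
        (isCompact_Icc.image hf).measure_lt_top
      exact ((measure_mono (image_mono inter_subset_right)).trans_lt h1).ne
  have hE00 : volume E0 = 0 := by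
    have hcov : E0 ⊆ ⋃ R : ℕ, E0 ∩ Icc (-(R : ℝ)) R := by
      intro x hx
      obtain ⟨R, hR⟩ := exists_nat_ge |x|
      rw [mem_iUnion]
      exact ⟨R, hx, abs_le.1 hR⟩
    exact measure_mono_null hcov (measure_iUnion_null hbd)
  have hcov : E ⊆ E0 ∪ (N1 f m ∩ f ⁻¹' M2) := by
    intro x hx
    by_cases h : f x ∈ M2
    · exact Or.inr ⟨hEN hx, h⟩
    · exact Or.inl ⟨hx, h⟩
  exact measure_mono_null hcov (measure_union_null hE00 hpart)

end Pool.Agent.Luzin
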