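import Mathlib
import Pool.Agent.Luzin.Defs

/-! # MP_a8cc1b_lc, T2: measurability and countability of lightface Borel sets -/

set_option autoImplicit false

namespace Pool.Agent.Luzin

open MeasureTheory Set

/-- initial segments depend only on finitely many values -/
theorem meas_isOpen_pre (n : ℕ) (s : List ℕ) : IsOpen {g : ℕ → ℕ | pre g n = s} := by
  rw [isOpen_iff_mem_nhds]
  intro g hg
  have h1 : PiNat.cylinder g n ∈ nhds g :=
    (PiNat.isOpen_cylinder (fun _ => ℕ) g n).mem_nhds (PiNat.self_mem_cylinder g n)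
  refine Filter.mem_of_superset h1 ?_
  intro g' hg'
  have h2 : pre g' n = pre g n := by
    unfold pre
    apply List.map_congr_left
    intro i hi
    rw [List.mem_range] at hi
    exact (PiNat.mem_cylinder_iff.mp hg') i hi
  exact h2.trans hg

theorem Sigma11.analyticSet {A : Set ℝ} (h : Sigma11 A) : AnalyticSet A := by
  obtain ⟨c, _, hc⟩ := h
  let C : Set (ℝ × (ℕ → ℕ)) := {p | ∀ n, ¬ ((rat (c (pre p.2 n)).1 : ℝ) < p.1 ∧
    p.1 < (rat (c (pre p.2 n)).2 : ℝ))}
  have hopen : ∀ n, IsOpen {p : ℝ × (ℕ → ℕ) | (rat (c (pre p.2 n)).1 : ℝ) < p.1 ∧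
      p.1 < (rat (c (pre p.2 n)).2 : ℝ)} := by
    intro n
    have : {p : ℝ × (ℕ → ℕ) | (rat (c (pre p.2 n)).1 : ℝ) < p.1 ∧
        p.1 < (rat (c (pre p.2 n)).2 : ℝ)} =
        ⋃ s : List ℕ, (Ioo (rat (c s).1 : ℝ) (rat (c s).2 : ℝ)) ×ˢ {g | pre g n = s} := by
      ext p
      simp only [mem_ofPred_eq, mem_iUnion, mem_prod, mem_Ioo]
      constructor
      · intro hp
        exact ⟨pre p.2 n, hp, rfl⟩
      · rintro ⟨s, hs, hs'⟩
        rw [hs']
        exact hs
    rw [this]
    exact isOpen_iUnion (fun s => isOpen_Ioo.prod (meas_isOpen_pre n s))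
  have hC : IsClosed C := by
    have : C = ⋂ n, {p : ℝ × (ℕ → ℕ) | (rat (c (pre p.2 n)).1 : ℝ) < p.1 ∧
      p.1 < (rat (c (pre p.2 n)).2 : ℝ)}ᶜ := by
      ext p
      simp only [C, mem_ofPred_eq, mem_iInter, mem_compl_iff]
    rw [this]
    exact isClosed_iInter (fun n => (hopen n).isClosed_compl)
  have hA : A = Prod.fst '' C := by
    ext x
    rw [hc x]
    constructor
    · rintro ⟨g, hg⟩
      exact ⟨(x, g), hg, rfl⟩
    · rintro ⟨⟨x', g⟩, hg, rfl⟩
      exact ⟨g, hg⟩
  rw [hA]
  exact hC.analyticSet.image_of_continuous continuous_fst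

theorem Delta11.measurableSet {A : Set ℝ} (h : Delta11 A) : MeasurableSet A :=
  h.1.analyticSet.measurableSet_of_compl h.2.analyticSet

theorem meas_countable_computable : {c : List ℕ → ℕ × ℕ | Computable c}.Countable := by
  classical
  have hcode : ∀ c : List ℕ → ℕ × ℕ, ∃ code : Nat.Partrec.Code, Computable c →
      Nat.Partrec.Code.eval code = fun n => Part.bind (Encodable.decode (α := List ℕ) n)
        fun a => Part.map Encodable.encode ((c : List ℕ →. ℕ × ℕ) a) := by
    intro c
    by_cases hc : Computable c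
    · obtain ⟨code, hcode⟩ := Nat.Partrec.Code.exists_code.mp hc
      exact ⟨code, fun _ => hcode⟩
    · exact ⟨default, fun h => absurd h hc⟩
  choose F hF using hcode
  have hinj : InjOn F {c : List ℕ → ℕ × ℕ | Computable c} := by
    intro c hc c' hc' heq
    funext a
    have h1 := congrFun (hF c hc) (Encodable.encode a)
    have h2 := congrFun (hF c' hc') (Encodable.encode a)
    rw [heq, h2] at h1
    simp only [Encodable.encodek, Part.coe_some, Part.bind_some, PFun.coe_val, Part.map_some] at h1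
    exact (Encodable.encode_injective (Part.some_injective h1)).symm
  exact countable_of_injective_of_countable_image hinj (Set.to_countable _)

theorem countable_delta11 : {A : Set ℝ | Delta11 A}.Countable := by
  let Φ : (List ℕ → ℕ × ℕ) → Set ℝ := fun c => {x | ∃ g : ℕ → ℕ, ∀ n,
    ¬ ((rat (c (pre g n)).1 : ℝ) < x ∧ x < (rat (c (pre g n)).2 : ℝ))}
  refine (meas_countable_computable.image Φ).mono ?_
  rintro A ⟨⟨c, hc, hA⟩, _⟩
  refine ⟨c, hc, ?_⟩
  ext x
  exact (hA x).symm

theorem null_image {f : ℝ → ℝ} (hf : Reflects f) {A : Set ℝ} (hA : Delta11 A)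
    (h0 : volume A = 0) : volume (f '' A) = 0 := by
  have hsub : f '' A ⊆ ⋃ B ∈ {B : Set ℝ | Delta11 B ∧ volume B = 0}, B := by
    rintro _ ⟨x, hx, rfl⟩
    by_contra hcon
    have hr : Random (f x) := by
      intro B hB hB0 hxB
      apply hcon
      rw [mem_iUnion₂]
      exact ⟨B, ⟨hB, hB0⟩, hxB⟩
    exact hf x hr A hA h0 hx
  refine measure_mono_null hsub ?_
  rw [measure_biUnion_null_iff (countable_delta11.mono (fun B hB => hB.1))]
  exact fun B hB => hB.2

end Pool.Agent.Luzin
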