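import Pool.Agent.Luzin.Defs

/-! # MP_a8cc1b_lc, T6: smallness of the level measure and dyadic covers -/

set_option autoImplicit false

namespace Pool.Agent.Luzin

open MeasureTheory Set Filter Topology Metric

namespace SmallAux

/-- the dyadic interval of level `n` with index `i` -/
def D (m n i : ℕ) : Set ℝ := Ico (-(m : ℝ) + i / 2 ^ n) (-(m : ℝ) + (i + 1) / 2 ^ n)

theorem mem_D_iff {m n i : ℕ} {z : ℝ} : z ∈ D m n i ↔ -(m : ℝ) ≤ z ∧ idx m n z = i := by
  have h2 : (0 : ℝ) < 2 ^ n := by positivity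
  unfold D idx
  rw [mem_Ico]
  constructor
  · rintro ⟨h1, h3⟩
    have hz : -(m : ℝ) ≤ z := by
      have : (0 : ℝ) ≤ i / 2 ^ n := by positivity
      linarith
    refine ⟨hz, ?_⟩
    rw [Nat.floor_eq_iff (by
      apply mul_nonneg _ h2.le
      linarith)]
    constructor
    · rw [← div_le_iff₀ h2]; linarith
    · rw [← lt_div_iff₀ h2]; linarith
  · rintro ⟨h1, h3⟩
    rw [Nat.floor_eq_iff (by
      apply mul_nonneg _ h2.le
      linarith)] at h3
    obtain ⟨h4, h5⟩ := h3
    rw [← div_le_iff₀ h2] at h4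
    rw [← lt_div_iff₀ h2] at h5
    constructor <;> linarith

theorem volume_D (m n i : ℕ) : volume (D m n i) = ENNReal.ofReal (1 / 2 ^ n) := by
  unfold D
  rw [Real.volume_Ico]
  congr 1
  ring

theorem idx_qd (m k l p : ℕ) : idx m k (qd m l p) = p * 2 ^ k / 2 ^ l := by
  unfold idx qd
  rw [show (-(m : ℝ) + p / 2 ^ l + m) * 2 ^ k = ((p * 2 ^ k : ℕ) : ℝ) / ((2 ^ l : ℕ) : ℝ) by
    push_cast; ring]
  exact Nat.floor_div_eq_div _ _

theorem qd_ge (m l p : ℕ) : -(m : ℝ) ≤ qd m l p := by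
  unfold qd
  have : (0 : ℝ) ≤ p / 2 ^ l := by positivity
  linarith

theorem idx_idx {m k l : ℕ} (h : k ≤ l) (z : ℝ) : idx m l z * 2 ^ k / 2 ^ l = idx m k z := by
  obtain ⟨d, rfl⟩ := Nat.exists_eq_add_of_le h
  rw [pow_add, mul_comm (2 ^ k) (2 ^ d), Nat.mul_div_mul_right _ _ (by positivity)]
  unfold idx
  rw [← Nat.floor_div_natCast]
  congr 1
  push_cast
  rw [pow_add]
  field_simp

theorem W_eq (m k : ℕ) (u : List ℕ) : W m k u = ⋃ i ∈ u, D m k i := by
  ext z
  simp only [mem_iUnion, mem_D_iff, exists_prop]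
  constructor
  · rintro ⟨h1, h2⟩
    exact ⟨_, h2, h1, rfl⟩
  · rintro ⟨i, h1, h2, h3⟩
    exact ⟨h2, by rw [h3]; exact h1⟩

theorem measurableSet_W' (m k : ℕ) (u : List ℕ) : MeasurableSet (W m k u) := by
  classical
  have h : W m k u = ⋃ i ∈ u.toFinset, D m k i := by
    rw [W_eq]
    simp only [List.mem_toFinset]
  rw [h]
  exact Finset.measurableSet_biUnion _ (fun i _ => measurableSet_Ico)

theorem mu_apply {f : ℝ → ℝ} (hf : Continuous f) (m k : ℕ) (u : List ℕ) {A : Set ℝ}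
    (hA : MeasurableSet A) : mu f m k u A = volume (f ⁻¹' A ∩ W m k u) := by
  unfold mu
  rw [Measure.map_apply hf.measurable hA, Measure.restrict_apply (hf.measurable hA)]

end SmallAux

open SmallAux

theorem small1_of_mu {f : ℝ → ℝ} (hf : Continuous f) (m k : ℕ) (u : List ℕ) (a b j : ℕ) (y : ℝ)
    (h : mu f m k u (closedBall y ((1 / 2 : ℝ) ^ j)) <
      ENNReal.ofReal ((a : ℝ) / 2 ^ b * (1 / 2) ^ j)) :
    Small1 f m k u a b j y := by
  classical
  rw [mu_apply hf m k u measurableSet_closedBall] at h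
  set t : ℝ := (a : ℝ) / 2 ^ b * (1 / 2) ^ j with ht
  -- the closed version of W
  set W' : Set ℝ := ⋃ i ∈ u.toFinset, Icc (-(m : ℝ) + i / 2 ^ k) (-(m : ℝ) + (i + 1) / 2 ^ k)
    with hW'
  have hW'c : IsCompact W' := u.toFinset.isCompact_biUnion (fun i _ => isCompact_Icc)
  have hWW' : W m k u ⊆ W' := by
    rw [W_eq]
    intro z hz
    simp only [mem_iUnion, exists_prop] at hz
    obtain ⟨i, hi, hz⟩ := hz
    rw [hW']
    simp only [mem_iUnion, exists_prop]
    exact ⟨i, by simpa using hi, Ico_subset_Icc_self hz⟩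
  set F : Set ℝ := (fun i : ℕ => -(m : ℝ) + ((i : ℝ) + 1) / 2 ^ k) '' (u.toFinset : Set ℕ) with hF
  have hFc : F.Countable := (u.toFinset.countable_toSet).image _
  have hW'F : W' ⊆ W m k u ∪ F := by
    intro z hz
    rw [hW'] at hz
    simp only [mem_iUnion, exists_prop] at hz
    obtain ⟨i, hi, hz⟩ := hz
    rcases lt_or_eq_of_le hz.2 with h1 | h1
    · left
      rw [W_eq]
      simp only [mem_iUnion, exists_prop]
      exact ⟨i, by simpa using hi, hz.1, h1⟩
    · right
      exact ⟨i, hi, h1.symm⟩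
  set K : Set ℝ := W' ∩ f ⁻¹' (closedBall y ((1 / 2 : ℝ) ^ j)) with hK
  have hKc : IsCompact K := hW'c.inter_right (isClosed_closedBall.preimage hf)
  have hKv : volume K < ENNReal.ofReal t := by
    refine lt_of_le_of_lt ?_ h
    calc volume K ≤ volume ((f ⁻¹' (closedBall y ((1 / 2 : ℝ) ^ j)) ∩ W m k u) ∪ F) := by
          apply measure_mono
          rintro z ⟨hz1, hz2⟩
          rcases hW'F hz1 with h1 | h1
          · exact Or.inl ⟨hz2, h1⟩
          · exact Or.inr h1
      _ ≤ volume (f ⁻¹' (closedBall y ((1 / 2 : ℝ) ^ j)) ∩ W m k u) + volume F :=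
          measure_union_le _ _
      _ = _ := by rw [hFc.measure_zero, add_zero]
  obtain ⟨O, hKO, hO, hOv⟩ := Set.exists_isOpen_lt_of_lt K _ hKv
  obtain ⟨δ, hδ, hδO⟩ := hKc.exists_thickening_subset_open hO hKO
  obtain ⟨n, hn⟩ := exists_pow_lt_of_lt_one hδ (by norm_num : (1 / 2 : ℝ) < 1)
  obtain ⟨R, hR⟩ := hKc.isBounded.bddAbove
  set s : Finset ℕ := (Finset.range (⌊(R + m) * 2 ^ n⌋₊ + 1)).filter
    (fun i => ∃ z ∈ K, -(m : ℝ) ≤ z ∧ idx m n z = i) with hs
  have hsm : ∀ z ∈ K, -(m : ℝ) ≤ z → idx m n z ∈ s := by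
    intro z hz hzm
    rw [hs, Finset.mem_filter, Finset.mem_range]
    refine ⟨Nat.lt_succ_of_le ?_, z, hz, hzm, rfl⟩
    unfold idx
    apply Nat.floor_le_floor
    apply mul_le_mul_of_nonneg_right _ (by positivity)
    have := hR hz
    linarith
  have hsO : (⋃ i ∈ s, D m n i) ⊆ O := by
    intro x hx
    simp only [mem_iUnion, exists_prop] at hx
    obtain ⟨i, hi, hx⟩ := hx
    rw [hs, Finset.mem_filter] at hi
    obtain ⟨-, z, hzK, hzm, hzi⟩ := hi
    apply hδO
    rw [mem_thickening_iff]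
    refine ⟨z, hzK, ?_⟩
    have hzD : z ∈ D m n i := mem_D_iff.2 ⟨hzm, hzi⟩
    refine lt_of_lt_of_le ?_ (le_of_lt hn)
    rw [Real.dist_eq, abs_lt]
    have h2 : (1 / 2 : ℝ) ^ n = 1 / 2 ^ n := by rw [one_div_pow]
    obtain ⟨hx1, hx2⟩ := hx
    obtain ⟨hz1, hz2⟩ := hzD
    rw [add_div] at hx2 hz2
    rw [h2]
    constructor <;> linarith
  have hsv : (s.card : ENNReal) * ENNReal.ofReal (1 / 2 ^ n) ≤ volume O := by
    calc (s.card : ENNReal) * ENNReal.ofReal (1 / 2 ^ n) = ∑ i ∈ s, volume (D m n i) := by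
          simp only [volume_D, Finset.sum_const, nsmul_eq_mul]
      _ = volume (⋃ i ∈ s, D m n i) := by
          rw [measure_biUnion_finset]
          · intro i _ i' _ hii
            rw [Function.onFun, Set.disjoint_left]
            intro z hz hz'
            rw [mem_D_iff] at hz hz'
            exact hii (hz.2.symm.trans hz'.2)
          · intro i _
            exact measurableSet_Ico
      _ ≤ volume O := measure_mono hsO
  have hlt := lt_of_le_of_lt hsv hOv
  have hlt' : (s.card : ℝ) * (1 / 2 ^ n) < t := by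
    rw [← ENNReal.ofReal_natCast, ← ENNReal.ofReal_mul (by positivity)] at hlt
    exact (ENNReal.ofReal_lt_ofReal_iff_of_nonneg (by positivity)).1 hlt
  refine ⟨n, s.toList, ?_, ?_⟩
  · rw [Finset.length_toList]
    have h3 : (s.card : ℝ) * 2 ^ (b + j) < a * 2 ^ n := by
      rw [ht] at hlt'
      have e1 : (s.card : ℝ) * (1 / 2 ^ n) = (s.card : ℝ) / 2 ^ n := by ring
      have e2 : (a : ℝ) / 2 ^ b * (1 / 2) ^ j = a / 2 ^ (b + j) := by
        rw [one_div_pow, pow_add]; field_simp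
      rw [e1, e2, div_lt_div_iff₀ (by positivity) (by positivity)] at hlt'
      exact hlt'
    exact_mod_cast h3
  · intro l p h1 h2
    by_contra h3
    push Not at h3
    apply h2
    rw [Finset.mem_toList, ← idx_qd m n l p]
    apply hsm _ _ (qd_ge m l p)
    refine ⟨hWW' ⟨qd_ge m l p, by rw [idx_qd]; exact h1⟩, ?_⟩
    rw [mem_preimage, mem_closedBall, Real.dist_eq]
    exact h3.le

theorem mu_of_small1 {f : ℝ → ℝ} (hf : Continuous f) (m k : ℕ) (u : List ℕ) (a b j : ℕ) (y : ℝ)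
    (h : Small1 f m k u a b j y) :
    mu f m k u (closedBall y ((1 / 2 : ℝ) ^ (j + 1))) <
      ENNReal.ofReal ((a : ℝ) / 2 ^ b * (1 / 2) ^ j) := by
  classical
  obtain ⟨n, s, hs, hall⟩ := h
  rw [mu_apply hf m k u measurableSet_closedBall]
  have hsub : f ⁻¹' (closedBall y ((1 / 2 : ℝ) ^ (j + 1))) ∩ W m k u ⊆
      ⋃ i ∈ s.toFinset, D m n i := by
    rintro z ⟨hz1, hz2, hz3⟩
    rw [mem_preimage, mem_closedBall, Real.dist_eq] at hz1
    by_contra hno
    have hns : idx m n z ∉ s := by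
      intro hmem
      apply hno
      simp only [mem_iUnion, exists_prop]
      exact ⟨idx m n z, by simpa using hmem, mem_D_iff.2 ⟨hz2, rfl⟩⟩
    -- dyadic approximations from the left
    have hlim : Tendsto (fun l : ℕ => qd m l (idx m l z)) atTop (𝓝 z) := by
      rw [Metric.tendsto_atTop]
      intro ε hε
      obtain ⟨N, hN⟩ := exists_pow_lt_of_lt_one hε (by norm_num : (1 / 2 : ℝ) < 1)
      refine ⟨N, fun l hl => ?_⟩
      have hzD : z ∈ D m l (idx m l z) := mem_D_iff.2 ⟨hz2, rfl⟩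
      obtain ⟨h1, h2⟩ := hzD
      have h3 : (1 / 2 : ℝ) ^ l ≤ (1 / 2 : ℝ) ^ N :=
        pow_le_pow_of_le_one (by norm_num) (by norm_num) hl
      have h4 : (1 / 2 : ℝ) ^ l = 1 / 2 ^ l := by rw [one_div_pow]
      rw [add_div] at h2
      rw [Real.dist_eq, abs_lt]
      unfold qd
      have h5 : (0 : ℝ) < 1 / 2 ^ l := by positivity
      constructor <;> linarith
    have hge : ∀ᶠ l : ℕ in atTop, (1 / 2 : ℝ) ^ j ≤ |f (qd m l (idx m l z)) - y| := by
      filter_upwards [eventually_ge_atTop (max k n)] with l hl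
      apply hall
      · rw [idx_idx (le_trans (le_max_left _ _) hl)]
        exact hz3
      · rw [idx_idx (le_trans (le_max_right _ _) hl)]
        exact hns
    have hlim2 : Tendsto (fun l : ℕ => |f (qd m l (idx m l z)) - y|) atTop (𝓝 |f z - y|) :=
      (((hf.tendsto z).comp hlim).sub tendsto_const_nhds).abs
    have h6 := ge_of_tendsto hlim2 hge
    have h7 : (1 / 2 : ℝ) ^ (j + 1) < (1 / 2 : ℝ) ^ j := by
      rw [pow_succ]
      have : (0 : ℝ) < (1 / 2) ^ j := by positivity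
      linarith
    linarith
  calc volume (f ⁻¹' (closedBall y ((1 / 2 : ℝ) ^ (j + 1))) ∩ W m k u)
      ≤ volume (⋃ i ∈ s.toFinset, D m n i) := measure_mono hsub
    _ ≤ ∑ i ∈ s.toFinset, volume (D m n i) := measure_biUnion_finset_le _ _
    _ = (s.toFinset.card : ENNReal) * ENNReal.ofReal (1 / 2 ^ n) := by
        simp only [volume_D, Finset.sum_const, nsmul_eq_mul]
    _ = ENNReal.ofReal ((s.toFinset.card : ℝ) * (1 / 2 ^ n)) := by
        rw [← ENNReal.ofReal_natCast, ← ENNReal.ofReal_mul (by positivity)]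
    _ < ENNReal.ofReal ((a : ℝ) / 2 ^ b * (1 / 2) ^ j) := by
        have hcard : (s.toFinset.card : ℝ) ≤ s.length := by
          exact_mod_cast s.toFinset_card_le
        have hs' : (s.length : ℝ) * 2 ^ (b + j) < a * 2 ^ n := by exact_mod_cast hs
        have e2 : (a : ℝ) / 2 ^ b * (1 / 2) ^ j = a / 2 ^ (b + j) := by
          rw [one_div_pow, pow_add]; field_simp
        have h8 : (s.toFinset.card : ℝ) * (1 / 2 ^ n) < (a : ℝ) / 2 ^ b * (1 / 2) ^ j := by
          have e1 : (s.toFinset.card : ℝ) * (1 / 2 ^ n) = (s.toFinset.card : ℝ) / 2 ^ n := by ring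
          rw [e1, e2, div_lt_div_iff₀ (by positivity) (by positivity)]
          have : (0 : ℝ) < 2 ^ (b + j) := by positivity
          nlinarith
        exact (ENNReal.ofReal_lt_ofReal_iff_of_nonneg (by positivity)).2 h8

end Pool.Agent.Luzin
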