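import Pool.Agent.Luzin.Tool
import Pool.Agent.Luzin.Meas
import Pool.Agent.Luzin.Base
import Pool.Agent.Luzin.Close
import Pool.Agent.Luzin.Form
import Pool.Agent.Luzin.Small
import Pool.Agent.Luzin.Diff
import Pool.Agent.Luzin.Good
import Pool.Agent.Luzin.Claim1
import Pool.Agent.Luzin.Inj
import Pool.Agent.Luzin.CaseA
import Pool.Agent.Luzin.Path
import Pool.Agent.Luzin.CaseB

set_option autoImplicit false

namespace Pool.Agent.Luzin

open MeasureTheory Set Filter Topology Metric

theorem luzin_Ici {f : ℝ → ℝ} (hf : ComputableFun f) (hr : Reflects f) (m : ℕ) {Z : Set ℝ}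
    (hZ : volume Z = 0) (hZm : ∀ z ∈ Z, -(m : ℝ) ≤ z) : volume (f '' Z) = 0 := by
  have hc : Continuous f := continuous_of_computable hf
  have hN1 := N1_delta11 hf m
  by_cases hA : ∀ᵐ y ∂(volume : Measure ℝ), ∀ i₀, ¬ QQ f m 0 i₀ y
  · have h0 : volume (N1 f m) = 0 := N1_null hc m hN1.measurableSet hA
    exact claim1 hc m (null_image hr hN1 h0) hZ hZm
  · exfalso
    apply hA
    rw [ae_all_iff]
    intro i₀
    have hN2 := N2_delta11 hf m i₀
    have h0 : volume (N2 f m i₀) = 0 :=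
      null_of_injOn hc m hN2.measurableSet (fun x hx => hx.1) (injOn_N2 f m i₀)
    have h1 : volume (f '' N2 f m i₀) = 0 := null_image hr hN2 h0
    have h2 : volume (⋃ l : ℕ, ⋃ p : ℕ, {f (qd m l p)}) = 0 := by
      refine Set.Countable.measure_zero ?_ _
      exact countable_iUnion fun l => countable_iUnion fun p => countable_singleton _
    filter_upwards [ae_goodAt hc m, measure_eq_zero_iff_ae_notMem.1 h1,
      measure_eq_zero_iff_ae_notMem.1 h2] with y hg hy1 hy2 hQ
    have hy : ∀ l p, f (qd m l p) ≠ y := by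
      intro l p h
      exact hy2 (mem_iUnion.2 ⟨l, mem_iUnion.2 ⟨p, h.symm⟩⟩)
    obtain ⟨x, hx, hxy⟩ := exists_mem_N2 hc hg hQ hy
    exact hy1 ⟨x, hx, hxy⟩

theorem luzin_of_reflects {f : ℝ → ℝ} (hf : ComputableFun f) (hr : Reflects f) : LuzinN f := by
  intro S hS
  have hcov : S = ⋃ m : ℕ, {x ∈ S | -(m : ℝ) ≤ x} := by
    ext x
    simp only [mem_iUnion, mem_setOf_eq]
    constructor
    · intro hx
      obtain ⟨m, hm⟩ := exists_nat_ge (-x)
      exact ⟨m, hx, by linarith⟩
    · rintro ⟨m, hx, -⟩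
      exact hx
  rw [hcov, image_iUnion, measure_iUnion_null_iff]
  intro m
  exact luzin_Ici hf hr m (measure_mono_null (fun x hx => hx.1) hS) (fun z hz => hz.2)

end Pool.Agent.Luzin
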